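import Pool.Agent.Helper80.HD.GoalsC

/-!
# Project HD (MP_6af536_nt): the final assembly.
-/

set_option autoImplicit false

open MvPolynomial Filter Topology

noncomputable section

namespace Pool.Agent.Helper80.HD

theorem lh_nonneg {K : Type} [Field K] [NumberField K] {σ : Type} (hLHD : S_LHD) (P : MvPolynomial σ K) : 0 ≤ lh P :=
  (hLHD K).2.2.2.2 σ P

theorem ratioField_fg (K : Type) [Field K] [Algebra K ℂ] {N : ℕ} (x : Fin (N + 1) → ℂ) : (ratioField K x).FG := by
  refine IntermediateField.fg_adjoin_of_finite ?_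
  have : {c : ℂ | ∃ i j, c = x i / x j} = Set.range (fun p : Fin (N + 1) × Fin (N + 1) => x p.1 / x p.2) := by
    ext c
    constructor
    · rintro ⟨i, j, h⟩
      exact ⟨(i, j), h.symm⟩
    · rintro ⟨⟨i, j⟩, h⟩
      exact ⟨i, j, h.symm⟩
  rw [this]
  exact Set.finite_range _

theorem big_of {K : Type} [Field K] [Algebra K ℂ] {N : ℕ} {F : IntermediateField K ℂ} {x : Fin (N + 1) → ℂ}
    (hx : x ≠ 0) (hle : ratioField K x ≤ F) (h : (ratioField K x).relfinrank F ≠ 0) : Big K F x := by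
  refine ⟨hx, hle, fun a ha => ?_⟩
  rw [IntermediateField.relfinrank_eq_finrank_of_le hle] at h
  have : Module.Finite (ratioField K x) (IntermediateField.extendScalars hle) :=
    Module.finite_of_finrank_pos (Nat.pos_of_ne_zero h)
  have h1 : IsAlgebraic (ratioField K x) (⟨a, ha⟩ : IntermediateField.extendScalars hle) :=
    Algebra.IsAlgebraic.isAlgebraic _
  exact IntermediateField.isAlgebraic_iff.1 h1

section nondeg

variable {K : Type} [Field K] [NumberField K] [Algebra K ℂ] {N k : ℕ} (F : IntermediateField K ℂ)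
  (x : ℕ → Fin (N + 1) → ℂ)

/-- heights -/
def EE (k : ℕ) (J : Fin (k + 1) → ℕ) : ℝ := lh (cyc K F (fun i => x (J i)))

/-- degrees -/
def DD (J : Fin k → ℕ) : ℝ :=
  (bdeg 0 (cyc K F (fun i => x ((Fin.cons 0 J : Fin (k + 1) → ℕ) i))) : ℝ)

variable {F x}

theorem cons_eq (J : Fin k → ℕ) (j : ℕ) :
    (Fin.cons (x j) (fun i => x (J i)) : Fin (k + 1) → Fin (N + 1) → ℂ) =
      fun i => x ((Fin.cons j J : Fin (k + 1) → ℕ) i) := by
  funext i
  refine Fin.cases ?_ (fun i => ?_) i <;> simp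

theorem symE (hSYM : S_SYM) (hFG : F.FG) (htr : Algebra.trdeg K F = k) (hB : ∀ n, Big K F (x n))
    (σ : Equiv.Perm (Fin (k + 1))) (J : Fin (k + 1) → ℕ) : EE F x k (J ∘ σ) = EE F x k J :=
  (hSYM K F k N (fun i => x (J i)) σ hFG htr (fun i => hB _)).1

/-- the degree in the block `i` -/
theorem bdeg_eq (hSYM : S_SYM) (hDEP : S_DEP) (hFG : F.FG) (htr : Algebra.trdeg K F = k) (hB : ∀ n, Big K F (x n))
    (Z : Fin (k + 1) → ℕ) (i : Fin (k + 1)) :
    (bdeg i (cyc K F (fun l => x (Z l))) : ℝ) = DD F x (fun s => Z (i.succAbove s)) := by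
  set Z' : Fin (k + 1) → ℕ := Function.update Z i 0 with hZ'
  have h1 := (hDEP K F k N (fun l => x (Z l)) (fun l => x (Z' l)) i hFG htr (fun l => hB _) (fun l => hB _)
    (fun l hl => by rw [hZ', Function.update_of_ne hl])).1
  have h2 := (hSYM K F k N (fun l => x (Z' l)) (i.cycleRange.symm) hFG htr (fun l => hB _)).2 0
  rw [Fin.cycleRange_symm_zero] at h2
  rw [h1, ← h2]
  unfold DD
  congr 3
  funext l
  refine Fin.cases ?_ (fun s => ?_) l
  · show x (Z' (i.cycleRange.symm 0)) = _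
    rw [Fin.cycleRange_symm_zero, hZ', Function.update_self]
    simp
  · show x (Z' (i.cycleRange.symm s.succ)) = _
    rw [Fin.cycleRange_symm_succ, hZ', Function.update_of_ne (Fin.succAbove_ne i s)]
    simp

theorem bdeg_swap (hSYM : S_SYM) (hFG : F.FG) (htr : Algebra.trdeg K F = k) (hB : ∀ n, Big K F (x n))
    (J : Fin k → ℕ) (l : Fin k) (j : ℕ) :
    (bdeg l.succ (cyc K F (fun i => x ((Fin.cons j (Function.update J l 0) : Fin (k + 1) → ℕ) i))) : ℝ) =
      DD F x (Function.update J l j) := by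
  have h2 := (hSYM K F k N (fun i => x ((Fin.cons j (Function.update J l 0) : Fin (k + 1) → ℕ) i))
    (Equiv.swap 0 l.succ) hFG htr (fun l => hB _)).2 0
  rw [Equiv.swap_apply_left] at h2
  rw [← h2]
  unfold DD
  congr 3
  funext i
  show x ((Fin.cons j (Function.update J l 0) : Fin (k + 1) → ℕ) (Equiv.swap 0 l.succ i)) = _
  congr 1
  refine Fin.cases ?_ (fun s => ?_) i
  · rw [Equiv.swap_apply_left]
    simp
  · by_cases hs : s = l
    · subst hs
      rw [Equiv.swap_apply_right]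
      simp
    · rw [Equiv.swap_apply_of_ne_of_ne (Fin.succ_ne_zero s) (fun h => hs (Fin.succ_injective _ h))]
      simp [Function.update_of_ne hs]

theorem symD (hSYM : S_SYM) (hFG : F.FG) (htr : Algebra.trdeg K F = k) (hB : ∀ n, Big K F (x n))
    (σ : Equiv.Perm (Fin k)) (J : Fin k → ℕ) : DD F x (J ∘ σ) = DD F x J := by
  have h2 := (hSYM K F k N (fun i => x ((Fin.cons 0 J : Fin (k + 1) → ℕ) i))
    (Equiv.Perm.decomposeFin.symm (0, σ)) hFG htr (fun l => hB _)).2 0
  rw [Equiv.Perm.decomposeFin_symm_apply_zero] at h2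
  unfold DD
  rw [← h2]
  congr 3
  funext i
  show _ = x ((Fin.cons 0 J : Fin (k + 1) → ℕ) (Equiv.Perm.decomposeFin.symm (0, σ) i))
  congr 1
  refine Fin.cases ?_ (fun s => ?_) i
  · rw [Equiv.Perm.decomposeFin_symm_apply_zero]
    simp
  · rw [Equiv.Perm.decomposeFin_symm_apply_succ, Equiv.swap_self]
    simp

theorem recData (hSYM : S_SYM) (hDEP : S_DEP) (hKP : S_KP) (hKQ : S_KQ) (hLHD : S_LHD) (hORB : S_ORB)
    {f : RMap K N} {m : ℕ} {a : Fin (m + 1) → ℤ} (ham : a (Fin.last m) ≠ 0) (T : Triv f m a)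
    (hx : f.IsOrbit x) (hFG : F.FG) (htr : Algebra.trdeg K F = k) (hB : ∀ n, Big K F (x n)) :
    ∃ B C₀ : ℝ, RecData k m a (EE F x k) (DD F x) B C₀ := by
  obtain ⟨C₁, hC₁, h1⟩ := hKP K N f m a T k
  obtain ⟨B, C₂, hB1, hC₂, h2⟩ := hKQ K N f k
  obtain ⟨hmem, -, hseg⟩ := (hORB K N f).2.2 x hx
  have hD1 : ∀ J : Fin k → ℕ, 1 ≤ DD F x J := by
    intro J
    have h := (hDEP K F k N (fun i => x ((Fin.cons 0 J : Fin (k + 1) → ℕ) i))
      (fun i => x ((Fin.cons 0 J : Fin (k + 1) → ℕ) i)) 0 hFG htr (fun l => hB _) (fun l => hB _)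
      (fun l _ => rfl)).2
    unfold DD
    exact_mod_cast h
  have key0 : ∀ (j : ℕ) (J : Fin k → ℕ),
      (bdeg 0 (cyc K F (Fin.cons (x j) (fun i => x (J i)) : Fin (k + 1) → Fin (N + 1) → ℂ)) : ℝ) = DD F x J := by
    intro j J
    rw [cons_eq, bdeg_eq hSYM hDEP hFG htr hB]
    congr 1
  have keyl : ∀ (j : ℕ) (J : Fin k → ℕ) (l : Fin k),
      (bdeg l.succ (cyc K F (Fin.cons (x j) (fun i => x (J i)) : Fin (k + 1) → Fin (N + 1) → ℂ)) : ℝ) =
        DD F x (fun s => (Fin.cons j J : Fin (k + 1) → ℕ) (l.succ.succAbove s)) := by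
    intro j J l
    rw [cons_eq, bdeg_eq hSYM hDEP hFG htr hB]
  have keyu : ∀ (j : ℕ) (J : Fin k → ℕ) (l : Fin k),
      (bdeg l.succ (cyc K F (Fin.cons (x j) (fun i => x ((Function.update J l 0) i)) :
        Fin (k + 1) → Fin (N + 1) → ℂ)) : ℝ) = DD F x (Function.update J l j) := by
    intro j J l
    rw [cons_eq, bdeg_swap hSYM hFG htr hB]
  have keyE : ∀ (j : ℕ) (J : Fin k → ℕ),
      lh (cyc K F (Fin.cons (x j) (fun i => x (J i)) : Fin (k + 1) → Fin (N + 1) → ℂ)) =
        EE F x k (Fin.cons j J) := by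
    intro j J
    rw [cons_eq]
    rfl
  refine ⟨B, max C₁ C₂, ham, hB1, le_max_of_le_left hC₁, symE hSYM hFG htr hB, symD hSYM hFG htr hB,
    fun J => lh_nonneg hLHD _, hD1, fun j J => ?_, fun j J l => ?_, fun j J => ?_, fun J l => ?_⟩
  · have h := (h1 F (fun i => x (J i)) (fun i => x (j + i)) hFG htr (fun i => hB _) (fun i => hB _)
      (hseg j m)).1
    simp only [keyE, key0, keyl] at h
    refine h.trans (mul_le_mul_of_nonneg_right (le_max_left _ _) ?_)
    have e1 := hD1 J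
    have e2 : 0 ≤ ∑ i : Fin (m + 1), ∑ l : Fin k,
        DD F x (fun s => (Fin.cons (j + i) J : Fin (k + 1) → ℕ) (l.succ.succAbove s)) :=
      Finset.sum_nonneg fun i _ => Finset.sum_nonneg fun l _ => zero_le_one.trans (hD1 _)
    linarith
  · have h := (h1 F (fun i => x ((Function.update J l 0) i)) (fun i => x (j + i)) hFG htr (fun i => hB _)
      (fun i => hB _) (hseg j m)).2 l
    simp only [keyu] at h
    exact h
  · have h := (h2 F (fun i => x (J i)) (x j) (x (j + 1)) hFG htr (fun i => hB _) (hB _) (hB _) (hmem j)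
      (hx.2 j)).1
    simp only [keyE, key0, keyl] at h
    refine h.trans ?_
    have e1 := hD1 J
    have e2 : 0 ≤ ∑ l : Fin k, DD F x (fun s => (Fin.cons j J : Fin (k + 1) → ℕ) (l.succ.succAbove s)) :=
      Finset.sum_nonneg fun l _ => zero_le_one.trans (hD1 _)
    have e3 : 0 ≤ ∑ l : Fin k, DD F x (fun s => (Fin.cons (j + 1) J : Fin (k + 1) → ℕ) (l.succ.succAbove s)) :=
      Finset.sum_nonneg fun l _ => zero_le_one.trans (hD1 _)
    have e4 := mul_le_mul_of_nonneg_right (le_max_right C₁ C₂) (by linarith :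
      0 ≤ DD F x J + ∑ l : Fin k, DD F x (fun s => (Fin.cons j J : Fin (k + 1) → ℕ) (l.succ.succAbove s)) +
        ∑ l : Fin k, DD F x (fun s => (Fin.cons (j + 1) J : Fin (k + 1) → ℕ) (l.succ.succAbove s)))
    linarith
  · have h := (h2 F (fun i => x ((Function.update J l 0) i)) (x (J l)) (x (J l + 1)) hFG htr (fun i => hB _)
      (hB _) (hB _) (hmem _) (hx.2 _)).2 l
    rw [keyu, keyu, Function.update_eq_self] at h
    exact h

/-- comparison of `arithDeg` with `E + D` -/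
theorem arithDeg_cmp (hSYM : S_SYM) (hDEP : S_DEP) (hRES : S_RES) (hHOM : S_HOM) (hTDG : S_TDG) (hCMP : S_CMP)
    (hLHD : S_LHD) (hFx : F = ratioField K (x 0)) (hFG : F.FG) (htr : Algebra.trdeg K F = k)
    (hB : ∀ n, Big K F (x n)) :
    ∃ C₁ : ℝ, 1 ≤ C₁ ∧ ∀ n, EE F x k (fun _ => n) + DD F x (fun _ : Fin k => n) ≤ C₁ * arithDeg K k x n ∧
      arithDeg K k x n ≤ C₁ * (EE F x k (fun _ => n) + DD F x (fun _ : Fin k => n)) := by
  obtain ⟨c, hc, hcmp⟩ := hCMP K (Fin (k + 1) × Fin (N + 1))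
  refine ⟨1 + c * (k + 2), by nlinarith [(Nat.cast_nonneg k : (0 : ℝ) ≤ k)], fun n => ?_⟩
  obtain ⟨hres, hirr, -⟩ := hRES K F k N (fun _ => x n) hFG htr (fun _ => hB n)
  set P := resForm K (fun _ : Fin (k + 1) => x n) with hP
  have hP0 : P ≠ 0 := hirr.ne_zero
  have hhom := hHOM K (k + 1) N (fun _ => x n) P hP0 hres
  obtain ⟨ht1, -, ht3, -⟩ := hTDG K (k + 1) N P P hP0 hP0
  have htot := ht1 hhom
  set e := (ratioField K (x n)).relfinrank F with he
  have hcyc : cyc K F (fun _ : Fin (k + 1) => x n) = P ^ e := by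
    unfold cyc ratioFields
    rw [iSup_const]
  have hbd : ∀ i : Fin (k + 1), (e : ℝ) * (bdeg i P : ℝ) = DD F x (fun _ : Fin k => n) := by
    intro i
    have h := bdeg_eq hSYM hDEP hFG htr hB (fun _ : Fin (k + 1) => n) i
    simp only [hcyc, ht3] at h
    exact_mod_cast h
  have hsum : (e : ℝ) * (P.totalDegree : ℝ) = (k + 1) * DD F x (fun _ : Fin k => n) := by
    rw [htot]
    push_cast
    rw [Finset.mul_sum, Finset.sum_congr rfl fun i _ => hbd i]
    simp
  have hk1 : (0 : ℝ) < (k : ℝ) + 1 := by positivity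
  have harith : arithDeg K k x n = e * lh P + DD F x (fun _ : Fin k => n) := by
    unfold arithDeg chowForm
    rw [← hFx, ← hP, ← he]
    have : (e : ℝ) * ((P.totalDegree : ℝ) / (k + 1)) = DD F x (fun _ : Fin k => n) := by
      rw [← mul_div_assoc, hsum]
      field_simp
    rw [mul_add, this]
    rfl
  have hEE : EE F x k (fun _ => n) = lh (P ^ e) := by
    unfold EE
    rw [hcyc]
  have h1 := abs_le.1 (hcmp P e hP0)
  rw [hsum] at h1
  have hD1 : 1 ≤ DD F x (fun _ : Fin k => n) := by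
    have h := (hDEP K F k N (fun i => x ((Fin.cons 0 (fun _ : Fin k => n) : Fin (k + 1) → ℕ) i))
      (fun i => x ((Fin.cons 0 (fun _ : Fin k => n) : Fin (k + 1) → ℕ) i)) 0 hFG htr (fun l => hB _)
      (fun l => hB _) (fun l _ => rfl)).2
    unfold DD
    exact_mod_cast h
  have hlh := lh_nonneg hLHD P
  have hlh2 := lh_nonneg hLHD (P ^ e)
  rw [harith, hEE]
  set D := DD F x (fun _ : Fin k => n)
  have he0 : 0 ≤ (e : ℝ) * lh P := by positivity
  have hcD : c * (1 + (k + 1) * D) ≤ c * (k + 2) * D := by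
    have : 1 + ((k : ℝ) + 1) * D ≤ (k + 2) * D := by linarith
    have := mul_le_mul_of_nonneg_left this hc
    linarith
  have hc2 : 0 ≤ c * (k + 2) := by positivity
  constructor
  · nlinarith [h1.1, h1.2]
  · nlinarith [h1.1, h1.2]

end nondeg

/-- the final assembly -/
theorem final_of (hRES : S_RES) (hHOM : S_HOM) (hTDG : S_TDG) (hSYM : S_SYM) (hDEP : S_DEP) (hKP : S_KP)
    (hKQ : S_KQ) (hLHD : S_LHD) (hCMP : S_CMP) (hORB : S_ORB) (hLAF : S_LAF) : S_FINAL := by
  intro K _ _ _ N f hPic k x hx htr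
  obtain ⟨m, a, ham, ⟨T⟩⟩ := hPic
  obtain ⟨hmem, hanti, -⟩ := (hORB K N f).2.2 x hx
  have hne : ∀ n, x n ≠ 0 := fun n => (hmem n).1
  by_cases hdeg : ∃ n₀, (ratioField K (x n₀)).relfinrank (ratioField K (x 0)) = 0
  · obtain ⟨n₀, hn₀⟩ := hdeg
    refine ⟨0, isAlgebraic_zero, fun D hD => ?_⟩
    obtain ⟨c₁, c₂, hc₁, hc₂, hcD⟩ := hD
    have hz : ∀ n, n₀ ≤ n → D n = 0 := by
      intro n hn
      have h1 : (ratioField K (x n)).relfinrank (ratioField K (x 0)) = 0 := by
        rw [← IntermediateField.relfinrank_mul_relfinrank (hanti n₀ n hn) (hanti 0 n₀ (Nat.zero_le _)), hn₀,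
          mul_zero]
      have h2 : arithDeg K k x n = 0 := by
        unfold arithDeg
        rw [h1]
        simp
      have h3 := hcD n
      rw [h2, mul_zero, mul_zero] at h3
      exact le_antisymm h3.2 h3.1
    refine tendsto_const_nhds.congr' ?_
    filter_upwards [eventually_ge_atTop (max n₀ 1)] with n hn
    rw [hz n (le_of_max_le_left hn), Real.zero_rpow]
    have : (1 : ℝ) ≤ n := by exact_mod_cast le_of_max_le_right hn
    positivity
  · push Not at hdeg
    set F := ratioField K (x 0) with hF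
    have hFG : F.FG := ratioField_fg K (x 0)
    have hB : ∀ n, Big K F (x n) := fun n => big_of (hne n) (hanti 0 n (Nat.zero_le _)) (hdeg n)
    obtain ⟨B, C₀, hrec⟩ := recData hSYM hDEP hKP hKQ hLHD hORB ham T hx hFG htr hB
    obtain ⟨α, hα, hlim⟩ := hLAF k m a _ _ B C₀ hrec
    obtain ⟨C₁, hC₁, hcmp⟩ := arithDeg_cmp hSYM hDEP hRES hHOM hTDG hCMP hLHD hF hFG htr hB
    refine ⟨α, hα, fun D hD => hlim D ?_⟩
    obtain ⟨c₁, c₂, hc₁, hc₂, hcD⟩ := hD
    refine ⟨c₁ / C₁, c₂ * C₁, by positivity, by positivity, fun n => ⟨?_, ?_⟩⟩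
    · refine le_trans ?_ (hcD n).1
      have h := (hcmp n).1
      rw [div_mul_eq_mul_div, div_le_iff₀ (by positivity)]
      have := mul_le_mul_of_nonneg_left h hc₁.le
      linarith
    · refine (hcD n).2.trans ?_
      have h := (hcmp n).2
      have := mul_le_mul_of_nonneg_left h hc₂.le
      linarith

end Pool.Agent.Helper80.HD
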