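import Pool.Agent.Helper80.HD.Defs

/-!
# Project HD (MP_6af536_nt), modules N (norm forms), C (absolute values of `L = K(u)`), D (local estimates),
T (torus, Gelfond inequality), H (heights).

Every `def S_XXX : Prop` is a packet; a packet may use the other ones named in its docstring as hypotheses.
-/

set_option autoImplicit false

open MvPolynomial Filter Topology

noncomputable section

namespace Pool.Agent.Helper80.HD

/-! ## Module N -/

/-- PACKET NF (1.5 h): the norm form.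

PROOF.  (1) `eval t` commutes with `det` (`RingHom.map_det`): the matrix becomes `leftMulMatrix (∑ t_j x_j)`, and `Algebra.norm_eq_matrix_det`.
(2) Both sides are polynomials over the infinite field `C'`; for `t ∈ L^{N+1}` the left side at `t` is `algebraMap (norm (∑ t_j x_j))`, the right side is
`∏_τ τ(∑ t_j x_j)`: equal (`Algebra.norm_eq_prod_embeddings`).  A polynomial over `C'` that vanishes on `L^{N+1}` (`L` infinite) is zero
(`MvPolynomial.funext`-type argument: `MvPolynomial.funext_set` or induction on the number of variables).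
(3) from the definition (determinant of a matrix of linear forms) or from (2).  (4) from (1) or (2).  (5) from (2) with `C' = AlgebraicClosure L`: every factor is `≠ 0`. -/
def S_NF : Prop := ∀ (L F' : Type) [Field L] [CharZero L] [Field F'] [Algebra L F'] [FiniteDimensional L F']
  (N : ℕ) (x : Fin (N + 1) → F'),
  (∀ t : Fin (N + 1) → L, eval t (normForm L F' x) = Algebra.norm L (∑ j, algebraMap L F' (t j) * x j)) ∧
  (∀ (C' : Type) [Field C'] [IsAlgClosed C'] [Algebra L C'],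
    map (algebraMap L C') (normForm L F' x) = ∏ τ : F' →ₐ[L] C', ∑ j, C (τ (x j)) * X j) ∧
  (normForm L F' x).IsHomogeneous (Module.finrank L F') ∧
  (∀ c : F', normForm L F' (fun j => c * x j) = C (Algebra.norm L c) * normForm L F' x) ∧
  (x ≠ 0 → normForm L F' x ≠ 0)

/-- PACKET NFT (1 h; uses NF): norm form in a tower.

PROOF.  For `t ∈ L^{N+1}` (NF (1)): `N_{F'/L}(∑ t_j v_j) = N_{E/L}(N_{F'/E}(∑ t_j v_j)) = N_{E/L}(∑ t_j v_j)^{[F':E]}` (`Algebra.norm_norm`, `Algebra.norm_algebraMap`); polynomials over the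
infinite field `L` with equal values are equal. -/
def S_NFT : Prop := ∀ (L : Type) [Field L] [CharZero L] [Algebra L ℂ] (E F' : IntermediateField L ℂ)
  [FiniteDimensional L E] [FiniteDimensional L F'] (N : ℕ) (v : Fin (N + 1) → ℂ), E ≤ F' → (∀ j, v j ∈ E) →
    normForm L F' (toE F' v) = normForm L E (toE E v) ^ (E.relfinrank F')

/-! ## Module C -/

/-- PACKET EXT (1.5 h): extension of a nonarchimedean absolute value to an algebraically closed field.

PROOF.  If `ω` is trivial take the trivial absolute value of `AlgebraicClosure L`.  Otherwise let `L̂` be the completion (`AbsoluteValue.Completion`, a complete nontrivially normed field,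
ultrametric because `ω` is nonarchimedean) and `Ω = AlgebraicClosure L̂` with the spectral norm (`spectralNorm.normedField`, multiplicative and nonarchimedean, extends the norm of `L̂`). -/
def S_EXT : Prop := ∀ (L : Type) [Field L] (ω : AbsoluteValue L ℝ), IsNonarchimedean ω →
  ∃ (Ω : Type) (_ : Field Ω) (_ : IsAlgClosed Ω) (w : AbsoluteValue Ω ℝ) (ι : L →+* Ω),
    IsNonarchimedean w ∧ ∀ x, w (ι x) = ω x

/-- PACKET GNM (1 h): Gauss's lemma and simple facts on `gn`.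

PROOF.  (1) `MvPowerSeries.gaussNorm_mul_eq_mul` (with `c = 1`) applied to the polynomials, or directly: choose in both supports the largest monomial (in a
monomial order) with maximal absolute value.  (2)-(5) direct (`gn` is a maximum over a finite set, `0` for `Q = 0`). -/
def S_GNM : Prop :=
  (∀ (R : Type) [Field R] (σ : Type) [Finite σ] (w : AbsoluteValue R ℝ), IsNonarchimedean w →
    (∀ P Q : MvPolynomial σ R, gn w (P * Q) = gn w P * gn w Q) ∧
    (∀ (P : MvPolynomial σ R) (e : ℕ), gn w (P ^ e) = gn w P ^ e) ∧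
    ∀ (ι : Type) (s : Finset ι) (P : ι → MvPolynomial σ R), gn w (∏ i ∈ s, P i) = ∏ i ∈ s, gn w (P i)) ∧
  (∀ (R : Type) [Field R] (σ : Type) (w : AbsoluteValue R ℝ),
    (∀ P : MvPolynomial σ R, P ≠ 0 → 0 < gn w P) ∧ (∀ c : R, gn w (C c : MvPolynomial σ R) = w c) ∧
    (∀ (c : R) (P : MvPolynomial σ R), gn w (C c * P) = w c * gn w P) ∧
    (∀ (P : MvPolynomial σ R) (s : σ →₀ ℕ), w (P.coeff s) ≤ gn w P) ∧
    (∀ (P : MvPolynomial σ R), P ≠ 0 → ∃ s ∈ P.support, gn w P = w (P.coeff s)) ∧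
    ∀ (R' : Type) [Field R'] (ι : R →+* R') (w' : AbsoluteValue R' ℝ), (∀ x, w' (ι x) = w x) →
      ∀ P : MvPolynomial σ R, gn w' (map ι P) = gn w P) ∧
  (∀ (R : Type) [Field R] (N : ℕ) (w : AbsoluteValue R ℝ) (x : Fin (N + 1) → R),
    (∀ j, w (x j) ≤ vn w x) ∧ (∃ j, vn w x = w (x j)) ∧ (x ≠ 0 → 0 < vn w x) ∧ gn w (∑ j, C (x j) * X j) = vn w x)

/-- PACKET CGA (1.5 h; uses GNM): the Gauss extension of `v` to `L = K(u)`.

PROOF.  `L ≅ Frac K[U]` (`AlgebraicIndependent.aevalEquivField`); by GNM `gn v` is multiplicative on `K[U]`, so `gn v P / gn v Q` is a well defined absolute value `ω` of the fraction field,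
nonarchimedean, extending `v`.  The coefficient of the monomial `t^α` in `sub u P` is the value at `u` of a polynomial `P_α ∈ K[U]`, and `gn v P = max_α gn v P_α`. -/
def S_CGA : Prop := ∀ (K : Type) [Field K] [Algebra K ℂ] (v : AbsoluteValue K ℝ) (k N : ℕ)
  (u : Fin k × Fin (N + 1) → ℂ), IsNonarchimedean v → AlgebraicIndependent K u →
    ∃ ω : AbsoluteValue (LK K u) ℝ, IsNonarchimedean ω ∧ (∀ c : K, ω (algebraMap K (LK K u) c) = v c) ∧
      ∀ P : MvPolynomial (Fin (k + 1) × Fin (N + 1)) K, gn ω (sub K (uL K u) P) = gn v P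

/-- the nonarchimedean absolute values of `L = K(u)`, trivial on `K`, for which the powers of all irreducible
polynomials in `(t, u)` that involve `t` have norm `1` -/
def PiAbs (K : Type) [Field K] [Algebra K ℂ] {k N : ℕ} (u : Fin k × Fin (N + 1) → ℂ) :
    Set (AbsoluteValue (LK K u) ℝ) :=
  {ω | IsNonarchimedean ω ∧ (∀ c : K, c ≠ 0 → ω (algebraMap K (LK K u) c) = 1) ∧
    ∀ (P : MvPolynomial (Fin (k + 1) × Fin (N + 1)) K) (e : ℕ), Irreducible P → (∃ j, 0 < P.degreeOf (0, j)) →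
      gn ω (sub K (uL K u) (P ^ e)) = 1}

/-- PACKET CPI (2 h; uses GNM): the `π`-adic absolute values.

PROOF.  For an irreducible `π ∈ K[U]` let `|R|_π = exp(-mult_π R)` (UFD), extended to `L ≅ Frac K[U]`: nonarchimedean, trivial on `K`.  If `P ∈ K[t, U]` is irreducible and involves `t`
then `π ∤ P` (otherwise `P ~ π`), so some coefficient polynomial `P_α ∈ K[U]` (of `t^α`) is not divisible by `π`: `gn |·|_π (sub u P) = 1`, and `1` for the powers (GNM).  So `|·|_π ∈ PiAbs K u`.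
Let `κ ≠ 0` in `L`, `κ = R(u)/S(u)` with `R, S ∈ K[U]` coprime.  If `|κ|_π ≤ 1` for all `π`, `S` has no irreducible factor, so it is a constant.  If `= 1` for all `π`, `R` too. -/
def S_CPI : Prop := ∀ (K : Type) [Field K] [Algebra K ℂ] (k N : ℕ) (u : Fin k × Fin (N + 1) → ℂ),
  AlgebraicIndependent K u → ∀ κ : LK K u, κ ≠ 0 →
    ((∀ ω ∈ PiAbs K u, ω κ = 1) → ∃ c : K, κ = algebraMap K (LK K u) c) ∧
    ((∀ ω ∈ PiAbs K u, ω κ ≤ 1) → ∃ R : MvPolynomial (Fin k × Fin (N + 1)) K, κ = aeval (uL K u) R)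

/-- PACKET CDE (1.2 h): the degree valuations.

PROOF.  `|R| = exp(bdeg l R)` on `K[U]` (multiplicative: `bdeg` is additive on products; nonarchimedean: `bdeg (R + S) ≤ max`), extended to `L ≅ Frac K[U]`; the coefficient `P_α(u)` of `t^α` in `sub u P`
has `|P_α| = exp(bdeg l P_α)`, and `max_α bdeg l P_α = bdeg l.succ P`. -/
def S_CDE : Prop := ∀ (K : Type) [Field K] [Algebra K ℂ] (k N : ℕ) (u : Fin k × Fin (N + 1) → ℂ),
  AlgebraicIndependent K u → ∀ l : Fin k, ∃ ω : AbsoluteValue (LK K u) ℝ, IsNonarchimedean ω ∧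
    (∀ c : K, c ≠ 0 → ω (algebraMap K (LK K u) c) = 1) ∧
    ∀ P : MvPolynomial (Fin (k + 1) × Fin (N + 1)) K, P ≠ 0 →
      gn ω (sub K (uL K u) P) = Real.exp (bdeg l.succ P)

/-- PACKET SUP (0.6 h): small facts on `sub`, `up`.

PROOF.  Direct; (4): `P ≠ 0` has a nonzero coefficient polynomial in `K[U]`, and `u` is algebraically independent. (5): multiplicativity.  (6) rename by an injection. -/
def S_SUP : Prop := ∀ (K : Type) [Field K] [Algebra K ℂ] (k N : ℕ) (u : Fin k × Fin (N + 1) → ℂ),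
  (∀ R : MvPolynomial (Fin k × Fin (N + 1)) K, sub K (uL K u) (up K R) = C (aeval (uL K u) R)) ∧
  (∀ (R : MvPolynomial (Fin k × Fin (N + 1)) K) (l : Fin k), bdeg l.succ (up K R) = bdeg l R) ∧
  (∀ (R : MvPolynomial (Fin k × Fin (N + 1)) K), bdeg 0 (up K R) = 0) ∧
  (AlgebraicIndependent K u → ∀ P : MvPolynomial (Fin (k + 1) × Fin (N + 1)) K, P ≠ 0 →
    sub K (uL K u) P ≠ 0) ∧
  ∀ R : MvPolynomial (Fin k × Fin (N + 1)) K, R ≠ 0 → up K R ≠ 0

/-! ## Module T: the torus -/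

/-- PACKET TOR1 (1.5 h): one variable.

PROOF.  For `f = ∏ R_i` the Mahler measure satisfies `M(f) = ∏ M(R_i)` and `‖R_i‖_∞ ≤ 2^{deg R_i} M(R_i)` (`Polynomial.norm_coeff_le_choose_mul_mahlerMeasure`), `M(f) ≤ max_{|z|=1} |f(z)|`.  So at a
point `z₀` of the unit circle where `|f|` is maximal `∏ ‖R_i‖_∞ ≤ 2^{∑ deg R_i} |f(z₀)|`.  By continuity `|f(z)| > |f(z₀)|/2` on an arc around `z₀`, which is uncountable. -/
def S_TOR1 : Prop := ∀ (ι : Type) [Fintype ι] (R : ι → Polynomial ℂ), (∀ i, R i ≠ 0) →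
  ∀ Z : Set ℂ, Z.Countable → ∃ z : ℂ, ‖z‖ = 1 ∧ z ∉ Z ∧
    ∏ i, (R i).supNorm ≤ 2 ^ (1 + ∑ i, (R i).natDegree) * ∏ i, ‖(R i).eval z‖

/-- PACKET TOR (2 h; uses TOR1): several variables.

PROOF.  Induction on `n` (`MvPolynomial.finSuccEquiv`).  `n = 0`: constants.  Step: let `α_i` be the exponent of `(X_1, …, X_n)` of a coefficient of `R_i` of maximal absolute value, `r_i ∈ ℂ[X_0]` the coefficient
polynomial of this exponent: `‖r_i‖_∞ = gn R_i`, `deg r_i ≤ degreeOf 0 R_i`.  For each `Z ∈ 𝒵` choose an exponent with nonzero coefficient polynomial `z_Z ∈ ℂ[X_0]`; the roots of all the `z_Z` form a countable set.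
TOR1 gives `w_0`.  Put `R_i' = R_i(w_0, ·)`, `Z' = Z(w_0, ·) ≠ 0`: `gn R_i' ≥ |r_i(w_0)| > 0` (the product is positive), `degreeOf j R_i' ≤ degreeOf (j+1) R_i`.  Apply the induction hypothesis. -/
def S_TOR : Prop := ∀ (n : ℕ) (ι : Type) [Fintype ι] (R : ι → MvPolynomial (Fin n) ℂ), (∀ i, R i ≠ 0) →
  ∀ 𝒵 : Set (MvPolynomial (Fin n) ℂ), 𝒵.Countable → (∀ Z ∈ 𝒵, Z ≠ 0) →
    ∃ w : Fin n → ℂ, (∀ j, ‖w j‖ = 1) ∧ (∀ Z ∈ 𝒵, eval w Z ≠ 0) ∧
      ∏ i, gn absC (R i) ≤ 2 ^ (n + ∑ i, ∑ j, (R i).degreeOf j) * ∏ i, ‖eval w (R i)‖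

/-- PACKET EVB (0.6 h): upper bounds.

PROOF.  A polynomial of total degree `d` in `n` variables has at most `binom(d+n, n) ≤ (n+1)^d` monomials.  (1) triangle inequality.  (2) `‖·‖_1` is submultiplicative: `gn (∏ R_i) ≤ ‖∏ R_i‖_1 ≤ ∏ ‖R_i‖_1 ≤ ∏ (n+1)^{d_i} gn R_i`. -/
def S_EVB : Prop := ∀ (σ : Type) [Fintype σ],
  (∀ (R : MvPolynomial σ ℂ) (w : σ → ℂ), (∀ j, ‖w j‖ ≤ 1) →
    ‖eval w R‖ ≤ ((Fintype.card σ : ℝ) + 1) ^ R.totalDegree * gn absC R) ∧
  ∀ (ι : Type) (s : Finset ι) (R : ι → MvPolynomial σ ℂ),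
    gn absC (∏ i ∈ s, R i) ≤ ((Fintype.card σ : ℝ) + 1) ^ (∑ i ∈ s, (R i).totalDegree) * ∏ i ∈ s, gn absC (R i)

/-- PACKET GEL (0.8 h; uses TOR, EVB, GNM): Gelfond's inequality.

PROOF.  Rename the variables to `Fin n`, `n = card σ`.  TOR (with `𝒵 = ∅`): `∏ gn R_i ≤ 2^{n + n ∑ d_i} |(∏ R_i)(w)| ≤ 2^{n + n ∑ d_i} (n+1)^{∑ d_i} gn (∏ R_i)` (EVB, `degreeOf ≤ totalDegree`); the other direction is EVB (2). -/
def S_GEL : Prop := ∀ (σ : Type) [Fintype σ], ∃ c : ℝ, 0 ≤ c ∧ ∀ (ι : Type) [Fintype ι] (R : ι → MvPolynomial σ ℂ),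
  (∀ i, R i ≠ 0) → |Real.log (gn absC (∏ i, R i)) - ∑ i, Real.log (gn absC (R i))| ≤
    c * (1 + ∑ i, ((R i).totalDegree : ℝ))

/-- PACKET ARC (2 h; uses TOR, EVB, GNM): a good archimedean absolute value of `L = K(u)`.

PROOF.  Let `𝒵 = {σ(Z) : 0 ≠ Z ∈ K[U]}` (countable; variables renamed to `Fin n`, `n = k(N+1)`).  For each `s` let `R_s ∈ ℂ[U]` be the coefficient polynomial in `U` (of a monomial in `t`) of `σ(P_s)` that contains a coefficient of maximal absolute value: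
`gn R_s = gn (σ P_s)`.  TOR gives `w` in the torus with `Z(w) ≠ 0` for `Z ∈ 𝒵`, so `u ↦ w` extends `σ` to `ι : L = Frac K[U] → ℂ`.  The coefficients of `map ι (sub u P_s)` are the values at `w` of the coefficient polynomials of `σ P_s`:
upper bound by EVB (1).  Lower bound: `gn (map ι (sub u P_s)) ≥ |R_s(w)|`, and TOR with EVB (1) for the other `s'`: `gn R_s ≤ 2^{n + n ∑ D} (n+1)^{qD} |R_s(w)|`. -/
def S_ARC : Prop := ∀ (k N q : ℕ), ∃ c : ℝ, 0 ≤ c ∧ ∀ (K : Type) [Field K] [NumberField K] [Algebra K ℂ]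
  (u : Fin k × Fin (N + 1) → ℂ), AlgebraicIndependent K u → ∀ (σ : K →+* ℂ)
  (P : Fin q → MvPolynomial (Fin (k + 1) × Fin (N + 1)) K) (D : ℕ), (∀ s, P s ≠ 0) →
  (∀ s, (P s).totalDegree ≤ D) → ∃ ι : LK K u →+* ℂ, (∀ x : K, ι (algebraMap K (LK K u) x) = σ x) ∧
    ∀ s, |Real.log (gn absC (map ι (sub K (uL K u) (P s)))) - Real.log (gn absC (map σ (P s)))| ≤
      c * (1 + (D : ℝ))

/-! ## Module D: local estimates -/

/-- PACKET NAH (0.8 h; uses NF, GNM): nonarchimedean local height of the norm form.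

PROOF.  NF (2): `map (normForm) = ∏_τ ∑_j C(τ x_j) X_j`; GNM: `gn` is multiplicative and `gn` of a linear form is `vn`; logarithm of a product of positive numbers (`τ x ≠ 0`). -/
def S_NAH : Prop := ∀ (L F' Ω : Type) [Field L] [CharZero L] [Field F'] [Algebra L F'] [FiniteDimensional L F']
  [Field Ω] [IsAlgClosed Ω] [Algebra L Ω] (w : AbsoluteValue Ω ℝ), IsNonarchimedean w →
    ∀ (N : ℕ) (x : Fin (N + 1) → F'), x ≠ 0 →
      Real.log (gn w (map (algebraMap L Ω) (normForm L F' x))) =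
        ∑ τ : F' →ₐ[L] Ω, Real.log (vn w (fun j => τ (x j)))

/-- PACKET ARH (0.6 h; uses NF, GNM, GEL): archimedean local height of the norm form.

PROOF.  As NAH, with GEL for the linear forms (total degree `≤ 1`, number of factors `[F' : L] ≥ 1`). -/
def S_ARH : Prop := ∀ (N : ℕ), ∃ c : ℝ, 0 ≤ c ∧ ∀ (L F' : Type) [Field L] [CharZero L] [Field F'] [Algebra L F']
  [FiniteDimensional L F'] [Algebra L ℂ] (x : Fin (N + 1) → F'), x ≠ 0 →
    |Real.log (gn absC (map (algebraMap L ℂ) (normForm L F' x))) -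
      ∑ τ : F' →ₐ[L] ℂ, Real.log (vn absC (fun j => τ (x j)))| ≤ c * (Module.finrank L F' : ℝ)

/-- PACKET NUL (0.6 h): Nullstellensatz.

PROOF.  Otherwise the ideal is contained in a maximal ideal `𝔪`; `K[X]/𝔪` is a finite extension of `K` (Zariski's lemma, e.g. `finite_of_finite_type_of_isJacobsonRing`), so it embeds in `ℂ` over `K`; the images of the variables are a common zero. -/
def S_NUL : Prop := ∀ (K : Type) [Field K] [Algebra K ℂ] (σ : Type) [Finite σ] (S : Set (MvPolynomial σ K)),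
  (∀ y : σ → ℂ, ∃ Q ∈ S, aeval y Q ≠ 0) → Ideal.span S = ⊤

/-- a family of constants `Γ v ≥ 1`, equal to `1` if `v` is trivial and for almost all finite places -/
def GoodGam (K : Type) [Field K] [NumberField K] (Γ : AbsoluteValue K ℝ → ℝ) : Prop :=
  (∀ v, 1 ≤ Γ v) ∧ (∀ v : AbsoluteValue K ℝ, (∀ c, c ≠ 0 → v c = 1) → Γ v = 1) ∧
    {v : AbsoluteValue K ℝ | v ∈ Height.AdmissibleAbsValues.nonarchAbsVal (K := K) ∧ Γ v ≠ 1}.Finite

/-- PACKET GAM (1 h): bounds for values of finitely many polynomials.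

PROOF.  For a finite set of polynomials over `K` let `Γ v` be the maximum of `1` and of all `v(coefficient)`; `Γ v = 1` for almost all finite places (`hasFiniteMulSupport` for the finitely many nonzero coefficients) and for trivial `v`.
Nonarchimedean: `w(Q(y)) ≤ max w(coeff) ∏ w(y_i)^{s_i} ≤ Γ`.  Archimedean: `Γ'` = maximum over the finitely many embeddings `K → ℂ` of `1 + ∑ |σ(coeff)|`. -/
def S_GAM : Prop := ∀ (K : Type) [Field K] [NumberField K] (σ : Type) (S : Set (MvPolynomial σ K)), S.Finite →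
  ∃ (Γ : AbsoluteValue K ℝ → ℝ) (Γ' : ℝ), GoodGam K Γ ∧ 1 ≤ Γ' ∧ ∀ Q ∈ S,
    (∀ (Ω : Type) [Field Ω] (w : AbsoluteValue Ω ℝ) (ι : K →+* Ω) (y : σ → Ω), IsNonarchimedean w →
      (∀ i, w (y i) ≤ 1) → w (eval₂ ι y Q) ≤ Γ (w.comp ι.injective)) ∧
    ∀ (ι : K →+* ℂ) (y : σ → ℂ), (∀ i, ‖y i‖ ≤ 1) → ‖eval₂ ι y Q‖ ≤ Γ'

/-- PACKET TRV (2 h; uses NUL, GAM): the trivialization is bounded.

PROOF.  Nullstellensatz: for a choice of pivots `q : Fin (m+1) → Fin (N+1)` the polynomials `A_l B_l` (all `l`), all `Q ∈ segIdeal`, and `X_(i, q i) - 1` have no common zero in `ℂ`: at a common zero `y` all `y_i ≠ 0`, and `y` is a segment, because the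
equations `E(y_0)` (`E ∈ eqs`) and `G_(l,i)(y_s) y_(s+1)_j - G_(l,j)(y_s) y_(s+1)_i` belong to `segIdeal`; so some `A_l(y) B_l(y) ≠ 0`.  So `1 = ∑_l R_l A_l B_l + (element of the ideal of the others)` over `K`.
Let `Γ₀, Γ₀'` be the constants of GAM for the finitely many `R_l` (all `q`), `A_l`, `B_l`, and `1`.
Local: let `w, j, y` be given.  Everything is multihomogeneous: replace `y_i` by `y_i / y_i(q i)`, `w(y_i(q i)) = vn w y_i` maximal (`A_l(y)/B_l(y)` is multiplied by `∏ (y_i (q i))^{a_i}`, elements of `segIdeal` still vanish: apply the vanishing to the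
multihomogeneous components; or: `segIdeal` is stable under scaling one block by `λ ∈ K^*`, hence generated by multihomogeneous polynomials).  So `w(y_i j) ≤ 1`, `vn w y_i = 1`, and `1 = ∑ R_l(y) A_l(y) B_l(y)`.  Nonarchimedean: some `l` has
`w(R_l A_l B_l) ≥ 1`, so `w(A_l(y)) ≥ Γ₀^{-2}`, `w(B_l(y)) ≥ Γ₀^{-2}`, both `≤ Γ₀`: `|log w(A_l/B_l)| ≤ 3 log Γ₀`; `Γ = Γ₀^3`.  Archimedean: some `l` has `|R_l A_l B_l| ≥ 1/s` (`s` = number of `l`), `Γ' = s Γ₀'^3`. -/
def S_TRV : Prop := ∀ (K : Type) [Field K] [NumberField K] [Algebra K ℂ] (N : ℕ) (f : RMap K N) (m : ℕ)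
  (a : Fin (m + 1) → ℤ) (T : Triv f m a), ∃ (Γ : AbsoluteValue K ℝ → ℝ) (Γ' : ℝ), GoodGam K Γ ∧ 1 ≤ Γ' ∧
    (∀ (Ω : Type) [Field Ω] (w : AbsoluteValue Ω ℝ) (ι : K →+* Ω) (y : Fin (m + 1) → Fin (N + 1) → Ω),
      IsNonarchimedean w → (∀ i, y i ≠ 0) → (∀ Q ∈ f.segIdeal m, eval₂ ι (fun p => y p.1 p.2) Q = 0) →
        ∃ l, eval₂ ι (fun p => y p.1 p.2) (T.A l) ≠ 0 ∧ eval₂ ι (fun p => y p.1 p.2) (T.B l) ≠ 0 ∧
          |Real.log (w (eval₂ ι (fun p => y p.1 p.2) (T.A l) / eval₂ ι (fun p => y p.1 p.2) (T.B l))) -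
            ∑ i, (a i : ℝ) * Real.log (vn w (y i))| ≤ Real.log (Γ (w.comp ι.injective))) ∧
    (∀ (ι : K →+* ℂ) (y : Fin (m + 1) → Fin (N + 1) → ℂ),
      (∀ i, y i ≠ 0) → (∀ Q ∈ f.segIdeal m, eval₂ ι (fun p => y p.1 p.2) Q = 0) →
        ∃ l, eval₂ ι (fun p => y p.1 p.2) (T.A l) ≠ 0 ∧ eval₂ ι (fun p => y p.1 p.2) (T.B l) ≠ 0 ∧
          |Real.log (absC (eval₂ ι (fun p => y p.1 p.2) (T.A l) / eval₂ ι (fun p => y p.1 p.2) (T.B l))) -
            ∑ i, (a i : ℝ) * Real.log (vn absC (y i))| ≤ Real.log Γ')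

/-- PACKET LOCA (2 h; uses NAH, ARH, EXT, TRV): the relation for the norm forms, at all absolute values of `L`.

PROOF.  By `T.cover` for the segment `emb ∘ y` there is `l₀` with `A_{l₀}(y) ≠ 0 ≠ B_{l₀}(y)` in `F'`; `g = A_{l₀}(y)/B_{l₀}(y)`.  By `T.agree` (and injectivity of `emb`) `g = A_l(y)/B_l(y)` for all `l` with `A_l(y), B_l(y) ≠ 0`.
Let `ω` be nonarchimedean, `(Ω, w, ι)` from EXT; `Ω` is an `L`-algebra via `ι`.  For `τ : F' →ₐ[L] Ω` the family `τ ∘ y` satisfies the equations of `segIdeal` (they hold for `emb ∘ y`, so for `y`, so for `τ ∘ y`), TRV gives `l` with `A_l(τ y) ≠ 0 ≠ B_l(τ y)`, so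
`τ g = A_l(τy)/B_l(τy)` and `|log w(τ g) - ∑ a_i log vn w (τ y_i)| ≤ log Γ(v)`, `v = w ∘ ι ∘ (K → L) = ω|K`.  Sum over the `[F' : L]` embeddings `τ`: `log ω(norm g) = ∑_τ log w(τ g)` (`Algebra.norm_eq_prod_embeddings`) and NAH.  Archimedean: the same with `Ω = ℂ` and ARH. -/
def S_LOCA : Prop := ∀ (K : Type) [Field K] [NumberField K] [Algebra K ℂ] (N : ℕ) (f : RMap K N) (m : ℕ)
  (a : Fin (m + 1) → ℤ) (_T : Triv f m a), ∃ (Γ : AbsoluteValue K ℝ → ℝ) (Γ' : ℝ), GoodGam K Γ ∧ 0 ≤ Γ' ∧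
    ∀ (L F' : Type) [Field L] [Field F'] [Algebra K L] [Algebra L F'] [Algebra K F'] [IsScalarTower K L F']
      [FiniteDimensional L F'] (emb : F' →ₐ[K] ℂ) (y : Fin (m + 1) → Fin (N + 1) → F'),
      f.IsSegment (fun i j => emb (y i j)) → ∃ g : F', g ≠ 0 ∧
        (∀ ω : AbsoluteValue L ℝ, IsNonarchimedean ω →
          |Real.log (ω (Algebra.norm L g)) - ∑ i, (a i : ℝ) * Real.log (gn ω (normForm L F' (y i)))| ≤
            (Module.finrank L F' : ℝ) * Real.log (Γ (ω.comp (algebraMap K L).injective))) ∧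
        (∀ ι : L →+* ℂ,
          |Real.log (absC (ι (Algebra.norm L g))) -
            ∑ i, (a i : ℝ) * Real.log (gn absC (map ι (normForm L F' (y i))))| ≤
            (Module.finrank L F' : ℝ) * Γ')

/-- PACKET LOCB (1.5 h; uses NAH, ARH, EXT, GAM): the inequality for the norm forms of `f(x)`.

PROOF.  For `τ : F' →ₐ[L] Ω`, nonarchimedean `w`: `vn w (G_l(τ x)) ≤ Γ(v) (vn w (τ x))^{deg l}` (homogeneity and GAM), so `log vn w (τ x') ≤ deg l · log vn w (τ x) + log Γ(v)`; sum over `τ` and NAH.  Archimedean: the same with ARH. -/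
def S_LOCB : Prop := ∀ (K : Type) [Field K] [NumberField K] [Algebra K ℂ] (N : ℕ) (f : RMap K N),
  ∃ (Γ : AbsoluteValue K ℝ → ℝ) (Γ' : ℝ), GoodGam K Γ ∧ 0 ≤ Γ' ∧
    ∀ (L F' : Type) [Field L] [Field F'] [Algebra K L] [Algebra L F'] [Algebra K F'] [IsScalarTower K L F']
      [FiniteDimensional L F'] (x x' : Fin (N + 1) → F') (l : Fin f.r),
      (∀ j, x' j = aeval x (f.G l j)) → x' ≠ 0 → x ≠ 0 →
        (∀ ω : AbsoluteValue L ℝ, IsNonarchimedean ω →
          Real.log (gn ω (normForm L F' x')) ≤ f.deg l * Real.log (gn ω (normForm L F' x)) +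
            (Module.finrank L F' : ℝ) * Real.log (Γ (ω.comp (algebraMap K L).injective))) ∧
        (∀ ι : L →+* ℂ,
          Real.log (gn absC (map ι (normForm L F' x'))) ≤
            f.deg l * Real.log (gn absC (map ι (normForm L F' x))) + (Module.finrank L F' : ℝ) * Γ')

/-! ## Module H: heights -/

open Height in
/-- PACKET LHD (1 h; uses GNM): decomposition of the height of a polynomial.

PROOF.  `Finsupp.logHeight`, `Height.mulHeight_eq` for the nonzero tuple of the coefficients indexed by the support, and logarithm of the products (finite multiplicative support). (2) `NumberField.mem_multisetInfinitePlace`, `v c = ‖embedding c‖`.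
(3) product formula.  (4) `1 ≤ mulHeight`. -/
def S_LHD : Prop := ∀ (K : Type) [Field K] [NumberField K],
  (∀ (σ : Type) (P : MvPolynomial σ K), P ≠ 0 →
    lh P = ((AdmissibleAbsValues.archAbsVal (K := K)).map fun v => Real.log (gn v P)).sum +
      ∑ᶠ v : AdmissibleAbsValues.nonarchAbsVal (K := K), Real.log (gn v.1 P) ∧
    {v : AdmissibleAbsValues.nonarchAbsVal (K := K) | gn v.1 P ≠ 1}.Finite) ∧
  (∀ v ∈ AdmissibleAbsValues.archAbsVal (K := K), ∃ σ : K →+* ℂ, ∀ c, v c = ‖σ c‖) ∧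
  (∀ c : K, c ≠ 0 → ((AdmissibleAbsValues.archAbsVal (K := K)).map fun v => Real.log (v c)).sum +
      ∑ᶠ v : AdmissibleAbsValues.nonarchAbsVal (K := K), Real.log (v.1 c) = 0 ∧
      {v : AdmissibleAbsValues.nonarchAbsVal (K := K) | v.1 c ≠ 1}.Finite) ∧
  (∀ v ∈ AdmissibleAbsValues.nonarchAbsVal (K := K), IsNonarchimedean v) ∧
  ∀ (σ : Type) (P : MvPolynomial σ K), 0 ≤ lh P

/-- PACKET CMP (1 h; uses LHD, GNM, GEL): the height of a power.

PROOF.  `gn v (P^e) = (gn v P)^e` for the finite places (GNM); for the infinite places `|log gn (σ P)^e - e log gn (σ P)| ≤ c (1 + e totalDegree P)` (GEL with `e` equal factors); `gn v P = gn absC (map σ P)`. Sum. -/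
def S_CMP : Prop := ∀ (K : Type) [Field K] [NumberField K] (σ : Type) [Fintype σ], ∃ c : ℝ, 0 ≤ c ∧
  ∀ (P : MvPolynomial σ K) (e : ℕ), P ≠ 0 → |lh (P ^ e) - e * lh P| ≤ c * (1 + e * (P.totalDegree : ℝ))

end Pool.Agent.Helper80.HD
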