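import Pool.Agent.Helper80.HD.GoalsA

/-!
# Project HD (MP_6af536_nt), packet DEP
-/

set_option autoImplicit false

open MvPolynomial Filter Topology

noncomputable section

namespace Pool.Agent.Helper80.HD

theorem dep (hTOWER : S_TOWER) (hSYM : S_SYM) : S_DEP := by
  intro K _ _ _ F k N Z Z' i hFG htr hZ hZ' hne
  set σ : Equiv.Perm (Fin (k + 1)) := Equiv.swap 0 i with hσ
  have hσ0 : σ 0 = i := Equiv.swap_apply_left 0 i
  have h1 := (hSYM K F k N Z σ hFG htr hZ).2 0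
  have h2 := (hSYM K F k N Z' σ hFG htr hZ').2 0
  rw [hσ0] at h1 h2
  have hs : ∀ s : Fin k, σ s.succ ≠ i := by
    intro s h
    rw [← hσ0] at h
    exact Fin.succ_ne_zero s (σ.injective h)
  have e1 : Z ∘ σ = (Fin.cons (Z i) (fun s => Z (σ s.succ)) : Fin (k + 1) → Fin (N + 1) → ℂ) := by
    funext s
    refine Fin.cases ?_ (fun s => ?_) s
    · simp [hσ0]
    · simp
  have e2 : Z' ∘ σ = (Fin.cons (Z' i) (fun s => Z (σ s.succ)) : Fin (k + 1) → Fin (N + 1) → ℂ) := by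
    funext s
    refine Fin.cases ?_ (fun s => ?_) s
    · simp [hσ0]
    · simp [hne _ (hs s)]
  obtain ⟨u, -, hfd, hu⟩ := hTOWER K F k N (fun s => Z (σ s.succ)) hFG htr (fun s => hZ _)
  have hx : ∀ x : Fin (N + 1) → ℂ, Big K F x →
      bdeg 0 (cyc K F (Fin.cons x (fun s => Z (σ s.succ)) : Fin (k + 1) → Fin (N + 1) → ℂ)) =
        Module.finrank (LK K u) (FF K (LK K u) F) := by
    intro x hx
    obtain ⟨j0, hj0⟩ : ∃ j, x j ≠ 0 := by
      by_contra hcon
      push Not at hcon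
      exact hx.1 (funext hcon)
    exact (hu x j0 hx hj0).2
  rw [← h1, ← h2, e1, e2, hx _ (hZ i), hx _ (hZ' i)]
  exact ⟨rfl, Nat.one_le_iff_ne_zero.2 Module.finrank_pos.ne'⟩

end Pool.Agent.Helper80.HD
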