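import Pool.Agent.Helper80.HD.Final
import Pool.Agent.Helper80.HD.DEP
import Pool.Agent.Helper19.HD.TRV
import Pool.Agent.Helper26.HD.IND
import Pool.Agent.Helper27.HD.NULS
import Pool.Agent.Helper27.HD.RES
import Pool.Agent.Helper3.HD.ARH
import Pool.Agent.Helper3.HD.HOM
import Pool.Agent.Helper32.HD.GAM
import Pool.Agent.Helper34.HD.GENV
import Pool.Agent.Helper34.HD.LOCB
import Pool.Agent.Helper35.HD.SYM
import Pool.Agent.Helper35.HD.TOWER
import Pool.Agent.Helper39.HD.KP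
import Pool.Agent.Helper5.HD.LIM
import Pool.Agent.Helper51.HD.GEL
import Pool.Agent.Helper51.HD.TDG
import Pool.Agent.Helper55.HD.CMP
import Pool.Agent.Helper55.HD.PTR
import Pool.Agent.Helper56.HD.SHE
import Pool.Agent.Helper6.HD.CPI
import Pool.Agent.Helper60.HD.LAF
import Pool.Agent.Helper60.HD.TRZ
import Pool.Agent.Helper61.HD.GNM
import Pool.Agent.Helper61.HD.NFT
import Pool.Agent.Helper67.HD.KQ
import Pool.Agent.Helper69.HD.GENEX
import Pool.Agent.Helper69.HD.KER
import Pool.Agent.Helper69.HD.SUP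
import Pool.Agent.Helper70.HD.ASS
import Pool.Agent.Helper73.HD.NF
import Pool.Agent.Helper73.HD.ORB
import Pool.Agent.Helper75.HD.ARC
import Pool.Agent.Helper79.HD.EXT
import Pool.Agent.Helper79.HD.LHD
import Pool.Agent.Helper79.HD.TOR
import Pool.Agent.Helper8.HD.CDE
import Pool.Agent.Helper83.HD.EVB
import Pool.Agent.Helper83.HD.FIN
import Pool.Agent.Helper86.HD.DEGX
import Pool.Agent.Helper86.HD.NAH
import Pool.Agent.Helper87.HD.DIC
import Pool.Agent.Helper87.HD.SHD
import Pool.Agent.Helper9.HD.CGA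
import Pool.Agent.Helper93.HD.LOCA
import Pool.Agent.Helper94.HD.TOR1

/-!
# Project HD (MP_6af536_nt): the composition of all packets.
-/

set_option autoImplicit false

namespace Pool.Agent.Helper80.HD

theorem final : S_FINAL := by
  have hGENEX := Pool.Agent.Helper69.HD.genex
  have hGENV := Pool.Agent.Helper34.HD.genv
  have hIND := Pool.Agent.Helper26.HD.ind
  have hKER := Pool.Agent.Helper69.HD.ker
  have hFIN := Pool.Agent.Helper83.HD.fin hIND
  have hRES := Pool.Agent.Helper27.HD.res hGENEX hGENV hIND hKER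
  have hHOM := Pool.Agent.Helper3.HD.hom
  have hNF := Pool.Agent.Helper73.HD.nf
  have hASS := Pool.Agent.Helper70.HD.ass hGENV hFIN hRES hNF
  have hTRZ := Pool.Agent.Helper60.HD.trz hGENV hRES
  have hPTR := Pool.Agent.Helper55.HD.ptr
  have hDEGX := Pool.Agent.Helper86.HD.degx hTRZ hPTR
  have hTDG := Pool.Agent.Helper51.HD.tdg
  have hNFT := Pool.Agent.Helper61.HD.nft hNF
  have hTOWER := Pool.Agent.Helper35.HD.tower hGENEX hIND hFIN hRES hHOM hASS hDEGX hTDG hNF hNFT
  have hSYM := Pool.Agent.Helper35.HD.sym hRES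
  have hDEP := dep hTOWER hSYM
  have hGNM := Pool.Agent.Helper61.HD.gnm
  have hCGA := Pool.Agent.Helper9.HD.cga hGNM
  have hCPI := Pool.Agent.Helper6.HD.cpi hGNM
  have hCDE := Pool.Agent.Helper8.HD.cde
  have hSUP := Pool.Agent.Helper69.HD.sup
  have hTOR := Pool.Agent.Helper79.HD.tor Pool.Agent.Helper94.HD.tor1
  have hEVB := Pool.Agent.Helper83.HD.evb
  have hARC := Pool.Agent.Helper75.HD.arc hTOR hEVB
  have hGEL := Pool.Agent.Helper51.HD.gel hTOR hEVB hGNM
  have hNAH := Pool.Agent.Helper86.HD.nah hNF hGNM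
  have hARH := Pool.Agent.Helper3.HD.arh hNF hGNM hGEL
  have hEXT := Pool.Agent.Helper79.HD.ext
  have hGAM := Pool.Agent.Helper32.HD.gam
  have hTRV := Pool.Agent.Helper19.HD.trv Pool.Agent.Helper27.HD.nul hGAM
  have hLOCA := Pool.Agent.Helper93.HD.loca hNAH hARH hEXT hTRV hGNM
  have hLOCB := Pool.Agent.Helper34.HD.locb hNAH hARH hEXT hGAM hGNM
  have hLHD := Pool.Agent.Helper79.HD.lhd hGNM
  have hCMP := Pool.Agent.Helper55.HD.cmp hLHD hGNM hGEL
  have hORB := Pool.Agent.Helper73.HD.orb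
  have hKP := Pool.Agent.Helper39.HD.kp hTOWER hLOCA hCGA hCPI hCDE hARC hLHD hGNM hTDG hSUP hRES hORB
  have hKQ := Pool.Agent.Helper67.HD.kq hTOWER hLOCB hCGA hCPI hCDE hARC hLHD hGNM hTDG hSUP hRES hORB hNF
  have hLIM := Pool.Agent.Helper5.HD.lim Pool.Agent.Helper87.HD.dic
  have hSHD := Pool.Agent.Helper87.HD.shd
  have hSHE := Pool.Agent.Helper56.HD.she hSHD
  have hLAF := Pool.Agent.Helper60.HD.laf hLIM hSHD hSHE
  exact final_of hRES hHOM hTDG hSYM hDEP hKP hKQ hLHD hCMP hORB hLAF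

end Pool.Agent.Helper80.HD
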