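import Pool.Agent.Helper80.HD.Stmt

/-!
# Project HD (MP_6af536_nt): common definitions of the proof.
-/

set_option autoImplicit false

open MvPolynomial Filter Topology

noncomputable section

namespace Pool.Agent.Helper80.HD

/-! ## Norms of polynomials and vectors -/

/-- the usual absolute value of `ℂ` -/
def absC : AbsoluteValue ℂ ℝ where
  toFun z := ‖z‖
  map_mul' := norm_mul
  nonneg' := norm_nonneg
  eq_zero' _ := norm_eq_zero
  add_le' := norm_add_le

/-- maximum of the absolute values of the coefficients (`0` for the zero polynomial) -/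
def gn {R : Type} [CommRing R] {σ : Type} (w : AbsoluteValue R ℝ) (Q : MvPolynomial σ R) : ℝ :=
  ⨆ s : Q.support, w (Q.coeff s)

/-- maximum of the absolute values of the coordinates -/
def vn {R : Type} [CommRing R] {N : ℕ} (w : AbsoluteValue R ℝ) (x : Fin (N + 1) → R) : ℝ :=
  ⨆ j, w (x j)

/-- degree in the block number `i` of variables -/
def bdeg {R : Type} [CommSemiring R] {m N : ℕ} (i : Fin m) (Q : MvPolynomial (Fin m × Fin (N + 1)) R) : ℕ :=
  Q.support.sup fun s => ∑ j, s (i, j)

/-- logarithmic height of a polynomial over a number field -/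
def lh {K : Type} [Field K] [NumberField K] {σ : Type} (P : MvPolynomial σ K) : ℝ :=
  Finsupp.logHeight (AddMonoidAlgebra.coeff P)

/-! ## The norm form of a vector -/

/-- The norm form `N_x(t) = N_{F'/L}(∑_j t_j x_j) ∈ L[t_0, …, t_N]`. -/
def normForm (L F' : Type) [Field L] [Field F'] [Algebra L F'] [FiniteDimensional L F'] {N : ℕ}
    (x : Fin (N + 1) → F') : MvPolynomial (Fin (N + 1)) L :=
  Matrix.det (∑ j, (X j : MvPolynomial (Fin (N + 1)) L) •
    (Algebra.leftMulMatrix (Module.finBasis L F') (x j)).map (C : L → MvPolynomial (Fin (N + 1)) L))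

/-! ## Generic hyperplanes -/

section generic

variable {r N : ℕ}

/-- The tuple of hyperplanes `u_i ∋ z_i` with the free parameters `c (i, j)`, `j ≠ p i`; the coordinate `(i, p i)` is
determined by `∑_j u (i, j) z_i j = 0` (pivots: `z_i (p i) ≠ 0`). -/
def gen (z : Fin r → Fin (N + 1) → ℂ) (p : Fin r → Fin (N + 1)) (c : Fin r × Fin (N + 1) → ℂ) :
    Fin r × Fin (N + 1) → ℂ := fun q =>
  if q.2 = p q.1 then -∑ j ∈ Finset.univ.erase (p q.1), c (q.1, j) * (z q.1 j / z q.1 (p q.1))
  else c q

variable (K : Type) [Field K] [Algebra K ℂ]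

/-- `K(z_0, …, z_{r-1})` -/
def ratioFields (z : Fin r → Fin (N + 1) → ℂ) : IntermediateField K ℂ := ⨆ i, ratioField K (z i)

/-- `x` is defined over `F` and `F` is algebraic over `K(x)` -/
def Big (F : IntermediateField K ℂ) (x : Fin (N + 1) → ℂ) : Prop :=
  x ≠ 0 ∧ ratioField K x ≤ F ∧ ∀ a ∈ F, IsAlgebraic (ratioField K x) a

/-- The form of the cycle: the resultant form to the power `[F : K(z_0, …, z_{r-1})]`. -/
def cyc (F : IntermediateField K ℂ) (z : Fin r → Fin (N + 1) → ℂ) :
    MvPolynomial (Fin r × Fin (N + 1)) K :=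
  resForm K z ^ (ratioFields K z).relfinrank F

/-- `L = K(u)` -/
abbrev LK {ι : Type} (u : ι → ℂ) : IntermediateField K ℂ := IntermediateField.adjoin K (Set.range u)

/-- `u` as a family in `L = K(u)` -/
def uL {ι : Type} (u : ι → ℂ) : ι → LK K u := fun i =>
  ⟨u i, IntermediateField.subset_adjoin K _ (Set.mem_range_self i)⟩

/-- `F' = L(F)` -/
abbrev FF (L F : IntermediateField K ℂ) : IntermediateField L ℂ :=
  IntermediateField.adjoin L (F : Set ℂ)

open Classical in
/-- a complex vector with coordinates in the subfield `E` as a vector over `E` (coordinates outside are replaced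
by `0`) -/
def toE {R : Type} [Field R] [Algebra R ℂ] (E : IntermediateField R ℂ) (x : Fin (N + 1) → ℂ) :
    Fin (N + 1) → E := fun j => if h : x j ∈ E then ⟨x j, h⟩ else 0

/-- the normalized vector `x / x_j` -/
def nrm (x : Fin (N + 1) → ℂ) (j : Fin (N + 1)) : Fin (N + 1) → ℂ := fun i => x i / x j

/-- Substitute `u` for the blocks `1, …, k`; the block `0` gives the variables of the polynomial ring over `R`. -/
def sub {k N : ℕ} {R : Type} [CommRing R] [Algebra K R] (u : Fin k × Fin (N + 1) → R) :
    MvPolynomial (Fin (k + 1) × Fin (N + 1)) K →ₐ[K] MvPolynomial (Fin (N + 1)) R :=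
  aeval fun q => Fin.cases (motive := fun _ => MvPolynomial (Fin (N + 1)) R) (X q.2)
    (fun i => C (u (i, q.2))) q.1

/-- a polynomial in the blocks `1, …, k` as a polynomial in all the blocks -/
def up {k N : ℕ} (R : MvPolynomial (Fin k × Fin (N + 1)) K) :
    MvPolynomial (Fin (k + 1) × Fin (N + 1)) K :=
  rename (fun q => (q.1.succ, q.2)) R

end generic

/-! ## The segment ideal -/

section seg

variable {K : Type} [Field K] [Algebra K ℂ] {N : ℕ}

/-- the polynomials over `K` which vanish at all segments `(y, f(y), …, f^m(y))` -/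
def RMap.segIdeal (f : RMap K N) (m : ℕ) : Set (MvPolynomial (Fin (m + 1) × Fin (N + 1)) K) :=
  {Q | ∀ y : Fin (m + 1) → Fin (N + 1) → ℂ, f.IsSegment y → aeval (fun p => y p.1 p.2) Q = 0}

end seg

end Pool.Agent.Helper80.HD
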