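import Pool.Agent.Helper87.HD.SHD

/-!
# Project HD: the eigenvalues of the matrices of the recurrences are products of roots
-/

set_option autoImplicit false

noncomputable section

namespace Pool.Agent.Helper80.HD

/-- eigenvalues of `M ↦ A M Bᵀ` -/
theorem prod_eig {ι κ : Type} [Fintype ι] [DecidableEq ι] [Fintype κ] [DecidableEq κ] (A : Matrix ι ι ℂ)
    (B : Matrix κ κ ℂ) (z : ℂ) (M : Matrix ι κ ℂ) (hM : M ≠ 0) (h : A * M * B.transpose = z • M) :
    ∃ α β : ℂ, z = α * β ∧ (∃ x : ι → ℂ, x ≠ 0 ∧ A.mulVec x = α • x) ∧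
      ∃ y : κ → ℂ, y ≠ 0 ∧ B.mulVec y = β • y := by
  -- the eigenspace
  let W : Submodule ℂ (Matrix ι κ ℂ) :=
    { carrier := {X | A * X * B.transpose = z • X}
      add_mem' := by
        intro X Y hX hY
        simp only [Set.mem_ofPred_eq] at hX hY ⊢
        rw [Matrix.mul_add, Matrix.add_mul, hX, hY, smul_add]
      zero_mem' := by simp
      smul_mem' := by
        intro c X hX
        simp only [Set.mem_ofPred_eq] at hX ⊢
        rw [Matrix.mul_smul, Matrix.smul_mul, hX, smul_comm] }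
  have hMW : M ∈ W := h
  let LA : Matrix ι κ ℂ →ₗ[ℂ] Matrix ι κ ℂ :=
    { toFun := fun X => A * X
      map_add' := fun X Y => Matrix.mul_add _ _ _
      map_smul' := fun c X => by rw [Matrix.mul_smul, RingHom.id_apply] }
  let RB : Matrix ι κ ℂ →ₗ[ℂ] Matrix ι κ ℂ :=
    { toFun := fun X => X * B.transpose
      map_add' := fun X Y => Matrix.add_mul _ _ _
      map_smul' := fun c X => by rw [Matrix.smul_mul, RingHom.id_apply] }
  have hLA : ∀ X ∈ W, LA X ∈ W := by
    intro X hX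
    have hX' : A * X * B.transpose = z • X := hX
    show A * (A * X) * B.transpose = z • (A * X)
    rw [Matrix.mul_assoc A (A * X), hX', Matrix.mul_smul]
  have : Nontrivial W := ⟨⟨⟨M, hMW⟩, 0, fun e => hM (congrArg Subtype.val e)⟩⟩
  obtain ⟨α, hα⟩ := Module.End.exists_eigenvalue (LA.restrict hLA)
  obtain ⟨X₁, hX₁⟩ := hα.exists_hasEigenvector
  -- the second space
  let W₁ : Submodule ℂ (Matrix ι κ ℂ) :=
    { carrier := {X | X ∈ W ∧ A * X = α • X}
      add_mem' := by
        rintro X Y ⟨hX, hX'⟩ ⟨hY, hY'⟩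
        exact ⟨W.add_mem hX hY, by rw [Matrix.mul_add, hX', hY', smul_add]⟩
      zero_mem' := ⟨W.zero_mem, by simp⟩
      smul_mem' := by
        rintro c X ⟨hX, hX'⟩
        exact ⟨W.smul_mem c hX, by rw [Matrix.mul_smul, hX', smul_comm]⟩ }
  have hX₁W : (X₁ : Matrix ι κ ℂ) ∈ W₁ := by
    refine ⟨X₁.2, ?_⟩
    have h3 := congrArg Subtype.val hX₁.apply_eq_smul
    exact h3
  have hRB : ∀ X ∈ W₁, RB X ∈ W₁ := by
    rintro X ⟨hX, hX'⟩
    have hX2 : A * X * B.transpose = z • X := hX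
    refine ⟨?_, ?_⟩
    · show A * (X * B.transpose) * B.transpose = z • (X * B.transpose)
      rw [← Matrix.mul_assoc A X, hX2, Matrix.smul_mul]
    · show A * (X * B.transpose) = α • (X * B.transpose)
      rw [← Matrix.mul_assoc, hX', Matrix.smul_mul]
  have : Nontrivial W₁ := ⟨⟨⟨X₁, hX₁W⟩, 0, fun e => hX₁.2
    (Subtype.ext (show (X₁ : Matrix ι κ ℂ) = 0 from congrArg Subtype.val e))⟩⟩
  obtain ⟨β, hβ⟩ := Module.End.exists_eigenvalue (RB.restrict hRB)
  obtain ⟨X₂, hX₂⟩ := hβ.exists_hasEigenvector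
  have h4 : (X₂ : Matrix ι κ ℂ) * B.transpose = β • (X₂ : Matrix ι κ ℂ) := by
    have h3 := congrArg Subtype.val hX₂.apply_eq_smul
    exact h3
  have h5 : A * (X₂ : Matrix ι κ ℂ) = α • (X₂ : Matrix ι κ ℂ) := X₂.2.2
  have h6 : A * (X₂ : Matrix ι κ ℂ) * B.transpose = z • (X₂ : Matrix ι κ ℂ) := X₂.2.1
  have hne : (X₂ : Matrix ι κ ℂ) ≠ 0 := fun e => hX₂.2 (Subtype.ext e)
  obtain ⟨i, j, hij⟩ : ∃ i j, (X₂ : Matrix ι κ ℂ) i j ≠ 0 := by
    by_contra hcon
    push Not at hcon
    exact hne (Matrix.ext hcon)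
  refine ⟨α, β, ?_, ⟨fun i' => (X₂ : Matrix ι κ ℂ) i' j, fun e => hij (congrFun e i), ?_⟩,
    ⟨fun j' => (X₂ : Matrix ι κ ℂ) i j', fun e => hij (congrFun e j), ?_⟩⟩
  · rw [h5, Matrix.smul_mul, h4] at h6
    have h7 := congrFun (congrFun h6 i) j
    simp only [Matrix.smul_apply, smul_eq_mul] at h7
    rw [← mul_assoc] at h7
    exact (mul_right_cancel₀ hij h7).symm
  · funext i'
    have h7 := congrFun (congrFun h5 i') j
    exact h7
  · funext j'
    have h7 := congrFun (congrFun h4 i) j'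
    rw [Matrix.mul_apply] at h7
    simp only [Matrix.transpose_apply] at h7
    show ∑ x, B j' x * (X₂ : Matrix ι κ ℂ) i x = β * (X₂ : Matrix ι κ ℂ) i j'
    rw [← smul_eq_mul β, ← Matrix.smul_apply, ← h7]
    exact Finset.sum_congr rfl fun x _ => mul_comm _ _

/-- the tensor power -/
def tpow {ι : Type} [Fintype ι] (T : Matrix ι ι ℂ) (k : ℕ) : Matrix (Fin k → ι) (Fin k → ι) ℂ :=
  Matrix.of fun J J' => ∏ i, T (J i) (J' i)

theorem tpow_eig {ι : Type} [Fintype ι] [DecidableEq ι] (T : Matrix ι ι ℂ) : ∀ (k : ℕ) (z : ℂ) (v : (Fin k → ι) → ℂ),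
    v ≠ 0 → (tpow T k).mulVec v = z • v → ∃ l : Fin k → ℂ, (∀ i, ∃ x : ι → ℂ, x ≠ 0 ∧ T.mulVec x = l i • x) ∧
      z = ∏ i, l i := by
  intro k
  induction k with
  | zero =>
    intro z v hv h
    refine ⟨fun i => i.elim0, fun i => i.elim0, ?_⟩
    obtain ⟨J, hJ⟩ : ∃ J, v J ≠ 0 := by
      by_contra hcon
      push Not at hcon
      exact hv (funext hcon)
    have h1 := congrFun h J
    rw [Matrix.mulVec, dotProduct, Fintype.sum_unique] at h1
    simp only [tpow, Matrix.of_apply, Finset.univ_eq_empty, Finset.prod_empty, one_mul, Pi.smul_apply,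
      smul_eq_mul] at h1
    rw [Subsingleton.elim (default : Fin 0 → ι) J] at h1
    rw [Finset.univ_eq_empty, Finset.prod_empty]
    have : z * v J = 1 * v J := by rw [one_mul]; exact h1.symm
    exact mul_right_cancel₀ hJ this
  | succ k ih =>
    intro z v hv h
    set M : Matrix ι (Fin k → ι) ℂ := Matrix.of fun s J => v (Fin.cons s J : Fin (k + 1) → ι) with hMdef
    have hM : M ≠ 0 := by
      intro e
      apply hv
      funext J
      have := congrFun (congrFun e (J 0)) (fun i => J i.succ)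
      simp only [hMdef, Matrix.of_apply, Matrix.zero_apply] at this
      rw [show (Fin.cons (J 0) (fun i => J i.succ) : Fin (k + 1) → ι) = J from Fin.cons_self_tail J] at this
      exact this
    have hmul : T * M * (tpow T k).transpose = z • M := by
      ext s J
      have h1 := congrFun h (Fin.cons s J : Fin (k + 1) → ι)
      rw [Matrix.mulVec, dotProduct] at h1
      have h2 : ∑ J' : Fin (k + 1) → ι, tpow T (k + 1) (Fin.cons s J) J' * v J' =
          ∑ p : ι × (Fin k → ι), (T s p.1 * tpow T k J p.2) * M p.1 p.2 := by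
        refine (Fintype.sum_equiv (Fin.consEquiv fun _ : Fin (k + 1) => ι) _ _ ?_).symm
        intro p
        simp only [tpow, Matrix.of_apply, hMdef]
        rw [Fin.prod_univ_succ]
        rfl
      rw [h2, Fintype.sum_prod_type_right] at h1
      rw [Matrix.mul_apply]
      simp only [Matrix.transpose_apply, Matrix.mul_apply, Matrix.smul_apply, smul_eq_mul, Finset.sum_mul]
      rw [Pi.smul_apply, smul_eq_mul] at h1
      rw [show M s J = v (Fin.cons s J : Fin (k + 1) → ι) from rfl, ← h1]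
      refine Finset.sum_congr rfl fun J' _ => Finset.sum_congr rfl fun t _ => ?_
      ring
    obtain ⟨α, β, hz, hx, ⟨y, hy0, hy⟩⟩ := prod_eig T (tpow T k) z M hM hmul
    obtain ⟨l, hl, hβ⟩ := ih β y hy0 hy
    refine ⟨Fin.cons α l, fun i => ?_, ?_⟩
    · refine Fin.cases ?_ (fun i => ?_) i
      · simpa using hx
      · simpa using hl i
    · rw [Fin.prod_univ_succ]
      simp only [Fin.cons_zero, Fin.cons_succ]
      rw [hz, hβ]

/-- the eigenvalues of the companion matrix are roots -/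
theorem comp_root {m : ℕ} {a : Fin (m + 1) → ℤ} (ham : a (Fin.last m) ≠ 0) (l : ℂ) (x : Fin m → ℂ) (hx0 : x ≠ 0)
    (hx : (Matrix.of fun s t => ((Helper87.HD.comp m a s t : ℚ) : ℂ)).mulVec x = l • x) :
    ∑ s : Fin (m + 1), (a s : ℂ) * l ^ (s : ℕ) = 0 := by
  have hm : 0 < m := by
    rcases Nat.eq_zero_or_pos m with h | h
    · subst h
      exact absurd (funext fun i => i.elim0) hx0
    · exact h
  -- `x s = l ^ s x 0`
  have h1 : ∀ (n : ℕ) (hn : n < m), x ⟨n, hn⟩ = l ^ n * x ⟨0, hm⟩ := by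
    intro n
    induction n with
    | zero => intro hn; rw [pow_zero, one_mul]
    | succ n ih =>
      intro hn
      have h2 := congrFun hx ⟨n, by omega⟩
      rw [Matrix.mulVec, dotProduct, Finset.sum_eq_single (⟨n + 1, hn⟩ : Fin m)] at h2
      · simp only [Matrix.of_apply, Helper87.HD.comp] at h2
        rw [if_pos hn] at h2
        simp only [if_true, Rat.cast_one, one_mul, Pi.smul_apply, smul_eq_mul] at h2
        rw [h2, ih (by omega), pow_succ]
        ring
      · intro t _ ht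
        simp only [Matrix.of_apply, Helper87.HD.comp]
        rw [if_pos hn, if_neg (fun h => ht (Fin.ext h)), Rat.cast_zero, zero_mul]
      · intro h; exact absurd (Finset.mem_univ _) h
  have hx00 : x ⟨0, hm⟩ ≠ 0 := by
    intro h
    apply hx0
    funext s
    have := h1 s s.2
    rw [h, mul_zero] at this
    exact this
  have h3 := congrFun hx ⟨m - 1, by omega⟩
  rw [Matrix.mulVec, dotProduct] at h3
  have h4 : ∀ t : Fin m, (Matrix.of fun s t => ((Helper87.HD.comp m a s t : ℚ) : ℂ)) ⟨m - 1, by omega⟩ t * x t =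
      -((a (Fin.last m) : ℂ)⁻¹ * ((a t.castSucc : ℂ) * l ^ (t : ℕ))) * x ⟨0, hm⟩ := by
    intro t
    simp only [Matrix.of_apply, Helper87.HD.comp]
    rw [if_neg (by omega)]
    have h5 : x t = l ^ (t : ℕ) * x ⟨0, hm⟩ := h1 t t.2
    rw [h5]
    push_cast
    have h6 : (a (Fin.last m) : ℂ) ≠ 0 := by exact_mod_cast ham
    field_simp
  rw [Finset.sum_congr rfl fun t _ => h4 t, ← Finset.sum_mul, Finset.sum_neg_distrib, ← Finset.mul_sum,
    Pi.smul_apply, smul_eq_mul, h1 (m - 1) (by omega), ← mul_assoc] at h3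
  have h5 := mul_right_cancel₀ hx00 h3
  have h6 : (a (Fin.last m) : ℂ) ≠ 0 := by exact_mod_cast ham
  rw [Fin.sum_univ_castSucc]
  have h7 : l * l ^ (m - 1) = l ^ m := by
    rw [← pow_succ']
    congr 1
    omega
  rw [h7] at h5
  have h8 : ((Fin.last m : Fin (m + 1)) : ℕ) = m := Fin.val_last m
  rw [h8, ← h5]
  simp only [Fin.val_castSucc]
  field_simp
  ring

/-- the eigenvalues of the matrices of the recurrences -/
theorem rec_roots {m : ℕ} {a : Fin (m + 1) → ℤ} (ham : a (Fin.last m) ≠ 0) (k : ℕ) (z : ℂ)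
    (h : Module.End.HasEigenvalue (Matrix.toLin' (tpow (Matrix.of fun s t => ((Helper87.HD.comp m a s t : ℚ) : ℂ)) k)) z) :
    ∃ l : Fin k → ℂ, (∀ i, ∑ s : Fin (m + 1), (a s : ℂ) * l i ^ (s : ℕ) = 0) ∧ z = ∏ i, l i := by
  obtain ⟨v, hv⟩ := h.exists_hasEigenvector
  have h1 := hv.apply_eq_smul
  rw [Matrix.toLin'_apply] at h1
  obtain ⟨l, hl, hz⟩ := tpow_eig _ k z v hv.2 h1
  refine ⟨l, fun i => ?_, hz⟩
  obtain ⟨x, hx0, hx⟩ := hl i
  exact comp_root ham (l i) x hx0 hx

end Pool.Agent.Helper80.HD
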