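import Pool.Agent.Helper80.HD.Growth
import Pool.Agent.Helper80.HD.Roots
import Pool.Agent.Helper56.HD.SHE
import Pool.Agent.Helper5.HD.LIM

/-!
# Project HD: the precise growth of the heights and degrees
-/

set_option autoImplicit false

open Filter Topology

noncomputable section

namespace Pool.Agent.Helper80.HD

open Pool.Agent.Helper56.HD

section

variable {k m : ℕ} {a : Fin (m + 1) → ℤ} {E : (Fin (k + 1) → ℕ) → ℝ} {D : (Fin k → ℕ) → ℝ}
  {B C₀ : ℝ}

/-- the matrix after the slots of `S` -/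
def AS (m : ℕ) (a : Fin (m + 1) → ℤ) (k : ℕ) (S : Finset (Fin (k + 1))) (J J' : Fin (k + 1) → Fin m) : ℚ :=
  ∏ i, if i ∈ S then TT m a (J i) (J' i) else if J i = J' i then 1 else 0

theorem AS_insert {p : Fin (k + 1)} {S : Finset (Fin (k + 1))} (hp : p ∉ S) (J J' : Fin (k + 1) → Fin m) :
    ∑ t : Fin m, TT m a (J p) t * AS m a k S (Function.update J p t) J' = AS m a k (insert p S) J J' := by
  have h1 : ∀ t : Fin m, AS m a k S (Function.update J p t) J' =
      (if t = J' p then 1 else 0) * ∏ i ∈ Finset.univ.erase p,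
        if i ∈ S then TT m a (J i) (J' i) else if J i = J' i then 1 else 0 := by
    intro t
    unfold AS
    rw [← Finset.mul_prod_erase Finset.univ _ (Finset.mem_univ p)]
    congr 1
    · rw [if_neg hp, Function.update_self]
    · refine Finset.prod_congr rfl fun i hi => ?_
      rw [Function.update_of_ne (Finset.ne_of_mem_erase hi)]
  have h2 : AS m a k (insert p S) J J' = TT m a (J p) (J' p) * ∏ i ∈ Finset.univ.erase p,
        if i ∈ S then TT m a (J i) (J' i) else if J i = J' i then 1 else 0 := by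
    unfold AS
    rw [← Finset.mul_prod_erase Finset.univ _ (Finset.mem_univ p)]
    congr 1
    · rw [if_pos (Finset.mem_insert_self _ _)]
    · refine Finset.prod_congr rfl fun i hi => ?_
      have : i ≠ p := Finset.ne_of_mem_erase hi
      simp only [Finset.mem_insert, this, false_or]
  rw [h2]
  simp only [h1]
  rw [Finset.sum_eq_single (J' p)]
  · rw [if_pos rfl, one_mul]
  · intro t _ ht
    rw [if_neg ht, zero_mul, mul_zero]
  · intro h; exact absurd (Finset.mem_univ _) h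

/-- the recurrence, slot by slot, with the explicit matrix -/
theorem all_slots2 (hR : RecData k m a E D B C₀) {C₁ : ℝ} (hD : DB D m C₁) (hC₁ : 0 ≤ C₁)
    (S : Finset (Fin (k + 1))) :
    ∃ C : ℝ, 0 ≤ C ∧
      ∀ (n : ℕ) (J : Fin (k + 1) → Fin m),
        |E (fun i => n + (J i : ℕ) + (if i ∈ S then 1 else 0)) -
          ∑ J' : Fin (k + 1) → Fin m, (AS m a k S J J' : ℝ) * E (fun i => n + (J' i : ℕ))| ≤
          C * D (fun _ => n) := by
  have hC0 := hR.C0
  induction S using Finset.induction_on with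
  | empty =>
    refine ⟨0, le_rfl, fun n J => ?_⟩
    have h1 : ∑ J' : Fin (k + 1) → Fin m,
        ((AS m a k ∅ J J' : ℚ) : ℝ) * E (fun i => n + (J' i : ℕ)) = E (fun i => n + (J i : ℕ)) := by
      rw [Finset.sum_eq_single J]
      · simp [AS]
      · intro J' _ hJ
        obtain ⟨i, hi⟩ : ∃ i, J i ≠ J' i := by
          by_contra hcon
          push Not at hcon
          exact hJ (funext hcon).symm
        have h2 : AS m a k ∅ J J' = 0 := by
          unfold AS
          refine Finset.prod_eq_zero (Finset.mem_univ i) ?_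
          rw [if_neg (Finset.notMem_empty i), if_neg hi]
        rw [h2]; simp
      · intro h; exact absurd (Finset.mem_univ _) h
    rw [h1]
    simp
  | insert p S hp ih =>
    obtain ⟨C, hC, hA⟩ := ih
    set c : ℝ := |(a (Fin.last m) : ℝ)|⁻¹ * (C₀ * (C₁ * (1 + (m + 1) * k))) with hc
    have hc0 : 0 ≤ c := by rw [hc]; positivity
    set τ : ℝ := ∑ s : Fin m, ∑ t : Fin m, |(TT m a s t : ℝ)| with hτ
    have hτ0 : 0 ≤ τ := Finset.sum_nonneg fun _ _ => Finset.sum_nonneg fun _ _ => abs_nonneg _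
    refine ⟨c + τ * C, by positivity, fun n J => ?_⟩
    have hDn := D_pos hR (fun _ => n)
    -- the window
    set h : Fin (k + 1) → ℕ := fun i => n + (J i : ℕ) + (if i ∈ S then 1 else 0) with hh
    have hwin : ∀ i, n ≤ h i ∧ h i ≤ n + m := by
      intro i
      have := (J i).2
      simp only [hh]
      split_ifs <;> omega
    have e1 : (fun i => n + (J i : ℕ) + (if i ∈ insert p S then 1 else 0)) =
        Function.update h p (n + (J p : ℕ) + 1) := by
      funext i
      by_cases hi : i = p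
      · subst hi
        rw [Function.update_self, if_pos (Finset.mem_insert_self _ _)]
      · rw [Function.update_of_ne hi]
        simp only [hh, Finset.mem_insert, hi, false_or]
    have e2 : ∀ t : Fin m, Function.update h p (n + (t : ℕ)) =
        fun i => n + ((Function.update J p t i : Fin m) : ℕ) + (if i ∈ S then 1 else 0) := by
      intro t
      funext i
      by_cases hi : i = p
      · subst hi
        rw [Function.update_self, Function.update_self, if_neg hp, add_zero]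
      · rw [Function.update_of_ne hi, Function.update_of_ne hi]
    have s1 := slot hR hD p hwin hC₁ (J p)
    rw [← e1] at s1
    simp only [e2] at s1
    rw [← hc] at s1
    -- the second approximation
    have s2 : |∑ t : Fin m, (TT m a (J p) t : ℝ) *
          E (fun i => n + ((Function.update J p t i : Fin m) : ℕ) + (if i ∈ S then 1 else 0)) -
        ∑ J' : Fin (k + 1) → Fin m,
          ((AS m a k (insert p S) J J' : ℚ) : ℝ) *
            E (fun i => n + (J' i : ℕ))| ≤ τ * C * D (fun _ => n) := by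
      have e3 : ∑ J' : Fin (k + 1) → Fin m,
          ((AS m a k (insert p S) J J' : ℚ) : ℝ) *
            E (fun i => n + (J' i : ℕ)) =
          ∑ t : Fin m, (TT m a (J p) t : ℝ) * ∑ J' : Fin (k + 1) → Fin m,
            (AS m a k S (Function.update J p t) J' : ℝ) * E (fun i => n + (J' i : ℕ)) := by
        simp only [Finset.mul_sum]
        rw [Finset.sum_comm]
        refine Finset.sum_congr rfl fun J' _ => ?_
        rw [← AS_insert hp]
        push_cast
        rw [Finset.sum_mul]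
        refine Finset.sum_congr rfl fun t _ => ?_
        ring
      rw [e3, ← Finset.sum_sub_distrib]
      refine (Finset.abs_sum_le_sum_abs _ _).trans ?_
      have h5 : ∀ t : Fin m, |(TT m a (J p) t : ℝ) *
            E (fun i => n + ((Function.update J p t i : Fin m) : ℕ) + (if i ∈ S then 1 else 0)) -
          (TT m a (J p) t : ℝ) * ∑ J' : Fin (k + 1) → Fin m,
            (AS m a k S (Function.update J p t) J' : ℝ) * E (fun i => n + (J' i : ℕ))| ≤
          |(TT m a (J p) t : ℝ)| * (C * D (fun _ => n)) := by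
        intro t
        rw [← mul_sub, abs_mul]
        exact mul_le_mul_of_nonneg_left (hA n (Function.update J p t)) (abs_nonneg _)
      refine (Finset.sum_le_sum fun t _ => h5 t).trans ?_
      rw [← Finset.sum_mul, mul_assoc τ]
      refine mul_le_mul_of_nonneg_right ?_ (by positivity)
      rw [hτ]
      exact Finset.single_le_sum (f := fun s : Fin m => ∑ t : Fin m, |(TT m a s t : ℝ)|)
        (fun s _ => Finset.sum_nonneg fun _ _ => abs_nonneg _) (Finset.mem_univ (J p))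
    have s3 := abs_add_le
      (E (fun i => n + (J i : ℕ) + (if i ∈ insert p S then 1 else 0)) -
        ∑ t : Fin m, (TT m a (J p) t : ℝ) *
          E (fun i => n + ((Function.update J p t i : Fin m) : ℕ) + (if i ∈ S then 1 else 0)))
      (∑ t : Fin m, (TT m a (J p) t : ℝ) *
          E (fun i => n + ((Function.update J p t i : Fin m) : ℕ) + (if i ∈ S then 1 else 0)) -
        ∑ J' : Fin (k + 1) → Fin m,
          ((AS m a k (insert p S) J J' : ℚ) : ℝ) * E (fun i => n + (J' i : ℕ)))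
    rw [sub_add_sub_cancel] at s3
    refine s3.trans ?_
    calc _ ≤ c * D (fun _ => n) + τ * C * D (fun _ => n) := add_le_add s1 s2
      _ = _ := by ring

/-- the complex matrix of the recurrences with `j` slots -/
def RM (m : ℕ) (a : Fin (m + 1) → ℤ) (j : ℕ) : Matrix (Fin j → Fin m) (Fin j → Fin m) ℂ :=
  tpow (Matrix.of fun s t => ((Helper87.HD.comp m a s t : ℚ) : ℂ)) j

theorem rm_eq (m : ℕ) (a : Fin (m + 1) → ℤ) (j : ℕ) (J J' : Fin j → Fin m) :
    RM m a j J J' = ((∏ i, ((Helper87.HD.comp m a (J i) (J' i) : ℚ) : ℝ) : ℝ) : ℂ) := by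
  unfold RM tpow
  rw [Matrix.of_apply]
  push_cast
  rfl

/-- The precise growth. -/
theorem laf2 (hm : 1 ≤ m) (hr : RecData k m a E D B C₀) :
    ∃ α : ℝ, (∃ j : ℕ, (j = k ∨ j = k + 1) ∧ ∃ l : Fin j → ℂ,
        (∀ i, ∑ s : Fin (m + 1), (a s : ℂ) * l i ^ (s : ℕ) = 0) ∧ α = ‖∏ i, l i‖) ∧
      ∃ c C : ℝ, 0 < c ∧ ∀ n : ℕ, c * α ^ n ≤ E (fun _ => n) + D (fun _ => n) ∧
        E (fun _ => n) + D (fun _ => n) ≤ C * ((n : ℝ) + 1) ^ (m ^ k + m ^ (k + 1)) * α ^ n := by
  classical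
  have hone : ∀ n : ℕ, (1 : ℝ) ≤ (n : ℝ) + 1 := fun n => by
    have : (0 : ℝ) ≤ n := Nat.cast_nonneg n
    linarith
  obtain ⟨-, C₁, hC₁, hDC⟩ := Helper87.HD.shd k m a E D B C₀ hm hr
  obtain ⟨-, C₃, hC₃, hEC⟩ := Helper56.HD.she Helper87.HD.shd k m a E D B C₀ hm hr
  have hDB : DB D m C₁ := DB_of hDC
  obtain ⟨C₂, hC₂, hA'⟩ := all_slots2 hr hDB (zero_le_one.trans hC₁) Finset.univ
  set u : ℕ → (Fin k → Fin m) → ℝ := fun n J => D (fun i => n + (J i : ℕ)) with hu
  set w : ℕ → (Fin (k + 1) → Fin m) → ℝ := fun n J => E (fun i => n + (J i : ℕ)) with hw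
  have hDn : ∀ n, D (fun _ => n) ≤ ‖u n‖ := by
    intro n
    have h1 : u n (fun _ => ⟨0, hm⟩) = D (fun _ => n) := by simp [hu]
    rw [← h1]
    exact (le_abs_self _).trans (norm_le_pi_norm (u n) _)
  have hEn : ∀ n, E (fun _ => n) ≤ ‖w n‖ := by
    intro n
    have h1 : w n (fun _ => ⟨0, hm⟩) = E (fun _ => n) := by simp [hw]
    rw [← h1]
    exact (le_abs_self _).trans (norm_le_pi_norm (w n) _)
  have hD0 : ∀ n, 0 ≤ D (fun _ => n) := fun n => zero_le_one.trans (hr.D1 _)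
  have hun : ∀ n, ‖u n‖ ≤ C₁ * D (fun _ => n) := by
    intro n
    rw [pi_norm_le_iff_of_nonneg (mul_nonneg (by linarith) (hD0 n))]
    intro J
    rw [Real.norm_eq_abs, abs_of_nonneg (zero_le_one.trans (hr.D1 _))]
    exact hDC n (fun i => (J i : ℕ)) (fun i => (J i).2.le)
  have hwn : ∀ n, ‖w n‖ ≤ C₃ * (E (fun _ => n) + D (fun _ => n)) := by
    intro n
    rw [pi_norm_le_iff_of_nonneg (mul_nonneg (by linarith) (add_nonneg (hr.E0 _) (hD0 n)))]
    intro J
    rw [Real.norm_eq_abs, abs_of_nonneg (hr.E0 _)]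
    exact hEC n (fun i => (J i : ℕ)) (fun i => (J i).2.le)
  have hu1 : ∀ n, 1 ≤ ‖u n‖ := fun n => (hr.D1 _).trans (hDn n)
  have hcardk : Module.finrank ℂ ((Fin k → Fin m) → ℂ) = m ^ k := by simp
  have hcardk1 : Module.finrank ℂ ((Fin (k + 1) → Fin m) → ℂ) = m ^ (k + 1) := by simp
  -- the degrees: complexify
  have hucx : ∀ n, ‖(fun J => ((u n J : ℝ) : ℂ))‖ = ‖u n‖ := fun n => Helper5.HD.norm_ofReal_pi _
  have hwcx : ∀ n, ‖(fun J => ((w n J : ℝ) : ℂ))‖ = ‖w n‖ := fun n => Helper5.HD.norm_ofReal_pi _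
  obtain ⟨μ₁, hμ₁e, hμ₁0, c₁, K₁, hc₁, hK₁, ⟨n₁, hlow₁⟩, hup₁⟩ : ∃ μ : ℂ,
      Module.End.HasEigenvalue (Matrix.toLin' (RM m a k)) μ ∧ 1 / 2 < ‖μ‖ ∧ ∃ c C₁ : ℝ, 0 < c ∧ 0 ≤ C₁ ∧
          (∃ n₀ : ℕ, ∀ n, n₀ ≤ n → c * ‖μ‖ ^ n ≤ ‖u n‖) ∧
            ∀ n : ℕ, ‖u n‖ ≤ C₁ * ((n : ℝ) + 1) ^ (m ^ k) * ‖μ‖ ^ n := by
    rcases grow (m ^ k) ((Fin k → Fin m) → ℂ) (Matrix.toLin' (RM m a k)) (fun n J => ((u n J : ℝ) : ℂ)) (1 / 2) 0 0
        hcardk (by norm_num) (fun n => by
          have h1 := Helper87.HD.slots m (fun s t => ((Helper87.HD.comp m a s t : ℚ) : ℝ)) k D (fun J l n s =>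
            Helper87.HD.comp_rec hr.am (fun j => D (Function.update J l j)) (fun j => hr.relD j J l) n s) n
          have h2 : (fun J => ((u (n + 1) J : ℝ) : ℂ)) -
              Matrix.toLin' (RM m a k) (fun J => ((u n J : ℝ) : ℂ)) = 0 := by
            rw [Matrix.toLin'_apply]
            funext J
            rw [Pi.sub_apply, Matrix.mulVec, dotProduct, Pi.zero_apply, sub_eq_zero]
            simp only [rm_eq]
            rw [show u (n + 1) J = D (fun i => n + 1 + (J i : ℕ)) from rfl, h1 J]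
            push_cast
            rfl
          rw [h2, norm_zero, zero_mul, zero_mul]) with ⟨C, hC0, hC⟩ | ⟨μ, hμ, hμ0, c, C, hc, hC0, hlow, hup⟩
    · exfalso
      obtain ⟨n₂, hn₂⟩ := slow (K := C) (0 + m ^ k) (by norm_num : (0 : ℝ) < 1) (by norm_num : (0 : ℝ) < 1 / 2)
        (by norm_num : (1 / 2 : ℝ) < 1)
      have h1 := hn₂ n₂ le_rfl
      have h2 := hC n₂
      simp only [hucx] at h2
      have h3 := hu1 n₂
      rw [one_pow] at h1
      linarith
    · refine ⟨μ, hμ, hμ0, c, C, hc, hC0, ?_, ?_⟩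
      · obtain ⟨n₀, hn₀⟩ := hlow
        refine ⟨n₀, fun n hn => ?_⟩
        have := hn₀ n hn
        simp only [hucx] at this
        exact this
      · intro n
        have := hup n
        simp only [hucx] at this
        exact this
  have hμ₁p : 0 < ‖μ₁‖ := by linarith
  -- the heights
  have hTT : ∀ J J' : Fin (k + 1) → Fin m, (AS m a k Finset.univ J J' : ℝ) =
      ∏ i, ((Helper87.HD.comp m a (J i) (J' i) : ℚ) : ℝ) := by
    intro J J'
    unfold AS
    push_cast
    refine Finset.prod_congr rfl fun i _ => ?_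
    rw [if_pos (Finset.mem_univ i)]
    rfl
  have hgw := grow (m ^ (k + 1)) ((Fin (k + 1) → Fin m) → ℂ) (Matrix.toLin' (RM m a (k + 1)))
    (fun n J => ((w n J : ℝ) : ℂ)) ‖μ₁‖ (C₂ * K₁) (m ^ k) hcardk1 hμ₁p (fun n => by
      have h1 : (fun J => ((w (n + 1) J : ℝ) : ℂ)) -
          Matrix.toLin' (RM m a (k + 1)) (fun J => ((w n J : ℝ) : ℂ)) =
          fun J => (((E (fun i => n + (J i : ℕ) + (if i ∈ (Finset.univ : Finset (Fin (k + 1))) then 1 else 0)) -
            ∑ J' : Fin (k + 1) → Fin m, (AS m a k Finset.univ J J' : ℝ) * E (fun i => n + (J' i : ℕ)) : ℝ)) : ℂ) := by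
        rw [Matrix.toLin'_apply]
        funext J
        rw [Pi.sub_apply, Matrix.mulVec, dotProduct]
        simp only [rm_eq, hTT]
        have e1 : (fun i => n + (J i : ℕ) + (if i ∈ (Finset.univ : Finset (Fin (k + 1))) then 1 else 0)) =
            fun i => n + 1 + (J i : ℕ) := by
          funext i
          rw [if_pos (Finset.mem_univ i)]
          omega
        rw [e1]
        push_cast
        rfl
      rw [h1, Helper5.HD.norm_ofReal_pi, pi_norm_le_iff_of_nonneg (by positivity)]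
      intro J
      rw [Real.norm_eq_abs]
      refine (hA' n J).trans ?_
      have h2 := (hDn n).trans (hup₁ n)
      have h3 := mul_le_mul_of_nonneg_left h2 hC₂
      linarith)
  have hC₁0 : 0 < C₁ := by linarith
  have hC₃0 : 0 < C₃ := by linarith
  -- removing `n₀`
  have hfix : ∀ (α c : ℝ) (b : ℕ → ℝ) (n₀ : ℕ), 0 < α → 0 < c → (∀ n, 0 < b n) → (∀ n, n₀ ≤ n → c * α ^ n ≤ b n) →
      ∃ c' : ℝ, 0 < c' ∧ ∀ n, c' * α ^ n ≤ b n := by
    intro α c b n₀ hα hc hb h
    have h1 : ∃ c' : ℝ, 0 < c' ∧ c' ≤ c ∧ ∀ n, n < n₀ → c' * α ^ n ≤ b n := by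
      clear h
      induction n₀ with
      | zero => exact ⟨c, hc, le_rfl, fun n hn => absurd hn (Nat.not_lt_zero n)⟩
      | succ n₀ ih =>
        obtain ⟨c', hc', hcc, hcn⟩ := ih
        refine ⟨min c' (b n₀ / α ^ n₀), lt_min hc' (div_pos (hb _) (by positivity)),
          (min_le_left _ _).trans hcc, fun n hn => ?_⟩
        rcases Nat.lt_succ_iff_lt_or_eq.1 hn with h | h
        · refine le_trans ?_ (hcn n h)
          exact mul_le_mul_of_nonneg_right (min_le_left _ _) (by positivity)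
        · rw [h]
          have h2 : min c' (b n₀ / α ^ n₀) * α ^ n₀ ≤ b n₀ / α ^ n₀ * α ^ n₀ :=
            mul_le_mul_of_nonneg_right (min_le_right _ _) (by positivity)
          rwa [div_mul_cancel₀ _ (by positivity)] at h2
    obtain ⟨c', hc', hcc, hcn⟩ := h1
    refine ⟨c', hc', fun n => ?_⟩
    rcases lt_or_ge n n₀ with hn | hn
    · exact hcn n hn
    · exact (mul_le_mul_of_nonneg_right hcc (by positivity)).trans (h n hn)
  have hpos : ∀ n, 0 < E (fun _ => n) + D (fun _ => n) := fun n => by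
    have h1 := hr.E0 (fun _ => n)
    have h2 := hr.D1 (fun _ => n)
    linarith
  have hpm : ∀ n : ℕ, ((n : ℝ) + 1) ^ (m ^ k) ≤ ((n : ℝ) + 1) ^ (m ^ k + m ^ (k + 1)) := fun n =>
    pow_le_pow_right₀ (hone n) (Nat.le_add_right _ _)
  have hpm1 : ∀ n : ℕ, ((n : ℝ) + 1) ^ (m ^ (k + 1)) ≤ ((n : ℝ) + 1) ^ (m ^ k + m ^ (k + 1)) := fun n =>
    pow_le_pow_right₀ (hone n) (Nat.le_add_left _ _)
  rcases hgw with ⟨K₂, hK₂, h⟩ | ⟨μ₂, hμ₂e, hμ₂0, c₂, K₂, hc₂, hK₂, ⟨n₂, hlow₂⟩, hup₂⟩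
  · obtain ⟨l, hl, hz⟩ := rec_roots hr.am k μ₁ hμ₁e
    obtain ⟨c', hc', hlow'⟩ := hfix ‖μ₁‖ c₁ (fun n => ‖u n‖) n₁ hμ₁p hc₁ (fun n => zero_lt_one.trans_le (hu1 n)) hlow₁
    refine ⟨‖μ₁‖, ⟨k, Or.inl rfl, l, hl, by rw [hz]⟩, c' / C₁, K₁ + K₂, by positivity, fun n => ⟨?_, ?_⟩⟩
    · rw [div_mul_eq_mul_div, div_le_iff₀ hC₁0]
      have h1 := (hlow' n).trans (hun n)
      have h2 := hr.E0 (fun _ => n)
      nlinarith
    · have h1 := (hDn n).trans (hup₁ n)
      have h2 := h n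
      simp only [hwcx] at h2
      have h3 := (hEn n).trans h2
      have h4 : K₁ * ((n : ℝ) + 1) ^ (m ^ k) * ‖μ₁‖ ^ n ≤
          K₁ * ((n : ℝ) + 1) ^ (m ^ k + m ^ (k + 1)) * ‖μ₁‖ ^ n := by
        have := hpm n
        gcongr
      linarith
  · obtain ⟨l, hl, hz⟩ := rec_roots hr.am (k + 1) μ₂ hμ₂e
    have hμ₂p : 0 < ‖μ₂‖ := hμ₁p.trans hμ₂0
    have hlow3 : ∀ n, n₂ ≤ n → (c₂ / C₃) * ‖μ₂‖ ^ n ≤ E (fun _ => n) + D (fun _ => n) := by
      intro n hn
      have h1 := hlow₂ n hn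
      simp only [hwcx] at h1
      have h2 := h1.trans (hwn n)
      rw [div_mul_eq_mul_div, div_le_iff₀ hC₃0]
      linarith
    obtain ⟨c', hc', hlow'⟩ := hfix ‖μ₂‖ (c₂ / C₃) (fun n => E (fun _ => n) + D (fun _ => n)) n₂ hμ₂p (by positivity)
      hpos hlow3
    refine ⟨‖μ₂‖, ⟨k + 1, Or.inr rfl, l, hl, by rw [hz]⟩, c', K₁ + K₂, hc', fun n => ⟨hlow' n, ?_⟩⟩
    have h1 := (hDn n).trans (hup₁ n)
    have h2 := hup₂ n
    simp only [hwcx] at h2
    have h3 := (hEn n).trans h2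
    have h5 : ‖μ₁‖ ^ n ≤ ‖μ₂‖ ^ n := pow_le_pow_left₀ (norm_nonneg _) hμ₂0.le n
    have h4 : K₁ * ((n : ℝ) + 1) ^ (m ^ k) * ‖μ₁‖ ^ n ≤
        K₁ * ((n : ℝ) + 1) ^ (m ^ k + m ^ (k + 1)) * ‖μ₂‖ ^ n := by
      have := hpm n
      gcongr
    have h6 : K₂ * ((n : ℝ) + 1) ^ (m ^ (k + 1)) * ‖μ₂‖ ^ n ≤
        K₂ * ((n : ℝ) + 1) ^ (m ^ k + m ^ (k + 1)) * ‖μ₂‖ ^ n := by
      have := hpm1 n
      gcongr
    linarith

end

end Pool.Agent.Helper80.HD
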