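import Pool.Agent.Helper80.HD.All
import Pool.Agent.Helper80.HD.Limit

/-!
# Project HD: the strengthened theorem (explicit values, two-sided growth)
-/

set_option autoImplicit false

open MvPolynomial Filter Topology

noncomputable section

namespace Pool.Agent.Helper80.HD

/-- The limit from the growth. -/
theorem root_of_growth {b : ℕ → ℝ} {α c C : ℝ} {r : ℕ} (hα : 0 < α) (hc : 0 < c)
    (h : ∀ n : ℕ, c * α ^ n ≤ b n ∧ b n ≤ C * ((n : ℝ) + 1) ^ r * α ^ n) :
    Tendsto (fun n : ℕ => b n ^ (1 / (n : ℝ))) atTop (𝓝 α) := by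
  have hC : 0 < C := by
    have h0 := (h 0).1.trans (h 0).2
    simp only [pow_zero, mul_one, Nat.cast_zero, zero_add, one_pow] at h0
    linarith
  have hb0 : ∀ n, 0 ≤ b n := fun n => le_trans (by positivity) (h n).1
  have hroot : ∀ (d : ℝ) (n : ℕ), 0 ≤ d → n ≠ 0 → (d * α ^ n) ^ (1 / (n : ℝ)) = d ^ (1 / (n : ℝ)) * α := by
    intro d n hd hn
    rw [Real.mul_rpow hd (by positivity), one_div, Real.pow_rpow_inv_natCast hα.le hn]
  have hlow : Tendsto (fun n : ℕ => c ^ (1 / (n : ℝ)) * α) atTop (𝓝 α) := by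
    have := (Helper60.HD.const_root hc).mul_const α
    rwa [one_mul] at this
  have hpoly : Tendsto (fun n : ℕ => ((n : ℝ) + 1) ^ (1 / (n : ℝ))) atTop (𝓝 1) := by
    have h1 := tendsto_rpow_div_mul_add (1 : ℝ) 1 (-1) (by norm_num)
    have h2 : Tendsto (fun n : ℕ => (n : ℝ) + 1) atTop atTop :=
      tendsto_atTop_add_const_right _ _ tendsto_natCast_atTop_atTop
    have h3 := h1.comp h2
    refine h3.congr fun n => ?_
    show ((n : ℝ) + 1) ^ ((1 : ℝ) / (1 * ((n : ℝ) + 1) + -1)) = _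
    congr 2
    ring
  have hup : Tendsto (fun n : ℕ => (C ^ (1 / (n : ℝ)) * (((n : ℝ) + 1) ^ (1 / (n : ℝ))) ^ r) * α) atTop (𝓝 α) := by
    have := ((Helper60.HD.const_root hC).mul (hpoly.pow r)).mul_const α
    rwa [one_pow, one_mul, one_mul] at this
  refine tendsto_of_tendsto_of_tendsto_of_le_of_le' hlow hup ?_ ?_
  · filter_upwards [eventually_ne_atTop 0] with n hn
    rw [← hroot c n hc.le hn]
    exact Real.rpow_le_rpow (by positivity) (h n).1 (by positivity)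
  · filter_upwards [eventually_ne_atTop 0] with n hn
    have h1 : C ^ (1 / (n : ℝ)) * (((n : ℝ) + 1) ^ (1 / (n : ℝ))) ^ r = (C * ((n : ℝ) + 1) ^ r) ^ (1 / (n : ℝ)) := by
      rw [Real.mul_rpow hC.le (by positivity), ← Real.rpow_natCast (((n : ℝ) + 1) ^ (1 / (n : ℝ))) r,
        ← Real.rpow_mul (by positivity), ← Real.rpow_natCast ((n : ℝ) + 1) r, ← Real.rpow_mul (by positivity),
        mul_comm (1 / (n : ℝ)) (r : ℝ)]
    rw [h1, ← hroot _ n (by positivity) hn]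
    exact Real.rpow_le_rpow (hb0 n) (h n).2 (by positivity)

/-- A sequence which is at least `1` has growth at least `1`. -/
theorem one_le_of_growth {b : ℕ → ℝ} {α c C : ℝ} {r : ℕ} (hα : 0 ≤ α) (hc : 0 < c) (hb : ∀ n, c ≤ b n)
    (h : ∀ n : ℕ, b n ≤ C * ((n : ℝ) + 1) ^ r * α ^ n) : 1 ≤ α := by
  by_contra hcon
  push Not at hcon
  have h1 : Tendsto (fun n : ℕ => C * ((n : ℝ) + 1) ^ r * α ^ n) atTop (𝓝 0) := by
    rcases hα.eq_or_lt with h0 | h0
    · refine tendsto_const_nhds.congr' ?_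
      filter_upwards [eventually_ne_atTop 0] with n hn
      rw [← h0, zero_pow hn, mul_zero]
    · have h2 := (tendsto_pow_const_mul_const_pow_of_lt_one r hα hcon)
      have h3 := (h2.comp (tendsto_add_atTop_nat 1)).const_mul (C / α)
      rw [mul_zero] at h3
      refine h3.congr fun n => ?_
      show C / α * ((((n + 1 : ℕ) : ℝ)) ^ r * α ^ (n + 1)) = _
      rw [pow_succ]
      push_cast
      field_simp
  have h4 := ge_of_tendsto h1 (Eventually.of_forall fun n => (hb n).trans (h n))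
  linarith

theorem roots_algebraic {m : ℕ} {a : Fin (m + 1) → ℤ} (ham : a (Fin.last m) ≠ 0) {l : ℂ}
    (hl : ∑ s : Fin (m + 1), (a s : ℂ) * l ^ (s : ℕ) = 0) : IsAlgebraic ℚ l := by
  refine ⟨∑ s : Fin (m + 1), Polynomial.C ((a s : ℤ) : ℚ) * Polynomial.X ^ (s : ℕ), ?_, ?_⟩
  · intro h
    have h1 := congrArg (fun p => Polynomial.coeff p m) h
    simp only [Polynomial.finsetSum_coeff, Polynomial.coeff_C_mul, Polynomial.coeff_X_pow,
      Polynomial.coeff_zero] at h1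
    rw [Finset.sum_eq_single (Fin.last m)] at h1
    · simp only [Fin.val_last, if_true, mul_one] at h1
      exact ham (by exact_mod_cast h1)
    · intro s _ hs
      rw [if_neg, mul_zero]
      intro h2
      exact hs (Fin.ext (by rw [Fin.val_last]; exact h2.symm))
    · intro h2; exact absurd (Finset.mem_univ _) h2
  · rw [map_sum]
    rw [← hl]
    refine Finset.sum_congr rfl fun s _ => ?_
    simp

/-- `α` is the modulus of a product of `k` or of `k + 1` roots of the polynomial with the coefficients `a`. -/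
def RootProd (k m : ℕ) (a : Fin (m + 1) → ℤ) (α : ℝ) : Prop :=
  ∃ j : ℕ, (j = k ∨ j = k + 1) ∧ ∃ l : Fin j → ℂ,
    (∀ i, ∑ s : Fin (m + 1), (a s : ℂ) * l i ^ (s : ℕ) = 0) ∧ α = ‖∏ i, l i‖

theorem RootProd.isAlgebraic {k m : ℕ} {a : Fin (m + 1) → ℤ} {α : ℝ} (ham : a (Fin.last m) ≠ 0)
    (h : RootProd k m a α) : IsAlgebraic ℚ α := by
  obtain ⟨j, -, l, hl, rfl⟩ := h
  refine Helper5.HD.norm_algebraic ?_
  refine Finset.prod_induction l (IsAlgebraic ℚ) (fun x y hx hy => hx.mul hy) isAlgebraic_one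
    fun i _ => roots_algebraic ham (hl i)

/-- The growth of the recurrence data, for every `m`. -/
theorem laf3 {k m : ℕ} {a : Fin (m + 1) → ℤ} {E : (Fin (k + 1) → ℕ) → ℝ} {D : (Fin k → ℕ) → ℝ}
    {B C₀ : ℝ} (hr : RecData k m a E D B C₀) :
    ∃ α : ℝ, 1 ≤ α ∧ RootProd k m a α ∧
      ∃ c C : ℝ, 0 < c ∧ ∀ n : ℕ, c * α ^ n ≤ E (fun _ => n) + D (fun _ => n) ∧
        E (fun _ => n) + D (fun _ => n) ≤ C * ((n : ℝ) + 1) ^ ((m + 1) ^ k + (m + 1) ^ (k + 1)) * α ^ n := by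
  have hpos : ∀ n, 1 ≤ E (fun _ => n) + D (fun _ => n) := fun n => by
    have h1 := hr.E0 (fun _ => n)
    have h2 := hr.D1 (fun _ => n)
    linarith
  rcases Nat.eq_zero_or_pos m with hm | hm
  · subst hm
    obtain ⟨α, ⟨j, hj, l, hl, hα⟩, c, C, hc, h⟩ := laf2 le_rfl (Helper60.HD.rec_shift hr)
    have hα0 : 0 ≤ α := by rw [hα]; exact norm_nonneg _
    have h1 : 1 ≤ α := one_le_of_growth hα0 zero_lt_one hpos fun n => (h n).2
    refine ⟨α, h1, ⟨j, hj, l, fun i => ?_, hα⟩, c, C, hc, fun n => ⟨(h n).1, (h n).2.trans ?_⟩⟩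
    · exfalso
      have h2 := hl i
      rw [Fin.sum_univ_two] at h2
      simp only [Matrix.cons_val_zero, Matrix.cons_val_one, Int.cast_zero, zero_mul, zero_add] at h2
      have h3 : ((1 : Fin (1 + 1)) : ℕ) = 1 := rfl
      rw [h3, pow_one] at h2
      have h4 : l i ≠ 0 := by
        intro h5
        have h6 : ∏ i, l i = 0 := Finset.prod_eq_zero (Finset.mem_univ i) h5
        rw [h6, norm_zero] at hα
        linarith
      rcases mul_eq_zero.1 h2 with h5 | h5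
      · exact hr.am (by exact_mod_cast h5)
      · exact h4 h5
    · norm_num
  · obtain ⟨α, hR, c, C, hc, h⟩ := laf2 hm hr
    have hα0 : 0 ≤ α := by
      obtain ⟨j, hj, l, hl, hα⟩ := hR
      rw [hα]; exact norm_nonneg _
    have h1 : 1 ≤ α := one_le_of_growth hα0 zero_lt_one hpos fun n => (h n).2
    refine ⟨α, h1, hR, c, C, hc, fun n => ⟨(h n).1, (h n).2.trans ?_⟩⟩
    have hC : 0 ≤ C := by
      have h2 := (hpos 0).trans (h 0).2
      simp only [pow_zero, mul_one, Nat.cast_zero, zero_add, one_pow] at h2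
      linarith
    have h3 : m ^ k + m ^ (k + 1) ≤ (m + 1) ^ k + (m + 1) ^ (k + 1) :=
      Nat.add_le_add (Nat.pow_le_pow_left (Nat.le_succ m) _) (Nat.pow_le_pow_left (Nat.le_succ m) _)
    have h4 : ((n : ℝ) + 1) ^ (m ^ k + m ^ (k + 1)) ≤ ((n : ℝ) + 1) ^ ((m + 1) ^ k + (m + 1) ^ (k + 1)) :=
      pow_le_pow_right₀ (by have : (0 : ℝ) ≤ n := Nat.cast_nonneg n; linarith) h3
    gcongr

/-- The strengthened result. -/
def S_FINAL2 : Prop := ∀ (K : Type) [Field K] [NumberField K] [Algebra K ℂ] (N : ℕ) (f : RMap K N)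
  (m : ℕ) (a : Fin (m + 1) → ℤ), a (Fin.last m) ≠ 0 → Nonempty (Triv f m a) →
    ∀ (k : ℕ) (x : ℕ → Fin (N + 1) → ℂ), f.IsOrbit x → Algebra.trdeg K (ratioField K (x 0)) = k →
      ∃ α : ℝ, ((α = 0 ∧ ∀ᶠ n in atTop, arithDeg K k x n = 0) ∨
          (1 ≤ α ∧ RootProd k m a α ∧ ∃ c C : ℝ, 0 < c ∧ ∀ n : ℕ, c * α ^ n ≤ arithDeg K k x n ∧
            arithDeg K k x n ≤ C * ((n : ℝ) + 1) ^ ((m + 1) ^ k + (m + 1) ^ (k + 1)) * α ^ n)) ∧
        ∀ D : ℕ → ℝ,
          (∃ c₁ c₂ : ℝ, 0 < c₁ ∧ 0 < c₂ ∧ ∀ n, c₁ * arithDeg K k x n ≤ D n ∧ D n ≤ c₂ * arithDeg K k x n) →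
            Tendsto (fun n : ℕ => D n ^ (1 / (n : ℝ))) atTop (𝓝 α)

/-- the final assembly -/
theorem final_of2 (hRES : S_RES) (hHOM : S_HOM) (hTDG : S_TDG) (hSYM : S_SYM) (hDEP : S_DEP) (hKP : S_KP)
    (hKQ : S_KQ) (hLHD : S_LHD) (hCMP : S_CMP) (hORB : S_ORB) : S_FINAL2 := by
  intro K _ _ _ N f m a ham hT k x hx htr
  obtain ⟨T⟩ := hT
  obtain ⟨hmem, hanti, -⟩ := (hORB K N f).2.2 x hx
  have hne : ∀ n, x n ≠ 0 := fun n => (hmem n).1
  by_cases hdeg : ∃ n₀, (ratioField K (x n₀)).relfinrank (ratioField K (x 0)) = 0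
  · obtain ⟨n₀, hn₀⟩ := hdeg
    have hz0 : ∀ n, n₀ ≤ n → arithDeg K k x n = 0 := by
      intro n hn
      have h1 : (ratioField K (x n)).relfinrank (ratioField K (x 0)) = 0 := by
        rw [← IntermediateField.relfinrank_mul_relfinrank (hanti n₀ n hn) (hanti 0 n₀ (Nat.zero_le _)), hn₀,
          mul_zero]
      unfold arithDeg
      rw [h1]
      simp
    refine ⟨0, Or.inl ⟨rfl, ?_⟩, fun D hD => ?_⟩
    · filter_upwards [eventually_ge_atTop n₀] with n hn
      exact hz0 n hn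
    obtain ⟨c₁, c₂, hc₁, hc₂, hcD⟩ := hD
    have hz : ∀ n, n₀ ≤ n → D n = 0 := by
      intro n hn
      have h3 := hcD n
      rw [hz0 n hn, mul_zero, mul_zero] at h3
      exact le_antisymm h3.2 h3.1
    refine tendsto_const_nhds.congr' ?_
    filter_upwards [eventually_ge_atTop (max n₀ 1)] with n hn
    rw [hz n (le_of_max_le_left hn), Real.zero_rpow]
    have : (1 : ℝ) ≤ n := by exact_mod_cast le_of_max_le_right hn
    positivity
  · push Not at hdeg
    set F := ratioField K (x 0) with hF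
    have hFG : F.FG := ratioField_fg K (x 0)
    have hB : ∀ n, Big K F (x n) := fun n => big_of (hne n) (hanti 0 n (Nat.zero_le _)) (hdeg n)
    obtain ⟨B, C₀, hrec⟩ := recData hSYM hDEP hKP hKQ hLHD hORB ham T hx hFG htr hB
    obtain ⟨α, hα1, hR, c, C, hc, hg⟩ := laf3 hrec
    obtain ⟨C₁, hC₁, hcmp⟩ := arithDeg_cmp hSYM hDEP hRES hHOM hTDG hCMP hLHD hF hFG htr hB
    have hα0 : 0 < α := zero_lt_one.trans_le hα1
    have hC₁0 : 0 < C₁ := zero_lt_one.trans_le hC₁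
    have hgr : ∀ n : ℕ, c / C₁ * α ^ n ≤ arithDeg K k x n ∧
        arithDeg K k x n ≤ C₁ * C * ((n : ℝ) + 1) ^ ((m + 1) ^ k + (m + 1) ^ (k + 1)) * α ^ n := by
      intro n
      constructor
      · rw [div_mul_eq_mul_div, div_le_iff₀ hC₁0]
        have h1 := (hg n).1
        have h2 := (hcmp n).1
        change c * α ^ n ≤ EE F x k (fun _ => n) + DD F x (fun _ : Fin k => n) at h1
        linarith
      · have h1 := (hg n).2
        have h2 := (hcmp n).2
        have h3 := mul_le_mul_of_nonneg_left h1 hC₁0.le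
        refine h2.trans (h3.trans (le_of_eq ?_))
        ring
    refine ⟨α, Or.inr ⟨hα1, hR, c / C₁, C₁ * C, by positivity, hgr⟩, fun D hD => ?_⟩
    obtain ⟨c₁, c₂, hc₁, hc₂, hcD⟩ := hD
    refine root_of_growth (c := c₁ * (c / C₁)) (C := c₂ * (C₁ * C)) (r := (m + 1) ^ k + (m + 1) ^ (k + 1)) hα0
      (by positivity) fun n => ⟨?_, ?_⟩
    · have h1 := mul_le_mul_of_nonneg_left (hgr n).1 hc₁.le
      refine le_trans (le_of_eq ?_) (h1.trans (hcD n).1)
      ring
    · have h1 := mul_le_mul_of_nonneg_left (hgr n).2 hc₂.le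
      refine ((hcD n).2.trans h1).trans (le_of_eq ?_)
      ring

theorem final2 : S_FINAL2 := by
  have hGENEX := Pool.Agent.Helper69.HD.genex
  have hGENV := Pool.Agent.Helper34.HD.genv
  have hIND := Pool.Agent.Helper26.HD.ind
  have hKER := Pool.Agent.Helper69.HD.ker
  have hFIN := Pool.Agent.Helper83.HD.fin hIND
  have hRES := Pool.Agent.Helper27.HD.res hGENEX hGENV hIND hKER
  have hHOM := Pool.Agent.Helper3.HD.hom
  have hNF := Pool.Agent.Helper73.HD.nf
  have hASS := Pool.Agent.Helper70.HD.ass hGENV hFIN hRES hNF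
  have hTRZ := Pool.Agent.Helper60.HD.trz hGENV hRES
  have hPTR := Pool.Agent.Helper55.HD.ptr
  have hDEGX := Pool.Agent.Helper86.HD.degx hTRZ hPTR
  have hTDG := Pool.Agent.Helper51.HD.tdg
  have hNFT := Pool.Agent.Helper61.HD.nft hNF
  have hTOWER := Pool.Agent.Helper35.HD.tower hGENEX hIND hFIN hRES hHOM hASS hDEGX hTDG hNF hNFT
  have hSYM := Pool.Agent.Helper35.HD.sym hRES
  have hDEP := dep hTOWER hSYM
  have hGNM := Pool.Agent.Helper61.HD.gnm
  have hCGA := Pool.Agent.Helper9.HD.cga hGNM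
  have hCPI := Pool.Agent.Helper6.HD.cpi hGNM
  have hCDE := Pool.Agent.Helper8.HD.cde
  have hSUP := Pool.Agent.Helper69.HD.sup
  have hTOR := Pool.Agent.Helper79.HD.tor Pool.Agent.Helper94.HD.tor1
  have hEVB := Pool.Agent.Helper83.HD.evb
  have hARC := Pool.Agent.Helper75.HD.arc hTOR hEVB
  have hGEL := Pool.Agent.Helper51.HD.gel hTOR hEVB hGNM
  have hNAH := Pool.Agent.Helper86.HD.nah hNF hGNM
  have hARH := Pool.Agent.Helper3.HD.arh hNF hGNM hGEL
  have hEXT := Pool.Agent.Helper79.HD.ext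
  have hGAM := Pool.Agent.Helper32.HD.gam
  have hTRV := Pool.Agent.Helper19.HD.trv Pool.Agent.Helper27.HD.nul hGAM
  have hLOCA := Pool.Agent.Helper93.HD.loca hNAH hARH hEXT hTRV hGNM
  have hLOCB := Pool.Agent.Helper34.HD.locb hNAH hARH hEXT hGAM hGNM
  have hLHD := Pool.Agent.Helper79.HD.lhd hGNM
  have hCMP := Pool.Agent.Helper55.HD.cmp hLHD hGNM hGEL
  have hORB := Pool.Agent.Helper73.HD.orb
  have hKP := Pool.Agent.Helper39.HD.kp hTOWER hLOCA hCGA hCPI hCDE hARC hLHD hGNM hTDG hSUP hRES hORB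
  have hKQ := Pool.Agent.Helper67.HD.kq hTOWER hLOCB hCGA hCPI hCDE hARC hLHD hGNM hTDG hSUP hRES hORB hNF
  exact final_of2 hRES hHOM hTDG hSYM hDEP hKP hKQ hLHD hCMP hORB

end Pool.Agent.Helper80.HD
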