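import Pool.Agent.Helper80.HD.Defs

/-!
# Project HD (MP_6af536_nt), module A: algebra of the resultant forms.

Every `def S_XXX : Prop` is a packet.  A packet may use the earlier packets of this file (and the module N, norm forms) as
hypotheses.  Notation: `F` is a finitely generated field `K ⊂ F ⊂ ℂ`, `trdeg_K F = k`; `z_0, …` are points defined over
`F` such that `F` is algebraic over each `K(z_i)` (`Big`); `c` is a family of complex numbers algebraically independent
over `F`; `u = gen z p c` is the generic tuple of hyperplanes `u_i ∋ z_i`; `L = K(u)`, `F' = L(F) = F(u)`.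
-/

set_option autoImplicit false

open MvPolynomial Filter Topology

noncomputable section

namespace Pool.Agent.Helper80.HD

/-- PACKET GENEX (0.6 h): algebraically independent families exist.

PROOF.  `K` is countable (number field), `F/K` is finitely generated, so `F` is countable.  If `ℂ` had finite
transcendence degree over `F` it would be algebraic over a finitely generated, hence countable field, so countable;
but `ℂ` is uncountable.  So a transcendence basis of `ℂ/F` is infinite; take an injection of the finite type `ι` into it. -/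
def S_GENEX : Prop := ∀ (K : Type) [Field K] [NumberField K] [Algebra K ℂ] (F : IntermediateField K ℂ), F.FG →
  ∀ (ι : Type) [Finite ι], ∃ c : ι → ℂ, AlgebraicIndependent F c

/-- PACKET GENV (0.8 h): `gen z p c` is a generic point of `{u : u_i · z_i = 0}`.

PROOF.  (1) direct.  (2) Let `Q' = Q(X with X_{(i, p i)} replaced by -∑_{j ≠ p i} X_{(i,j)} C(z_i j / z_i (p i)))`, a polynomial over
`F`.  `aeval c Q' = aeval (gen z p c) Q = 0`, so `Q' = 0`.  If `∑_j u_(i,j) z_i j = 0` for all `i` then `u = gen z p u`, so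
`aeval u Q = aeval (gen z p u) Q = aeval u Q' = 0`.   (3) is (2) for `Q` over `K` (map to `F`), and (1). -/
def S_GENV : Prop := ∀ (K : Type) [Field K] [Algebra K ℂ] (F : IntermediateField K ℂ) (r N : ℕ)
  (z : Fin r → Fin (N + 1) → ℂ) (p : Fin r → Fin (N + 1)) (c : Fin r × Fin (N + 1) → ℂ),
  (∀ i, z i (p i) ≠ 0) →
  (∀ i, ∑ j, gen z p c (i, j) * z i j = 0) ∧
  ((∀ i, ratioField K (z i) ≤ F) → AlgebraicIndependent F c →
    (∀ Q : MvPolynomial (Fin r × Fin (N + 1)) F, aeval (gen z p c) Q = 0 →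
      ∀ u : Fin r × Fin (N + 1) → ℂ, (∀ i, ∑ j, u (i, j) * z i j = 0) → aeval u Q = 0) ∧
    ∀ Q : MvPolynomial (Fin r × Fin (N + 1)) K, Vanishes K z Q ↔ aeval (gen z p c) Q = 0)

/-- PACKET IND (2 h): `r ≤ k` generic blocks are algebraically independent over `K`.

PROOF.  Induction on `r`.  Let `U` be the first `r` blocks of `gen z p c` (`r < k`), `E = K(U)`, `F_r = F(U) = F(c_(i,j), i < r, j ≠ p i)`.
`trdeg_K F_r = k + rN` (the `rN` parameters are algebraically independent over `F`) and `trdeg_K E = r(N+1)`; so `F_r` is not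
algebraic over `E` (`k > r`).  If all ratios `s_j = z_r j / z_r (p r)` were algebraic over `E` then `E(z_r)` would be algebraic
over `E`, and `F_r = F(U)` is algebraic over `E(z_r) ⊇ K(z_r)(U)` because `F` is algebraic over `K(z_r)`: contradiction.  So some `s_j`
is transcendental over `E`.
Claim: the new block `(u_0, (c_j)_{j ≠ p})`, `u_0 = -∑_{j ≠ p} c_j s_j`, is algebraically independent over `E`.  Let `P ∈ E[T_0, T_j]`,
`P(u_0, c) = 0`.  The `c_j` are algebraically independent over `F_r ∋ s_j`, so `P(-∑ T_j s_j, T) = 0` in `F_r[T]`, and for all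
`e ∈ E^N` we get `P(-∑ e_j s_j, e) = 0`.  The set of `e ∈ E^N` with `∑ e_j s_j` algebraic over `E` is an `E`-subspace, not
everything; if `P ≠ 0` there is `e` outside of it such that the polynomial `P(T_0, e) ≠ 0` (`E` infinite: a nonzero coefficient
polynomial of `P` times a linear form that defines a hyperplane containing the subspace does not vanish identically on `E^N`), so `-∑ e_j s_j`
is algebraic over `E`, contradiction.  Finally transitivity of algebraic independence. -/
def S_IND : Prop := ∀ (K : Type) [Field K] [CharZero K] [Algebra K ℂ] (F : IntermediateField K ℂ) (r k N : ℕ)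
  (z : Fin r → Fin (N + 1) → ℂ) (p : Fin r → Fin (N + 1)) (c : Fin r × Fin (N + 1) → ℂ),
  F.FG → Algebra.trdeg K F = k → r ≤ k → (∀ i, z i (p i) ≠ 0) → (∀ i, Big K F (z i)) →
    AlgebraicIndependent F c → AlgebraicIndependent K (gen z p c)

/-- PACKET FIN (1 h): for `r = k` the field `F' = L(F)` is finite over `L = K(u)`.

PROOF.  `F(u) = F(c_(i,j), j ≠ p i)` has transcendence degree `k + kN` over `K` and, by IND, so has `L = K(u)` (`k(N+1)` independent
generators).  So `F'` is algebraic over `L`; it is finitely generated over `L` (`F/K` is), hence finite. -/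
def S_FIN : Prop := ∀ (K : Type) [Field K] [CharZero K] [Algebra K ℂ] (F : IntermediateField K ℂ) (k N : ℕ)
  (z : Fin k → Fin (N + 1) → ℂ) (p : Fin k → Fin (N + 1)) (c : Fin k × Fin (N + 1) → ℂ),
  F.FG → Algebra.trdeg K F = k → (∀ i, z i (p i) ≠ 0) → (∀ i, Big K F (z i)) →
    AlgebraicIndependent F c →
      FiniteDimensional (LK K (gen z p c)) (FF K (LK K (gen z p c)) F)

/-- PACKET KER (1.5 h): kernels of codimension one are principal (pure algebra).

`θ : ι → ℂ` is a finite family, `i0 ∈ ι`, the family without `θ i0` is algebraically independent over `K`, and `θ i0` is algebraic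
over `K(θ_i, i ≠ i0)`.  Then the kernel of `K[X] → ℂ, Q ↦ Q(θ)` is generated by an irreducible polynomial `P`, and
`P` involves `X_{i0}`.
PROOF.  The kernel contains a nonzero polynomial (clear the denominators of an algebraic relation), so one of its irreducible
factors `P` is in the kernel (prime ideal).  `P` involves `X_{i0}` because of the independence.  Let `Q` be in the kernel, `P ∤ Q`.
View `K[X] = A[T]`, `A = K[X_i, i ≠ i0]`, `T = X_{i0}`.  `P` is irreducible of positive degree in `T`, so primitive, and by Gauss's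
lemma irreducible in `Frac(A)[T]` and `P ∤ Q` in `Frac(A)[T]`; so `P, Q` are coprime there: `αP + βQ = R`, `α, β ∈ A[T]`,
`0 ≠ R ∈ A`.  Then `R(θ) = 0`, contradicting the independence. -/
def S_KER : Prop := ∀ (K : Type) [Field K] [Algebra K ℂ] (ι : Type) [Finite ι] (θ : ι → ℂ) (i0 : ι),
  AlgebraicIndependent K (fun i : {i // i ≠ i0} => θ i) → ¬ AlgebraicIndependent K θ →
    ∃ P : MvPolynomial ι K, Irreducible P ∧ 0 < P.degreeOf i0 ∧ ∀ Q : MvPolynomial ι K, P ∣ Q ↔ aeval θ Q = 0

/-- PACKET RES (1 h; uses GENEX, GENV, IND, KER): existence of the resultant form for `k + 1` big points.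

PROOF.  Take `c` (GENEX for `Fin (k+1) × Fin (N+1)`) and `θ = gen Z p c`.  `θ` is not algebraically independent over `K`: all
its values are in `F(c_(i,j), j ≠ p i)`, of transcendence degree `k + (k+1)N < (k+1)(N+1)`.  For any block `i` and any `j` with
`Z i j ≠ 0` choose the pivots with `p i = j`; the family without `θ (i, j)` is algebraically independent over `K`: the `k` other
blocks are (IND with `r = k`), and `c_(i,j')`, `j' ≠ j`, are algebraically independent over `F(other c) ∋ other blocks`.  So KER gives `P` with `0 < degreeOf (i,j) P`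
and `P ∣ Q ↔ Q(θ) = 0 ↔ Vanishes K Z Q` (GENV), i.e. `IsRes K Z P`.  So `resForm K Z` is also such a generator, it is an associate of `P`
(`P ∣ resForm`, `resForm ∣ P`), so irreducible and with the same `degreeOf`. -/
def S_RES : Prop := ∀ (K : Type) [Field K] [NumberField K] [Algebra K ℂ] (F : IntermediateField K ℂ) (k N : ℕ)
  (Z : Fin (k + 1) → Fin (N + 1) → ℂ), F.FG → Algebra.trdeg K F = k → (∀ i, Big K F (Z i)) →
    IsRes K Z (resForm K Z) ∧ Irreducible (resForm K Z) ∧
      ∀ i j, Z i j ≠ 0 → 0 < (resForm K Z).degreeOf (i, j)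

/-- PACKET HOM (1 h): the resultant form is homogeneous in every block.

PROOF.  Let `P = resForm K Z`, nonzero with `IsRes K Z P` (no bigness is needed).  For a block `i` and `λ ∈ K^*` let `P_λ(u) = P(u with the block i multiplied by λ)`.
`Vanishes K Z Q ↔ Vanishes K Z Q_λ`, so `P ∣ P_λ` and `P_λ ∣ P` (apply it to `λ⁻¹`), `P_λ = c P` with `c ∈ K^*` (units of the polynomial ring).
Comparing coefficients: `λ^{deg_i s} coeff_s P = c coeff_s P` for every monomial `s`, `deg_i s = ∑_j s(i,j)`; with `λ = 2` (`char K = 0`) all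
monomials of `P` have the same `deg_i`, which is `bdeg i P`. -/
def S_HOM : Prop := ∀ (K : Type) [Field K] [CharZero K] [Algebra K ℂ] (r N : ℕ)
  (Z : Fin r → Fin (N + 1) → ℂ) (P : MvPolynomial (Fin r × Fin (N + 1)) K), P ≠ 0 → IsRes K Z P →
    MultiHomog (fun i => bdeg i P) P

/-- PACKET ASS (2.5 h; uses GENEX, GENV, IND, FIN, RES, and NF of module N): `P(t, u)` is the norm form of `x̃ = x / x_{j0}` from `L(x̃)` to `L`, up to a factor.

Here `E = L(x_0/x_{j0}, …, x_N/x_{j0})`, `L = K(u)`.
PROOF.  `E ⊂ F'` is finite over `L` (FIN).  Let `P = resForm K Z`, `Z = (x, z)`, `Q = sub u P ∈ L[t]`, `N' = normForm L E x̃ ∈ L[t]`,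
`N' = ∏_ρ ℓ_ρ` over `ℂ`, `ℓ_ρ(t) = ∑_j ρ(x̃_j) t_j`, `ρ : E →ₐ[L] ℂ` (NF).
(a) `N' ∣ Q` in `ℂ[t]`: for `t ∈ ℂ^{N+1}` with `t · x = 0` the tuple `(t, u)` satisfies the conditions of `Vanishes`, so `Q(t) = 0`.  So
substituting `t_{j0} = -∑_{j ≠ j0} t_j x̃_j` in `Q` gives the zero polynomial over `E`; applying `ρ`: substituting `t_{j0} = -∑ t_j ρ(x̃_j)` in `Q` gives
zero, so `ℓ_ρ ∣ Q` in `ℂ[t]`.  The `ℓ_ρ` are monic of degree one in `t_{j0}`, so prime; they are different for different `ρ` (`E = L(x̃)`) and not associated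
(same coefficient `1` of `t_{j0}`).  So the product divides `Q` in `ℂ[t]`, `Q = N' S`.
(b) `N' ∣ Q` in `L[t]`: take an `L`-linear map `φ : ℂ → L` with `φ(1) = 1` and apply it to the coefficients of `S`: `Q = N' φ(S)`.
(c) `Q ∣ N'` in `L[t]`: `N'` has coefficients in `L = Frac K[u]`, so `sub u H = C(b(u)) N'` for some `0 ≠ b ∈ K[u]`, `H ∈ K[t,u]`.  At the generic point
`(t*, u) = gen Z (j0, p) c'` (choose `c'` algebraically independent over `F` whose blocks `≥ 1` are the given `c`: this is why the packet takes `c` on all `k + 1` blocks)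
`H(t*, u) = b(u) N'(t*) = 0`, because the factor `ℓ_id(t*) = t* · x̃ = 0`.  So `Vanishes K Z H` (GENV), `P ∣ H`, and `Q = sub u P ∣ C(b(u)) N'`.
So `Q` and `N'` are associated in `L[t]`: `Q = C A₀ N'` (units are constants), `A₀ ≠ 0` as `Q ≠ 0` (`u` is algebraically independent over `K`, `P ≠ 0`). -/
def S_ASS : Prop := ∀ (K : Type) [Field K] [NumberField K] [Algebra K ℂ] (F : IntermediateField K ℂ) (k N : ℕ)
  (x : Fin (N + 1) → ℂ) (z : Fin k → Fin (N + 1) → ℂ) (j0 : Fin (N + 1)) (p : Fin k → Fin (N + 1))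
  (c : Fin (k + 1) × Fin (N + 1) → ℂ), F.FG → Algebra.trdeg K F = k → (∀ i, Big K F (z i)) → Big K F x →
    x j0 ≠ 0 → (∀ i, z i (p i) ≠ 0) → AlgebraicIndependent F c →
      ∀ u : Fin k × Fin (N + 1) → ℂ, u = gen z p (fun q => c (q.1.succ, q.2)) →
        ∀ E : IntermediateField (LK K u) ℂ, E = IntermediateField.adjoin (LK K u) (Set.range (nrm x j0)) →
          ∃ _ : FiniteDimensional (LK K u) E, ∃ A : LK K u, A ≠ 0 ∧
            sub K (uL K u) (resForm K (Fin.cons x z : Fin (k + 1) → Fin (N + 1) → ℂ)) =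
              C A * normForm (LK K u) E (toE E (nrm x j0))

/-- PACKET TRZ (2 h; uses GENEX, GENV, IND, RES): the points `z_i` are rational over `L(x) = K(u, x)`.

PROOF.  `P = resForm K Z`, `Z = (x, z)`.  Let `t ∈ ℂ^{N+1}` with `t · x = 0`.  For every `v ∈ ℂ^{N+1}` with `v · z_i = 0` and `s ∈ ℂ` the tuple
`(t, u + s v in the block i)` satisfies the conditions of `Vanishes`, so `P(t, u + s v) = 0`; the derivative at `s = 0` is
`∑_j v_j (∂P/∂u_(i,j))(t, u) = 0`.  So `(∂P/∂u_(i,j))(t,u) z_i(p i) = (∂P/∂u_(i,p i))(t,u) z_i j` for all `j`.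
`∂P/∂u_(i, p i)` is not zero (`0 < degreeOf`, char 0) and not divisible by `P` (its degree in `u_(i, p i)` is smaller), so it does not
vanish at the generic point `(t*, u)`.  The polynomial `t ↦ (∂P/∂u_(i,p i))(t, u)` restricted to the hyperplane `t_{j0} = -∑_{j≠j0} t_j x_j/x_{j0}` is a nonzero polynomial in the `t_j`,
`j ≠ j0`; `K` is infinite, so there are `t_j ∈ K` (`j ≠ j0`) where it is not zero, and `t ∈ K(x)^{N+1}`.  So `z_i j / z_i (p i)` is a quotient of values of polynomials over `K` at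
`(t, u)`, in `K(u, x)`, and so are all ratios of the coordinates of `z_i`. -/
def S_TRZ : Prop := ∀ (K : Type) [Field K] [NumberField K] [Algebra K ℂ] (F : IntermediateField K ℂ) (k N : ℕ)
  (x : Fin (N + 1) → ℂ) (z : Fin k → Fin (N + 1) → ℂ) (j0 : Fin (N + 1)) (p : Fin k → Fin (N + 1))
  (c : Fin (k + 1) × Fin (N + 1) → ℂ), F.FG → Algebra.trdeg K F = k → (∀ i, Big K F (z i)) → Big K F x →
    x j0 ≠ 0 → (∀ i, z i (p i) ≠ 0) → AlgebraicIndependent F c →
      ∀ u : Fin k × Fin (N + 1) → ℂ, u = gen z p (fun q => c (q.1.succ, q.2)) →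
        ∀ i, ratioField K (z i) ≤ LK K u ⊔ ratioField K x

/-- PACKET PTR (1.2 h): field degrees do not change under purely transcendental extensions (pure algebra).

PROOF.  Let `F₀ ≤ F`, `F` finite over `F₀`, `b` a basis of `F/F₀`.  `F₀(c)[b]` is a ring, finite over the field `F₀(c)`, so a field, and contains `F` and `c`:
`b` spans `F(c)` over `F₀(c)`.  Linear independence: `∑ λ_i b_i = 0`, `λ_i ∈ F₀(c)`; clear denominators, `λ_i = g_i(c)`, `g_i ∈ F₀[X]`; `∑ b_i g_i ∈ F[X]` vanishes at
`c`, so it is `0`, and for every monomial `∑_i b_i coeff(g_i) = 0` gives `g_i = 0`. -/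
def S_PTR : Prop := ∀ (K : Type) [Field K] [Algebra K ℂ] (F₀ F : IntermediateField K ℂ) (ι : Type) [Finite ι]
  (c : ι → ℂ), F₀ ≤ F → F₀.relfinrank F ≠ 0 → AlgebraicIndependent F c →
    (F₀ ⊔ LK K c).relfinrank (F ⊔ LK K c) = F₀.relfinrank F

/-- PACKET DEGX (1.2 h; uses GENV, TRZ, PTR): `[F' : L(x)] = [F : K(x, z)]`.

PROOF.  Let `F₀ = ratioFields K Z = K(x, z) ≤ F`, `Z = (x, z)`, and `c'' = (c_(i.succ, j))_{j ≠ p i}` (algebraically independent over `F`).  By TRZ `K(z_i) ≤ K(u, x)`, so
`K(u,x) = K(x,z)(u) = F₀(c'')` because `u_(i, p i) ∈ K(z_i)(c'')` and `c''` is a part of `u`.  Also `F(u) = F(c'')`.  `F` is algebraic and finitely generated over `K(x)`, so finite over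
`F₀`, and PTR. -/
def S_DEGX : Prop := ∀ (K : Type) [Field K] [NumberField K] [Algebra K ℂ] (F : IntermediateField K ℂ) (k N : ℕ)
  (x : Fin (N + 1) → ℂ) (z : Fin k → Fin (N + 1) → ℂ) (j0 : Fin (N + 1)) (p : Fin k → Fin (N + 1))
  (c : Fin (k + 1) × Fin (N + 1) → ℂ), F.FG → Algebra.trdeg K F = k → (∀ i, Big K F (z i)) → Big K F x →
    x j0 ≠ 0 → (∀ i, z i (p i) ≠ 0) → AlgebraicIndependent F c →
      ∀ u : Fin k × Fin (N + 1) → ℂ, u = gen z p (fun q => c (q.1.succ, q.2)) →
        (LK K u ⊔ ratioField K x).relfinrank (LK K u ⊔ F) =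
          (ratioFields K (Fin.cons x z : Fin (k + 1) → Fin (N + 1) → ℂ)).relfinrank F ∧
        (ratioFields K (Fin.cons x z : Fin (k + 1) → Fin (N + 1) → ℂ)).relfinrank F ≠ 0

/-- PACKET TOWER (1.5 h; uses GENEX, IND, FIN, RES, HOM, ASS, DEGX, NF, NFT): the interface of the module.

PROOF.  Choose pivots `p`, `c` on `k + 1` blocks, `u = gen z p (c on the blocks ≥ 1)`: algebraically independent over `K` (IND), `F'/L` finite (FIN).  For a big `x` with
`x_{j0} ≠ 0` let `E = L(x̃)`, `e = [F : K(x,z)] = [F' : E]` (DEGX; `E = L ⊔ K(x)`, `F' = L ⊔ F` as fields).  `sub u P = C A₀ N_{E}(x̃)` (ASS), and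
`normForm L F' x̃ = (normForm L E x̃)^e` (NFT), so `sub u (P^e) = C(A₀^e) normForm L F' x̃`.
Degrees: `P` is homogeneous in the block `0` of degree `bdeg 0 P` (HOM), so `sub u P`, which is not zero, is homogeneous of degree `bdeg 0 P`; `normForm L E x̃` is homogeneous of
degree `[E : L]`.  So `bdeg 0 P = [E : L]` and `bdeg 0 (P^e) = e [E : L] = [F' : L]` (`bdeg 0` is multiplicative on powers: the coefficient ring is a domain). -/
def S_TOWER : Prop := ∀ (K : Type) [Field K] [NumberField K] [Algebra K ℂ] (F : IntermediateField K ℂ) (k N : ℕ)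
  (z : Fin k → Fin (N + 1) → ℂ), F.FG → Algebra.trdeg K F = k → (∀ i, Big K F (z i)) →
    ∃ u : Fin k × Fin (N + 1) → ℂ, AlgebraicIndependent K u ∧
      ∃ _ : FiniteDimensional (LK K u) (FF K (LK K u) F),
        ∀ (x : Fin (N + 1) → ℂ) (j0 : Fin (N + 1)), Big K F x → x j0 ≠ 0 →
          (∃ A : LK K u, A ≠ 0 ∧
            sub K (uL K u) (cyc K F (Fin.cons x z : Fin (k + 1) → Fin (N + 1) → ℂ)) =
              C A * normForm (LK K u) (FF K (LK K u) F) (toE (FF K (LK K u) F) (nrm x j0))) ∧
          bdeg 0 (cyc K F (Fin.cons x z : Fin (k + 1) → Fin (N + 1) → ℂ)) =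
            Module.finrank (LK K u) (FF K (LK K u) F)

/-- PACKET SYM (0.8 h; uses RES): symmetry.

PROOF.  `Vanishes K (Z ∘ σ) (rename (σ⁻¹ on the block index) Q) ↔ Vanishes K Z Q`, so the renamed `resForm K Z` is a generator for `Z ∘ σ` and `resForm K (Z ∘ σ)` is an associate of
it, i.e. equal up to a factor in `K^*`.  `ratioFields K (Z ∘ σ) = ratioFields K Z`.  `lh` does not change under renaming of the variables by a bijection and under multiplication by `K^*`
(`Height.mulHeight_comp_equiv`, `Height.mulHeight_smul_eq_mulHeight`), and `bdeg` is permuted. -/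
def S_SYM : Prop := ∀ (K : Type) [Field K] [NumberField K] [Algebra K ℂ] (F : IntermediateField K ℂ) (k N : ℕ)
  (Z : Fin (k + 1) → Fin (N + 1) → ℂ) (σ : Equiv.Perm (Fin (k + 1))), F.FG → Algebra.trdeg K F = k →
    (∀ i, Big K F (Z i)) → lh (cyc K F (Z ∘ σ)) = lh (cyc K F Z) ∧
      ∀ i, bdeg i (cyc K F (Z ∘ σ)) = bdeg (σ i) (cyc K F Z)

/-- PACKET DEP (0.6 h; uses TOWER, SYM): `bdeg i (cyc Z)` does not depend on `Z i`, and it is at least `1`.

PROOF.  `i = 0`: TOWER for `z = tail`: `bdeg 0 = [F' : L]` for all `x` (take the same `u`), `≥ 1`.  General `i`: SYM with the transposition `(0 i)`. -/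
def S_DEP : Prop := ∀ (K : Type) [Field K] [NumberField K] [Algebra K ℂ] (F : IntermediateField K ℂ) (k N : ℕ)
  (Z Z' : Fin (k + 1) → Fin (N + 1) → ℂ) (i : Fin (k + 1)), F.FG → Algebra.trdeg K F = k →
    (∀ l, Big K F (Z l)) → (∀ l, Big K F (Z' l)) → (∀ l, l ≠ i → Z l = Z' l) →
      bdeg i (cyc K F Z) = bdeg i (cyc K F Z') ∧ 1 ≤ bdeg i (cyc K F Z)

/-- PACKET TDG (0.5 h): total degree and block degrees, and block degrees of powers.

PROOF.  (1) every monomial of `P` has total degree `∑_i bdeg i P`.  (2) `bdeg i` is the degree in `T` of the image of `P` under `X_(i,j) ↦ T X_(i,j)` (other variables unchanged) in `K[X][T]`; a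
domain. (Or: `weightedTotalDegree` of `X_(i',j) ↦ [i' = i]`.) -/
def S_TDG : Prop := ∀ (K : Type) [Field K] (r N : ℕ) (P Q : MvPolynomial (Fin r × Fin (N + 1)) K), P ≠ 0 → Q ≠ 0 →
  (MultiHomog (fun i => bdeg i P) P → P.totalDegree = ∑ i, bdeg i P) ∧
  (∀ i, bdeg i (P * Q) = bdeg i P + bdeg i Q) ∧ (∀ i (e : ℕ), bdeg i (P ^ e) = e * bdeg i P) ∧
  P.totalDegree ≤ ∑ i, bdeg i P

end Pool.Agent.Helper80.HD
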