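import Pool.Agent.Helper80.HD.GoalsA
import Pool.Agent.Helper80.HD.GoalsB

/-!
# Project HD (MP_6af536_nt), modules E (global inequalities) and F (linear recurrences).

Every `def S_XXX : Prop` is a packet; it may use the packets named in its docstring as hypotheses.
-/

set_option autoImplicit false

open MvPolynomial Filter Topology

noncomputable section

namespace Pool.Agent.Helper80.HD

/-! ## Module E -/

/-- PACKET ORB (1 h): orbits.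

PROOF.  (1) If `E(x) = 0` for `E ∈ eqs`, `y = f(x)`: some `G_l(x) = c y` is nonzero (`cover`), `c ≠ 0`, `0 = E(G_l(x)) = c^d E(y)` (`maps`).  (2) For this `l` the ratios `y_i / y_j = G_{l,i}(x) / G_{l,j}(x)` are
in `K(x)`: divide by `x_p^{deg l}` (`x_p ≠ 0`), the `G_{l,i}(x)/x_p^{deg l}` are polynomials over `K` in the `x_j/x_p`.  (3) direct.  (4) `segment`s of an orbit. -/
def S_ORB : Prop := ∀ (K : Type) [Field K] [Algebra K ℂ] (N : ℕ) (f : RMap K N),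
  (∀ x y, f.Mem x → f.IsImage x y → f.Mem y ∧ ratioField K y ≤ ratioField K x) ∧
  (∀ x y (a b : ℂ), a ≠ 0 → b ≠ 0 → f.Mem x → f.IsImage x y →
    f.Mem (fun j => a * x j) ∧ f.IsImage (fun j => a * x j) (fun j => b * y j)) ∧
  (∀ x : ℕ → Fin (N + 1) → ℂ, f.IsOrbit x → (∀ n, f.Mem (x n)) ∧ (∀ n m, n ≤ m → ratioField K (x m) ≤ ratioField K (x n)) ∧
    ∀ n m, f.IsSegment (fun i : Fin (m + 1) => x (n + i)))

/-- PACKET KP (3 h; uses TOWER, LOCA, CGA, CPI, CDE, ARC, LHD, GNM, TDG, SUP, RES, ORB): the relation for the heights and degrees.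

PROOF.  Let `𝒫_i = cyc K F (y_i, z)`, `δ = [F' : L]`, `ỹ_i = y_i / y_i(q i)` (some coordinate `≠ 0`).  TOWER: `sub u 𝒫_i = C A_i · N_i`, `N_i = normForm ỹ_i`, `bdeg 0 𝒫_i = δ`.  `ỹ` is a segment (ORB) with values in `F'`
(`toE` is the coercion inverse as `ratioField (y_i) ≤ F ≤ F'`).  Let `g` be as in LOCA and `κ = norm g · ∏ A_i^{a_i} ∈ L^*`.  For nonarchimedean `ω`: `log gn ω (sub u 𝒫_i) = log ω(A_i) + log gn ω N_i`, so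
(*) `|log ω(κ) - ∑ a_i log gn ω (sub u 𝒫_i)| ≤ δ log Γ(ω|K)`.
`ω ∈ PiAbs`: `𝒫_i` is a power of an irreducible polynomial involving the block `0` (RES), so `gn ω (sub u 𝒫_i) = 1`, `Γ = 1`, `ω κ = 1`; so `κ = c ∈ K^*` (CPI).
`ω` = degree valuation of the block `l` (CDE): `ω κ = 1`, so `∑ a_i bdeg l.succ 𝒫_i = 0`: the second claim.
`ω` = Gauss extension of a finite place `v` (CGA): `|log v(c) - ∑ a_i log gn v 𝒫_i| ≤ δ log Γ(v)`.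
Infinite places: `v = |σ ·|` (LHD (2)), `ι` from ARC for `(𝒫_i)_i`, `D = ∑_i totalDegree 𝒫_i ≤ ∑_i ∑_b bdeg b 𝒫_i ≤ (m+1) S` (TDG); with LOCA: `|log v(c) - ∑ a_i log gn v 𝒫_i| ≤ δ Γ' + (∑|a_i|) c₀ (1 + D)`, as `gn absC (map σ 𝒫) = gn v 𝒫`.
Sum over all places: `∑ log v(c) = 0` (LHD (3)) and LHD (1): `|∑ a_i lh(𝒫_i)| ≤ C S` (`S ≥ δ ≥ 1`, number of infinite places and `∑ᶠ log Γ(v)` are constants). -/
def S_KP : Prop := ∀ (K : Type) [Field K] [NumberField K] [Algebra K ℂ] (N : ℕ) (f : RMap K N) (m : ℕ)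
  (a : Fin (m + 1) → ℤ) (_T : Triv f m a) (k : ℕ), ∃ C₀ : ℝ, 0 ≤ C₀ ∧
    ∀ (F : IntermediateField K ℂ) (z : Fin k → Fin (N + 1) → ℂ) (y : Fin (m + 1) → Fin (N + 1) → ℂ),
      F.FG → Algebra.trdeg K F = k → (∀ i, Big K F (z i)) → (∀ i, Big K F (y i)) → f.IsSegment y →
        |∑ i, (a i : ℝ) * lh (cyc K F (Fin.cons (y i) z : Fin (k + 1) → Fin (N + 1) → ℂ))| ≤
          C₀ * ((bdeg 0 (cyc K F (Fin.cons (y 0) z : Fin (k + 1) → Fin (N + 1) → ℂ)) : ℝ) +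
            ∑ i, ∑ l : Fin k, (bdeg l.succ (cyc K F (Fin.cons (y i) z : Fin (k + 1) → Fin (N + 1) → ℂ)) : ℝ)) ∧
        ∀ l : Fin k, ∑ i, (a i : ℝ) *
          (bdeg l.succ (cyc K F (Fin.cons (y i) z : Fin (k + 1) → Fin (N + 1) → ℂ)) : ℝ) = 0

/-- PACKET KQ (3 h; uses TOWER, LOCB, CGA, CPI, CDE, ARC, LHD, GNM, TDG, SUP, RES): the inequality for `y = f(x)`.

PROOF.  Choose `l₀` with `G_{l₀}(x) ≠ 0` (`cover`), `d = deg l₀ ≤ B := max_l deg l`.  `x̃ = x / x_p`, `ỹ = y / y_q`, `x' = G_{l₀}(x̃) = c ỹ`, `c ∈ F'^*`.  `𝒫_x = cyc K F (x, z)`, `𝒫_y`; TOWER: `sub u 𝒫_x = C A N(x̃)`, `sub u 𝒫_y = C A' N(ỹ)`, `bdeg 0 = δ` for both.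
`N(x') = norm(c) N(ỹ)` (NF (4)).  Let `κ = norm(c) A^d / A' ∈ L^*`.  LOCB: for nonarchimedean `ω`
(*) `log gn ω (sub u 𝒫_y) + log ω(κ) ≤ d log gn ω (sub u 𝒫_x) + δ log Γ(ω|K)`.
`ω ∈ PiAbs`: `ω κ ≤ 1`, so `κ = aeval u R`, `0 ≠ R ∈ K[U]` (CPI).  Degree valuations (CDE, SUP (1),(2)): `bdeg l.succ 𝒫_y + bdeg l R ≤ d · bdeg l.succ 𝒫_x`.
Gauss extension of `v` (CGA applied to `𝒫_y, 𝒫_x` and `up R`, SUP): `log gn v 𝒫_y + log gn v R ≤ d log gn v 𝒫_x + δ log Γ(v)`.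
Infinite places: ARC for `𝒫_x, 𝒫_y, up R`: the same with the error `δ Γ' + c₀ (d + 2)(1 + D)`, `D` = sum of the three total degrees `≤ (B + 2) S'`.
Sum over the places: `lh 𝒫_y + lh (up R) ≤ d lh 𝒫_x + C S'`, and `lh (up R) ≥ 0`, `lh 𝒫_x ≥ 0`, `d ≤ B`. -/
def S_KQ : Prop := ∀ (K : Type) [Field K] [NumberField K] [Algebra K ℂ] (N : ℕ) (f : RMap K N) (k : ℕ),
  ∃ B C₀ : ℝ, 1 ≤ B ∧ 0 ≤ C₀ ∧
    ∀ (F : IntermediateField K ℂ) (z : Fin k → Fin (N + 1) → ℂ) (x y : Fin (N + 1) → ℂ),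
      F.FG → Algebra.trdeg K F = k → (∀ i, Big K F (z i)) → Big K F x → Big K F y → f.Mem x → f.IsImage x y →
        lh (cyc K F (Fin.cons y z : Fin (k + 1) → Fin (N + 1) → ℂ)) ≤
          B * lh (cyc K F (Fin.cons x z : Fin (k + 1) → Fin (N + 1) → ℂ)) +
          C₀ * ((bdeg 0 (cyc K F (Fin.cons x z : Fin (k + 1) → Fin (N + 1) → ℂ)) : ℝ) +
            ∑ l : Fin k, (bdeg l.succ (cyc K F (Fin.cons x z : Fin (k + 1) → Fin (N + 1) → ℂ)) : ℝ) +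
            ∑ l : Fin k, (bdeg l.succ (cyc K F (Fin.cons y z : Fin (k + 1) → Fin (N + 1) → ℂ)) : ℝ)) ∧
        ∀ l : Fin k, (bdeg l.succ (cyc K F (Fin.cons y z : Fin (k + 1) → Fin (N + 1) → ℂ)) : ℝ) ≤
          B * (bdeg l.succ (cyc K F (Fin.cons x z : Fin (k + 1) → Fin (N + 1) → ℂ)) : ℝ)

/-! ## Module F: recurrences -/

/-- PACKET DIC (2.5 h): dichotomy for perturbed linear recurrences.

PROOF.  `ℂ^ι = V_> ⊕ V_<`, sums of the generalized eigenspaces of `A` for the eigenvalues of modulus `> ρ₂`, resp. `< ρ₁` (`Module.End.iSup_maxGenEigenspace_eq_top`, independence); both are `A`-invariant.  There are `r_< < ρ₁`, `C` with `‖A^n v‖ ≤ C r_<^n ‖v‖` on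
`V_<`, and `r_> > ρ₂` with `‖A^n v‖ ≥ C⁻¹ r_>^n ‖v‖` on `V_>` (on the generalized eigenspace of `μ`: `A^n = ∑_{j<d} binom(n,j) μ^{n-j} (A-μ)^j`; or Gelfand's formula for the spectral radius of the restriction, resp. of its inverse).
Let `e_n = w_{n+1} - A w_n`.  Component in `V_<`: `w_n = A^n w_0 + ∑_{j<n} A^{n-1-j} e_j`, norm `≤ C' ρ₁^n`.  Component in `V_>`: `q = w_0 + ∑_j A^{-j-1} e_j` converges (`∑ r_>^{-j-1} ρ₁^j < ∞`), `w_n = A^n q - ∑_{j ≥ n} A^{n-j-1} e_j`, the second term has norm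
`≤ C' ρ₁^n`.  If `q = 0` the first alternative holds.  If `q ≠ 0`: `‖w_n‖ ≥ c (C⁻¹ r_>^n ‖q‖ - C' ρ₁^n) ≥ c' ρ₂^n` for large `n`. -/
def S_DIC : Prop := ∀ (ι : Type) [Fintype ι] [DecidableEq ι] (A : Matrix ι ι ℂ) (w : ℕ → ι → ℂ) (ρ₁ ρ₂ C₀ : ℝ),
  0 < ρ₁ → ρ₁ < ρ₂ → (∀ μ : ℂ, Module.End.HasEigenvalue (Matrix.toLin' A) μ → ‖μ‖ < ρ₁ ∨ ρ₂ < ‖μ‖) →
    (∀ n, ‖w (n + 1) - A.mulVec (w n)‖ ≤ C₀ * ρ₁ ^ n) →
      (∃ C₁ : ℝ, ∀ n, ‖w n‖ ≤ C₁ * ρ₁ ^ n) ∨ ∃ c : ℝ, 0 < c ∧ ∃ n₀, ∀ n, n₀ ≤ n → c * ρ₂ ^ n ≤ ‖w n‖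

/-- PACKET LIM (1.5 h; uses DIC): regular growth.

PROOF.  Let `M` be the finite set of the moduli of the eigenvalues of `A` (over `ℂ`; the matrix `A` is rational), `T = {ρ > lam : ρ ∉ M, ∃ C ∀ n ‖w n‖ ≤ C ρ^n}`.  `T ≠ ∅` (`‖w n‖ ≤ C R^n` for large `R`).  Let `μ = inf T`.  If `μ ≤ lam` the first alternative holds.  Let
`μ > lam`.  For `ρ > μ`, `‖w n‖ ≤ C ρ^n` (some element of `T` is `< ρ`).  For `lam < ρ < μ`, `ρ ∉ M`: `ρ ∉ T`; choose `ρ < ρ₂ ` in the same gap of `M`; DIC with `ρ₁ = ρ`: the first alternative is impossible, so `c ρ₂^n ≤ ‖w n‖` for large `n`.  So `‖w n‖^(1/n) → μ`.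
If `μ ∉ M`, take `ρ₁ < μ < ρ₂` in the gap: the first alternative of DIC contradicts `μ = inf T`, the second one contradicts the upper bound.  So `μ ∈ M`, the modulus of an eigenvalue of a rational matrix, so `μ` is algebraic (`μ² = λ λ̄`).  (If `w n = 0` for
all large `n` the first alternative holds.) -/
def S_LIM : Prop := ∀ (ι : Type) [Fintype ι] [DecidableEq ι] (A : Matrix ι ι ℚ) (w : ℕ → ι → ℝ) (lam : ℝ), 0 ≤ lam →
  (∀ ρ : ℝ, lam < ρ → ∃ C₀ : ℝ, ∀ n, ‖w (n + 1) - (A.map (algebraMap ℚ ℝ)).mulVec (w n)‖ ≤ C₀ * ρ ^ n) →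
    (∀ ρ : ℝ, lam < ρ → ∃ C₀ : ℝ, ∀ n, ‖w n‖ ≤ C₀ * ρ ^ n) ∨
      ∃ μ : ℝ, lam < μ ∧ IsAlgebraic ℚ μ ∧ Tendsto (fun n : ℕ => ‖w n‖ ^ (1 / (n : ℝ))) atTop (𝓝 μ)

/-- The data of the recurrences: `E` (heights) and `D` (degrees), functions of the indices of the points of the orbit. -/
structure RecData (k m : ℕ) (a : Fin (m + 1) → ℤ) (E : (Fin (k + 1) → ℕ) → ℝ) (D : (Fin k → ℕ) → ℝ)
    (B C₀ : ℝ) : Prop where
  am : a (Fin.last m) ≠ 0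
  B1 : 1 ≤ B
  C0 : 0 ≤ C₀
  symE : ∀ (σ : Equiv.Perm (Fin (k + 1))) (J : Fin (k + 1) → ℕ), E (J ∘ σ) = E J
  symD : ∀ (σ : Equiv.Perm (Fin k)) (J : Fin k → ℕ), D (J ∘ σ) = D J
  E0 : ∀ J, 0 ≤ E J
  D1 : ∀ J, 1 ≤ D J
  relE : ∀ (j : ℕ) (J : Fin k → ℕ), |∑ i : Fin (m + 1), (a i : ℝ) * E (Fin.cons (j + i) J : Fin (k + 1) → ℕ)| ≤
    C₀ * (D J + ∑ i : Fin (m + 1), ∑ l : Fin k, D (fun s => (Fin.cons (j + i) J : Fin (k + 1) → ℕ) (l.succ.succAbove s)))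
  relD : ∀ (j : ℕ) (J : Fin k → ℕ) (l : Fin k),
    ∑ i : Fin (m + 1), (a i : ℝ) * D (Function.update J l (j + i)) = 0
  incE : ∀ (j : ℕ) (J : Fin k → ℕ), E (Fin.cons (j + 1) J : Fin (k + 1) → ℕ) ≤
    B * E (Fin.cons j J : Fin (k + 1) → ℕ) +
      C₀ * (D J + ∑ l : Fin k, D (fun s => (Fin.cons j J : Fin (k + 1) → ℕ) (l.succ.succAbove s)) +
        ∑ l : Fin k, D (fun s => (Fin.cons (j + 1) J : Fin (k + 1) → ℕ) (l.succ.succAbove s)))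
  incD : ∀ (J : Fin k → ℕ) (l : Fin k), D (Function.update J l (J l + 1)) ≤ B * D J

/-- PACKET SHD (1.5 h): the vector recurrence of the degrees.

PROOF.  `u n (J) = D(n + J)`, `J : Fin k → Fin m`.  Let `T` be the `m × m` companion matrix over `ℚ`: `D(…, n + s + 1, …) = ∑_t T_{s t} D(…, n + t, …)` in every slot (for `s + 1 < m` a unit vector; for `s + 1 = m` from `relD`, `T_{m-1,t} = -a_t/a_m`).
Applying it in the `k` slots one after the other: `D(n + 1 + J) = ∑_{J'} (∏_i T_{J_i J'_i}) D(n + J')`, so `A = (∏_i T_{J_i J'_i})`.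
(2) By `incD` and symmetry, for `J ≤ m` in every coordinate `D(n + J) ≤ B^{∑ J_i} D(n, …, n)`; norm on functions = maximum. -/
def S_SHD : Prop := ∀ (k m : ℕ) (a : Fin (m + 1) → ℤ) (E : (Fin (k + 1) → ℕ) → ℝ) (D : (Fin k → ℕ) → ℝ) (B C₀ : ℝ),
  1 ≤ m → RecData k m a E D B C₀ →
    (∃ A : Matrix (Fin k → Fin m) (Fin k → Fin m) ℚ, ∀ n : ℕ,
      (fun J : Fin k → Fin m => D (fun i => n + 1 + (J i : ℕ))) =
        (A.map (algebraMap ℚ ℝ)).mulVec (fun J : Fin k → Fin m => D (fun i => n + (J i : ℕ)))) ∧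
    ∃ C₁ : ℝ, 1 ≤ C₁ ∧ ∀ (n : ℕ) (J : Fin k → ℕ), (∀ i, J i ≤ m) → D (fun i => n + J i) ≤ C₁ * D (fun _ => n)

/-- PACKET SHE (2 h; uses SHD): the vector recurrence of the heights.

PROOF.  `w n (J) = E(n + J)`, `J : Fin (k+1) → Fin m`, `A_{J J'} = ∏_i T_{J_i J'_i}` with the same companion matrix.  In every slot (symmetry and `relE`), for all other indices in `[n, n + m]`:
`|E(…, n + s + 1, …) - ∑_t T_{s t} E(…, n + t, …)| ≤ C₀ |a_m|⁻¹ (sum of `(m+1)k + 1` values of `D` with indices in `[n, n+m]`) ≤ C' D(n, …, n)` by SHD (2).  Replace the `k + 1` slots one after the other; the coefficients `T` are bounded: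
`‖w(n+1) - A w(n)‖ ≤ C'' D(n, …, n)`.  (2) `incE` in every slot and SHD (2). -/
def S_SHE : Prop := ∀ (k m : ℕ) (a : Fin (m + 1) → ℤ) (E : (Fin (k + 1) → ℕ) → ℝ) (D : (Fin k → ℕ) → ℝ) (B C₀ : ℝ),
  1 ≤ m → RecData k m a E D B C₀ →
    (∃ A : Matrix (Fin (k + 1) → Fin m) (Fin (k + 1) → Fin m) ℚ, ∃ C₁ : ℝ, 0 ≤ C₁ ∧ ∀ n : ℕ,
      ‖(fun J : Fin (k + 1) → Fin m => E (fun i => n + 1 + (J i : ℕ))) -
        (A.map (algebraMap ℚ ℝ)).mulVec (fun J : Fin (k + 1) → Fin m => E (fun i => n + (J i : ℕ)))‖ ≤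
          C₁ * D (fun _ => n)) ∧
    ∃ C₁ : ℝ, 1 ≤ C₁ ∧ ∀ (n : ℕ) (J : Fin (k + 1) → ℕ), (∀ i, J i ≤ m) →
      E (fun i => n + J i) ≤ C₁ * (E (fun _ => n) + D (fun _ => n))

/-- PACKET LAF (1.5 h; uses LIM, SHD, SHE): the limit.

PROOF.  If `m = 0` replace `(m, a)` by `(1, (0, a_0))` (the relations at `j + 1`; `C₀` changes: the new right-hand side contains the old one), so let `m ≥ 1`.  `u n`, `w n` as in SHD, SHE.  LIM for `u` with `lam = 0`: the first alternative is impossible (`‖u n‖ ≥ 1`), so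
`‖u n‖^(1/n) → μ₁`, algebraic, `μ₁ > 0`, and `D(n..n) ≤ ‖u n‖ ≤ C₁ D(n..n)`; so for `ρ > μ₁`: `‖w(n+1) - A w(n)‖ ≤ C D(n..n) ≤ C' ρ^n`.  LIM for `w` with `lam = μ₁`: either `‖w n‖ ≤ C ρ^n` for all `ρ > μ₁`, or `‖w n‖^(1/n) → μ₂ > μ₁`.
`E(n..n) ≤ ‖w n‖ ≤ C₁ (E(n..n) + D(n..n))`.  So `E(n..n) + D(n..n)` is, up to constant factors, `‖w n‖ + ‖u n‖`, whose `n`-th root tends to `μ₁`, resp. `μ₂`.  The same for `M n` between constant multiples (`c^{1/n} → 1`). -/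
def S_LAF : Prop := ∀ (k m : ℕ) (a : Fin (m + 1) → ℤ) (E : (Fin (k + 1) → ℕ) → ℝ) (D : (Fin k → ℕ) → ℝ) (B C₀ : ℝ),
  RecData k m a E D B C₀ → ∃ α : ℝ, IsAlgebraic ℚ α ∧ ∀ M : ℕ → ℝ,
    (∃ c₁ c₂ : ℝ, 0 < c₁ ∧ 0 < c₂ ∧ ∀ n, c₁ * (E (fun _ => n) + D (fun _ => n)) ≤ M n ∧
      M n ≤ c₂ * (E (fun _ => n) + D (fun _ => n))) →
        Tendsto (fun n : ℕ => M n ^ (1 / (n : ℝ))) atTop (𝓝 α)

end Pool.Agent.Helper80.HD
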