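import Mathlib

/-!
# Project HD: precise growth of perturbed linear recurrences

The method is that of packet DIC (helper87): induction on the dimension with a left eigenvector.
-/

set_option autoImplicit false

open Filter Topology

noncomputable section

namespace Pool.Agent.Helper80.HD

/-- the partial sums of `(j+1)^r θ^j` are bounded -/
theorem sum_bound (r : ℕ) {θ : ℝ} (h0 : 0 < θ) (h1 : θ < 1) :
    ∃ S : ℝ, 0 ≤ S ∧ ∀ m : ℕ, ∑ j ∈ Finset.range m, ((j : ℝ) + 1) ^ r * θ ^ j ≤ S := by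
  have h2 : Summable fun n : ℕ => (n : ℝ) ^ r * θ ^ n :=
    summable_pow_mul_geometric_of_norm_lt_one r (by rw [Real.norm_eq_abs, abs_of_pos h0]; exact h1)
  have h3 : Summable fun n : ℕ => ((n : ℝ) + 1) ^ r * θ ^ n := by
    have h4 := ((summable_nat_add_iff 1).2 h2).mul_left θ⁻¹
    refine h4.congr fun n => ?_
    push_cast
    rw [pow_succ]
    field_simp
  refine ⟨∑' n : ℕ, ((n : ℝ) + 1) ^ r * θ ^ n, tsum_nonneg fun n => by positivity, fun m => ?_⟩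
  exact h3.sum_le_tsum (Finset.range m) fun n _ => by positivity

/-- scalar case -/
theorem scal2 (x : ℕ → ℂ) (μ : ℂ) (lam C₀ : ℝ) (r : ℕ) (hl : 0 < lam)
    (hx : ∀ n : ℕ, ‖x (n + 1) - μ * x n‖ ≤ C₀ * ((n : ℝ) + 1) ^ r * lam ^ n) :
    (∃ C₁ : ℝ, 0 ≤ C₁ ∧ ∀ n : ℕ, ‖x n‖ ≤ C₁ * ((n : ℝ) + 1) ^ (r + 1) * lam ^ n) ∨
      (lam < ‖μ‖ ∧ ∃ c C₁ : ℝ, 0 < c ∧ 0 ≤ C₁ ∧ (∃ n₀ : ℕ, ∀ n, n₀ ≤ n → c * ‖μ‖ ^ n ≤ ‖x n‖) ∧
        ∀ n, ‖x n‖ ≤ C₁ * ‖μ‖ ^ n) := by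
  have hC₀ : 0 ≤ C₀ := by
    have := (norm_nonneg _).trans (hx 0)
    simpa using this
  rcases le_or_gt ‖μ‖ lam with hμ | hμ
  · left
    refine ⟨‖x 0‖ + C₀ / lam, by positivity, fun n => ?_⟩
    induction n with
    | zero =>
      simp only [Nat.cast_zero, zero_add, one_pow, mul_one, pow_zero]
      have : 0 ≤ C₀ / lam := by positivity
      linarith
    | succ n ih =>
      set K := ‖x 0‖ + C₀ / lam with hK
      have hK0 : 0 ≤ K := by positivity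
      have hK1 : C₀ ≤ K * lam := by
        rw [hK, add_mul, div_mul_cancel₀ _ hl.ne']
        have : 0 ≤ ‖x 0‖ * lam := by positivity
        linarith
      have h1 : ‖x (n + 1)‖ ≤ ‖x (n + 1) - μ * x n‖ + ‖μ‖ * ‖x n‖ := by
        have := norm_add_le (x (n + 1) - μ * x n) (μ * x n)
        rwa [sub_add_cancel, norm_mul] at this
      have h2 : ‖μ‖ * ‖x n‖ ≤ lam * (K * ((n : ℝ) + 1) ^ (r + 1) * lam ^ n) :=
        mul_le_mul hμ ih (norm_nonneg _) hl.le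
      have h3 : C₀ * ((n : ℝ) + 1) ^ r * lam ^ n ≤ K * lam * ((n : ℝ) + 1) ^ r * lam ^ n := by
        gcongr
      have h4 : ((n : ℝ) + 1) ^ r * ((n : ℝ) + 2) ≤ ((n : ℝ) + 2) ^ (r + 1) := by
        rw [pow_succ]
        gcongr
        linarith
      calc ‖x (n + 1)‖ ≤ C₀ * ((n : ℝ) + 1) ^ r * lam ^ n +
            lam * (K * ((n : ℝ) + 1) ^ (r + 1) * lam ^ n) := by
            linarith [hx n]
        _ ≤ K * lam * ((n : ℝ) + 1) ^ r * lam ^ n +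
            lam * (K * ((n : ℝ) + 1) ^ (r + 1) * lam ^ n) := by linarith
        _ = K * (((n : ℝ) + 1) ^ r * ((n : ℝ) + 2)) * lam ^ (n + 1) := by ring
        _ ≤ K * ((n : ℝ) + 2) ^ (r + 1) * lam ^ (n + 1) := by gcongr
        _ = K * (((n + 1 : ℕ) : ℝ) + 1) ^ (r + 1) * lam ^ (n + 1) := by
            push_cast
            ring
  · have hμ0 : 0 < ‖μ‖ := hl.trans hμ
    set θ := lam / ‖μ‖ with hθ
    have hθ0 : 0 < θ := by positivity
    have hθ1 : θ < 1 := (div_lt_one hμ0).2 hμ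
    obtain ⟨S, hS0, hS⟩ := sum_bound r hθ0 hθ1
    -- two sided bounds
    have hkey : ∀ n₀ m : ℕ, ‖x (n₀ + m)‖ ≤ ‖μ‖ ^ m * (‖x n₀‖ + C₀ / ‖μ‖ * (((n₀ : ℝ) + 1) ^ r * lam ^ n₀ *
          ∑ j ∈ Finset.range m, ((j : ℝ) + 1) ^ r * θ ^ j)) ∧
        ‖μ‖ ^ m * (‖x n₀‖ - C₀ / ‖μ‖ * (((n₀ : ℝ) + 1) ^ r * lam ^ n₀ *
          ∑ j ∈ Finset.range m, ((j : ℝ) + 1) ^ r * θ ^ j)) ≤ ‖x (n₀ + m)‖ := by
      intro n₀ m
      induction m with
      | zero => simp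
      | succ m ih =>
        have h1 : ‖x (n₀ + m + 1)‖ ≤ ‖x (n₀ + m + 1) - μ * x (n₀ + m)‖ + ‖μ‖ * ‖x (n₀ + m)‖ := by
          have := norm_add_le (x (n₀ + m + 1) - μ * x (n₀ + m)) (μ * x (n₀ + m))
          rwa [sub_add_cancel, norm_mul] at this
        have h2 : ‖μ‖ * ‖x (n₀ + m)‖ ≤ ‖x (n₀ + m + 1)‖ + ‖x (n₀ + m + 1) - μ * x (n₀ + m)‖ := by
          have := norm_sub_le (x (n₀ + m + 1)) (x (n₀ + m + 1) - μ * x (n₀ + m))
          rwa [sub_sub_cancel, norm_mul] at this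
        have h3 := hx (n₀ + m)
        have h4 : C₀ * (((n₀ + m : ℕ) : ℝ) + 1) ^ r * lam ^ (n₀ + m) ≤
            ‖μ‖ ^ (m + 1) * (C₀ / ‖μ‖ * (((n₀ : ℝ) + 1) ^ r * lam ^ n₀ * (((m : ℝ) + 1) ^ r * θ ^ m))) := by
          have h5 : (((n₀ + m : ℕ) : ℝ) + 1) ^ r ≤ ((n₀ : ℝ) + 1) ^ r * ((m : ℝ) + 1) ^ r := by
            rw [← mul_pow]
            refine pow_le_pow_left₀ (by positivity) ?_ r
            push_cast
            have : (0 : ℝ) ≤ (n₀ : ℝ) * m := by positivity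
            linarith
          have h6 : ‖μ‖ ^ (m + 1) * (C₀ / ‖μ‖ * (((n₀ : ℝ) + 1) ^ r * lam ^ n₀ * (((m : ℝ) + 1) ^ r * θ ^ m))) =
              C₀ * (((n₀ : ℝ) + 1) ^ r * ((m : ℝ) + 1) ^ r) * lam ^ (n₀ + m) := by
            rw [hθ, div_pow, pow_succ, pow_add]
            field_simp
          rw [h6]
          gcongr
        rw [Finset.sum_range_succ, ← add_assoc]
        have h7 : ‖μ‖ ^ (m + 1) * (‖x n₀‖ + C₀ / ‖μ‖ * (((n₀ : ℝ) + 1) ^ r * lam ^ n₀ *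
            (∑ j ∈ Finset.range m, ((j : ℝ) + 1) ^ r * θ ^ j + ((m : ℝ) + 1) ^ r * θ ^ m))) =
            ‖μ‖ * (‖μ‖ ^ m * (‖x n₀‖ + C₀ / ‖μ‖ * (((n₀ : ℝ) + 1) ^ r * lam ^ n₀ *
            ∑ j ∈ Finset.range m, ((j : ℝ) + 1) ^ r * θ ^ j))) +
            ‖μ‖ ^ (m + 1) * (C₀ / ‖μ‖ * (((n₀ : ℝ) + 1) ^ r * lam ^ n₀ * (((m : ℝ) + 1) ^ r * θ ^ m))) := by
          ring
        have h8 : ‖μ‖ ^ (m + 1) * (‖x n₀‖ - C₀ / ‖μ‖ * (((n₀ : ℝ) + 1) ^ r * lam ^ n₀ *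
            (∑ j ∈ Finset.range m, ((j : ℝ) + 1) ^ r * θ ^ j + ((m : ℝ) + 1) ^ r * θ ^ m))) =
            ‖μ‖ * (‖μ‖ ^ m * (‖x n₀‖ - C₀ / ‖μ‖ * (((n₀ : ℝ) + 1) ^ r * lam ^ n₀ *
            ∑ j ∈ Finset.range m, ((j : ℝ) + 1) ^ r * θ ^ j))) -
            ‖μ‖ ^ (m + 1) * (C₀ / ‖μ‖ * (((n₀ : ℝ) + 1) ^ r * lam ^ n₀ * (((m : ℝ) + 1) ^ r * θ ^ m))) := by
          ring
        rw [h7, h8]
        have h9 := mul_le_mul_of_nonneg_left ih.1 hμ0.le
        have h10 := mul_le_mul_of_nonneg_left ih.2 hμ0.le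
        constructor <;> linarith
    by_cases hall : ∀ n : ℕ, ‖x n‖ ≤ C₀ / ‖μ‖ * S * ((n : ℝ) + 1) ^ r * lam ^ n
    · left
      refine ⟨C₀ / ‖μ‖ * S, by positivity, fun n => (hall n).trans ?_⟩
      have h1 : ((n : ℝ) + 1) ^ r ≤ ((n : ℝ) + 1) ^ (r + 1) := by
        refine pow_le_pow_right₀ ?_ (Nat.le_succ r)
        have : (0 : ℝ) ≤ n := Nat.cast_nonneg n
        linarith
      gcongr
    · right
      push Not at hall
      obtain ⟨n₀, hn₀⟩ := hall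
      refine ⟨hμ, (‖x n₀‖ - C₀ / ‖μ‖ * S * ((n₀ : ℝ) + 1) ^ r * lam ^ n₀) / ‖μ‖ ^ n₀,
        ‖x 0‖ + C₀ / ‖μ‖ * S, div_pos (by linarith) (by positivity), by positivity,
        ⟨n₀, fun n hn => ?_⟩, fun n => ?_⟩
      · obtain ⟨m, rfl⟩ := Nat.exists_eq_add_of_le hn
        have h1 := (hkey n₀ m).2
        have h2 : C₀ / ‖μ‖ * (((n₀ : ℝ) + 1) ^ r * lam ^ n₀ *
            ∑ j ∈ Finset.range m, ((j : ℝ) + 1) ^ r * θ ^ j) ≤
            C₀ / ‖μ‖ * S * ((n₀ : ℝ) + 1) ^ r * lam ^ n₀ := by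
          have h3 : ((n₀ : ℝ) + 1) ^ r * lam ^ n₀ * ∑ j ∈ Finset.range m, ((j : ℝ) + 1) ^ r * θ ^ j ≤
              ((n₀ : ℝ) + 1) ^ r * lam ^ n₀ * S := mul_le_mul_of_nonneg_left (hS m) (by positivity)
          have h4 := mul_le_mul_of_nonneg_left h3 (by positivity : 0 ≤ C₀ / ‖μ‖)
          linarith
        have h5 : ‖μ‖ ^ m * (‖x n₀‖ - C₀ / ‖μ‖ * S * ((n₀ : ℝ) + 1) ^ r * lam ^ n₀) ≤
            ‖μ‖ ^ m * (‖x n₀‖ - C₀ / ‖μ‖ * (((n₀ : ℝ) + 1) ^ r * lam ^ n₀ *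
            ∑ j ∈ Finset.range m, ((j : ℝ) + 1) ^ r * θ ^ j)) :=
          mul_le_mul_of_nonneg_left (by linarith) (by positivity)
        refine le_trans (le_of_eq ?_) (h5.trans h1)
        rw [pow_add]
        field_simp
      · have h1 := (hkey 0 n).1
        simp only [zero_add, Nat.cast_zero, one_pow, pow_zero, one_mul, mul_one] at h1
        refine h1.trans ?_
        have h2 : C₀ / ‖μ‖ * ∑ j ∈ Finset.range n, ((j : ℝ) + 1) ^ r * θ ^ j ≤ C₀ / ‖μ‖ * S :=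
          mul_le_mul_of_nonneg_left (hS n) (by positivity)
        rw [mul_comm]
        gcongr

/-- comparison: a slower term does not matter -/
theorem slow {c ρ ρ' K : ℝ} (r : ℕ) (hc : 0 < c) (hρ : 0 < ρ) (hρ' : ρ < ρ') :
    ∃ n₁ : ℕ, ∀ n, n₁ ≤ n → K * ((n : ℝ) + 1) ^ r * ρ ^ n ≤ c / 2 * ρ' ^ n := by
  have hρ0 : 0 < ρ' := hρ.trans hρ'
  have h1 : Tendsto (fun n : ℕ => (n : ℝ) ^ r * (ρ / ρ') ^ n) atTop (𝓝 0) :=
    tendsto_pow_const_mul_const_pow_of_lt_one r (by positivity) ((div_lt_one hρ0).2 hρ')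
  have h2 : Tendsto (fun n : ℕ => K * ((((n + 1 : ℕ) : ℝ)) ^ r * (ρ / ρ') ^ (n + 1)) * (ρ' / ρ)) atTop
      (𝓝 (K * 0 * (ρ' / ρ))) := ((h1.comp (tendsto_add_atTop_nat 1)).const_mul K).mul_const _
  rw [mul_zero, zero_mul] at h2
  obtain ⟨n₁, hn₁⟩ := eventually_atTop.1 (h2.eventually (gt_mem_nhds (by positivity : (0 : ℝ) < c / 2)))
  refine ⟨n₁, fun n hn => ?_⟩
  have h3 := hn₁ n hn
  have h4 : K * ((((n + 1 : ℕ) : ℝ)) ^ r * (ρ / ρ') ^ (n + 1)) * (ρ' / ρ) =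
      K * ((n : ℝ) + 1) ^ r * ρ ^ n / ρ' ^ n := by
    push_cast
    rw [div_pow, pow_succ, pow_succ]
    field_simp
  rw [h4, div_lt_iff₀ (by positivity)] at h3
  exact h3.le

/-- **Growth of perturbed linear recurrences.** -/
theorem grow : ∀ (d : ℕ) (V : Type) [NormedAddCommGroup V] [NormedSpace ℂ V]
    [FiniteDimensional ℂ V] (A : V →ₗ[ℂ] V) (w : ℕ → V) (lam C₀ : ℝ) (r : ℕ),
    Module.finrank ℂ V = d → 0 < lam →
    (∀ n : ℕ, ‖w (n + 1) - A (w n)‖ ≤ C₀ * ((n : ℝ) + 1) ^ r * lam ^ n) →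
      (∃ C₁ : ℝ, 0 ≤ C₁ ∧ ∀ n : ℕ, ‖w n‖ ≤ C₁ * ((n : ℝ) + 1) ^ (r + d) * lam ^ n) ∨
        ∃ μ : ℂ, Module.End.HasEigenvalue A μ ∧ lam < ‖μ‖ ∧ ∃ c C₁ : ℝ, 0 < c ∧ 0 ≤ C₁ ∧
          (∃ n₀ : ℕ, ∀ n, n₀ ≤ n → c * ‖μ‖ ^ n ≤ ‖w n‖) ∧
            ∀ n : ℕ, ‖w n‖ ≤ C₁ * ((n : ℝ) + 1) ^ d * ‖μ‖ ^ n := by
  intro d
  induction d using Nat.strong_induction_on with
  | _ d ih =>
    intro V _ _ _ A w lam C₀ r hd hl hw
    have hone : ∀ n : ℕ, (1 : ℝ) ≤ (n : ℝ) + 1 := fun n => by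
      have : (0 : ℝ) ≤ n := Nat.cast_nonneg n
      linarith
    rcases subsingleton_or_nontrivial V with hV | hV
    · left
      refine ⟨0, le_rfl, fun n => ?_⟩
      rw [Subsingleton.elim (w n) 0, norm_zero, zero_mul, zero_mul]
    · have hd0 : 0 < d := by rw [← hd]; exact Module.finrank_pos
      -- the linear form
      obtain ⟨μ, hμ⟩ := Module.End.exists_eigenvalue A
      obtain ⟨v, hv⟩ := hμ.exists_hasEigenvector
      have hninj : ¬ Function.Injective (A - μ • (LinearMap.id : V →ₗ[ℂ] V)) := by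
        intro hinj
        apply hv.2
        apply hinj
        rw [map_zero, LinearMap.sub_apply, LinearMap.smul_apply, LinearMap.id_apply,
          hv.apply_eq_smul, sub_self]
      have hrange : LinearMap.range (A - μ • (LinearMap.id : V →ₗ[ℂ] V)) < ⊤ := by
        rw [lt_top_iff_ne_top]
        intro h
        exact hninj (LinearMap.injective_iff_surjective.2 (LinearMap.range_eq_top.1 h))
      obtain ⟨φ, hφ0, hφ⟩ := Submodule.exists_le_ker_of_lt_top _ hrange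
      have hφA : ∀ u, φ (A u) = μ * φ u := by
        intro u
        have h2 : φ ((A - μ • (LinearMap.id : V →ₗ[ℂ] V)) u) = 0 :=
          LinearMap.mem_ker.1 (hφ (LinearMap.mem_range_self _ u))
        rw [LinearMap.sub_apply, LinearMap.smul_apply, LinearMap.id_apply, map_sub, map_smul,
          smul_eq_mul, sub_eq_zero] at h2
        exact h2
      obtain ⟨v₁, hv₁⟩ : ∃ v₁, φ v₁ ≠ 0 := by
        by_contra h
        push Not at h
        exact hφ0 (LinearMap.ext h)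
      set v₀ := (φ v₁)⁻¹ • v₁ with hv₀
      have hφv₀ : φ v₀ = 1 := by
        rw [hv₀, map_smul, smul_eq_mul, inv_mul_cancel₀ hv₁]
      set Φ := LinearMap.toContinuousLinearMap φ with hΦ
      have hΦφ : ∀ u, ‖φ u‖ ≤ ‖Φ‖ * ‖u‖ := fun u => Φ.le_opNorm u
      have hΦ0 : 0 < ‖Φ‖ := by
        have h3 := hΦφ v₀
        rw [hφv₀, norm_one] at h3
        by_contra h
        have : ‖Φ‖ = 0 := le_antisymm (not_lt.1 h) (norm_nonneg _)
        rw [this, zero_mul] at h3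
        linarith
      have hC₀ : 0 ≤ C₀ := by
        have := (norm_nonneg _).trans (hw 0)
        simpa using this
      have hsc : ∀ n : ℕ, ‖φ (w (n + 1)) - μ * φ (w n)‖ ≤ (‖Φ‖ * C₀) * ((n : ℝ) + 1) ^ r * lam ^ n := by
        intro n
        rw [← hφA, ← map_sub]
        calc ‖φ (w (n + 1) - A (w n))‖ ≤ ‖Φ‖ * ‖w (n + 1) - A (w n)‖ := hΦφ _
          _ ≤ ‖Φ‖ * (C₀ * ((n : ℝ) + 1) ^ r * lam ^ n) := mul_le_mul_of_nonneg_left (hw n) (norm_nonneg _)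
          _ = _ := by ring
      -- the kernel
      set W := LinearMap.ker φ with hW
      have hAW : ∀ u ∈ W, A u ∈ W := by
        intro u hu
        rw [hW, LinearMap.mem_ker] at hu ⊢
        rw [hφA, hu, mul_zero]
      have hmem : ∀ n, w n - φ (w n) • v₀ ∈ W := by
        intro n
        rw [hW, LinearMap.mem_ker, map_sub, map_smul, hφv₀, smul_eq_mul, mul_one, sub_self]
      have hWlt : Module.finrank ℂ W < d := by
        rw [← hd]
        apply Submodule.finrank_lt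
        intro h
        have : v₁ ∈ W := by rw [h]; trivial
        exact hv₁ (LinearMap.mem_ker.1 this)
      have heig : ∀ μ' : ℂ, Module.End.HasEigenvalue (A.restrict hAW) μ' → Module.End.HasEigenvalue A μ' := by
        intro μ' hμ'
        obtain ⟨u, hu⟩ := hμ'.exists_hasEigenvector
        apply Module.End.hasEigenvalue_of_hasEigenvector (x := (u : V))
        constructor
        · rw [Module.End.mem_eigenspace_iff]
          have h3 := congrArg Subtype.val hu.apply_eq_smul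
          simpa using h3
        · intro h
          exact hu.2 (Subtype.ext h)
      -- the recursion in the kernel
      have hrec : ∀ (K ρ : ℝ) (s : ℕ), 0 ≤ K → lam ≤ ρ → r ≤ s →
          (∀ n : ℕ, ‖φ (w n)‖ ≤ K * ((n : ℝ) + 1) ^ s * ρ ^ n) →
          ∃ C : ℝ, ∀ n : ℕ, ‖(w (n + 1) - φ (w (n + 1)) • v₀) - A (w n - φ (w n) • v₀)‖ ≤
            C * ((n : ℝ) + 1) ^ s * ρ ^ n := by
        intro K ρ s hK hρ hs hKn
        have hρ0 : 0 < ρ := hl.trans_le hρ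
        refine ⟨C₀ + K * 2 ^ s * ρ * ‖v₀‖ + K * ‖A v₀‖, fun n => ?_⟩
        have h4 : (w (n + 1) - φ (w (n + 1)) • v₀) - A (w n - φ (w n) • v₀) =
            (w (n + 1) - A (w n)) - φ (w (n + 1)) • v₀ + φ (w n) • A v₀ := by
          rw [map_sub, map_smul]; abel
        rw [h4]
        have h5 : ‖φ (w (n + 1)) • v₀‖ ≤ (K * 2 ^ s * ρ * ‖v₀‖) * ((n : ℝ) + 1) ^ s * ρ ^ n := by
          rw [norm_smul]
          have h6 := hKn (n + 1)
          have h7 : (((n + 1 : ℕ) : ℝ) + 1) ^ s ≤ 2 ^ s * ((n : ℝ) + 1) ^ s := by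
            rw [← mul_pow]
            refine pow_le_pow_left₀ (by positivity) ?_ s
            push_cast
            have := hone n
            linarith
          calc ‖φ (w (n + 1))‖ * ‖v₀‖ ≤ (K * (((n + 1 : ℕ) : ℝ) + 1) ^ s * ρ ^ (n + 1)) * ‖v₀‖ :=
                mul_le_mul_of_nonneg_right h6 (norm_nonneg _)
            _ ≤ (K * (2 ^ s * ((n : ℝ) + 1) ^ s) * ρ ^ (n + 1)) * ‖v₀‖ := by gcongr
            _ = _ := by rw [pow_succ]; ring
        have h6 : ‖φ (w n) • A v₀‖ ≤ (K * ‖A v₀‖) * ((n : ℝ) + 1) ^ s * ρ ^ n := by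
          rw [norm_smul]
          calc ‖φ (w n)‖ * ‖A v₀‖ ≤ (K * ((n : ℝ) + 1) ^ s * ρ ^ n) * ‖A v₀‖ :=
                mul_le_mul_of_nonneg_right (hKn n) (norm_nonneg _)
            _ = _ := by ring
        have h7 : ‖w (n + 1) - A (w n)‖ ≤ C₀ * ((n : ℝ) + 1) ^ s * ρ ^ n := by
          refine (hw n).trans ?_
          have h8 : ((n : ℝ) + 1) ^ r ≤ ((n : ℝ) + 1) ^ s := pow_le_pow_right₀ (hone n) hs
          have h9 : lam ^ n ≤ ρ ^ n := pow_le_pow_left₀ hl.le hρ n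
          gcongr
        calc ‖(w (n + 1) - A (w n)) - φ (w (n + 1)) • v₀ + φ (w n) • A v₀‖
            ≤ ‖(w (n + 1) - A (w n)) - φ (w (n + 1)) • v₀‖ + ‖φ (w n) • A v₀‖ := norm_add_le _ _
          _ ≤ (‖w (n + 1) - A (w n)‖ + ‖φ (w (n + 1)) • v₀‖) + ‖φ (w n) • A v₀‖ := by
              gcongr; exact norm_sub_le _ _
          _ ≤ (C₀ * ((n : ℝ) + 1) ^ s * ρ ^ n + (K * 2 ^ s * ρ * ‖v₀‖) * ((n : ℝ) + 1) ^ s * ρ ^ n) +
              (K * ‖A v₀‖) * ((n : ℝ) + 1) ^ s * ρ ^ n := add_le_add (add_le_add h7 h5) h6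
          _ = _ := by ring
      have hsplit : ∀ n, ‖w n‖ ≤ ‖w n - φ (w n) • v₀‖ + ‖φ (w n)‖ * ‖v₀‖ := by
        intro n
        have := norm_add_le (w n - φ (w n) • v₀) (φ (w n) • v₀)
        rwa [sub_add_cancel, norm_smul] at this
      have hsplit2 : ∀ n, ‖w n - φ (w n) • v₀‖ ≤ ‖w n‖ + ‖φ (w n)‖ * ‖v₀‖ := by
        intro n
        have := norm_sub_le (w n) (φ (w n) • v₀)
        rwa [norm_smul] at this
      -- the case of a dominant eigenvalue in the kernel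
      have hdom : ∀ (K ρ : ℝ) (s : ℕ) (μ' : ℂ), 0 ≤ K → 0 < ρ → ρ < ‖μ'‖ →
          (∀ n : ℕ, ‖φ (w n)‖ ≤ K * ((n : ℝ) + 1) ^ s * ρ ^ n) →
          (∃ c C₁ : ℝ, 0 < c ∧ 0 ≤ C₁ ∧
            (∃ n₀ : ℕ, ∀ n, n₀ ≤ n → c * ‖μ'‖ ^ n ≤ ‖w n - φ (w n) • v₀‖) ∧
            ∀ n : ℕ, ‖w n - φ (w n) • v₀‖ ≤ C₁ * ((n : ℝ) + 1) ^ (Module.finrank ℂ W) * ‖μ'‖ ^ n) →
          ∃ c C₁ : ℝ, 0 < c ∧ 0 ≤ C₁ ∧ (∃ n₀ : ℕ, ∀ n, n₀ ≤ n → c * ‖μ'‖ ^ n ≤ ‖w n‖) ∧
            ∀ n : ℕ, ‖w n‖ ≤ C₁ * ((n : ℝ) + 1) ^ d * ‖μ'‖ ^ n := by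
        intro K ρ s μ' hK hρ hρμ hKn ⟨c, C₁, hc, hC₁, ⟨n₀, hlow⟩, hup⟩
        obtain ⟨n₁, hn₁⟩ := slow (K := K * ‖v₀‖) s hc hρ hρμ
        -- a bound for all `n`
        obtain ⟨n₂, hn₂⟩ := slow (K := K * ‖v₀‖) s (by norm_num : (0 : ℝ) < 2) hρ hρμ
        have hμ'0 : 0 < ‖μ'‖ := hρ.trans hρμ
        set S : ℝ := ∑ i ∈ Finset.range n₂, K * ‖v₀‖ * ((i : ℝ) + 1) ^ s * ρ ^ i / ‖μ'‖ ^ i with hS
        have hS0 : 0 ≤ S := Finset.sum_nonneg fun i _ => by positivity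
        have hall : ∀ n : ℕ, K * ‖v₀‖ * ((n : ℝ) + 1) ^ s * ρ ^ n ≤ (1 + S) * ‖μ'‖ ^ n := by
          intro n
          rcases le_or_gt n₂ n with h | h
          · have h1 := hn₂ n h
            have h2 : 0 ≤ S * ‖μ'‖ ^ n := by positivity
            linarith
          · have h1 : K * ‖v₀‖ * ((n : ℝ) + 1) ^ s * ρ ^ n / ‖μ'‖ ^ n ≤ S :=
              Finset.single_le_sum (f := fun i : ℕ => K * ‖v₀‖ * ((i : ℝ) + 1) ^ s * ρ ^ i / ‖μ'‖ ^ i)
                (fun i _ => by positivity) (Finset.mem_range.2 h)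
            rw [div_le_iff₀ (by positivity)] at h1
            have h2 : 0 ≤ ‖μ'‖ ^ n := by positivity
            linarith
        have hφb : ∀ n : ℕ, ‖φ (w n)‖ * ‖v₀‖ ≤ K * ‖v₀‖ * ((n : ℝ) + 1) ^ s * ρ ^ n := by
          intro n
          have := mul_le_mul_of_nonneg_right (hKn n) (norm_nonneg v₀)
          linarith
        refine ⟨c / 2, C₁ + (1 + S), by positivity, by positivity, ⟨max n₀ n₁, fun n hn => ?_⟩,
          fun n => ?_⟩
        · have h1 := hlow n (le_trans (le_max_left _ _) hn)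
          have h2 := hn₁ n (le_trans (le_max_right _ _) hn)
          have h3 := hsplit2 n
          have h4 := hφb n
          linarith
        · have h1 := hup n
          have h2 := hsplit n
          have h3 := (hφb n).trans (hall n)
          have h4 : ((n : ℝ) + 1) ^ (Module.finrank ℂ W) ≤ ((n : ℝ) + 1) ^ d :=
            pow_le_pow_right₀ (hone n) hWlt.le
          have h5 : C₁ * ((n : ℝ) + 1) ^ (Module.finrank ℂ W) * ‖μ'‖ ^ n ≤
              C₁ * ((n : ℝ) + 1) ^ d * ‖μ'‖ ^ n := by gcongr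
          have h6 : (1 : ℝ) ≤ ((n : ℝ) + 1) ^ d := one_le_pow₀ (hone n)
          have h7 : (1 + S) * ‖μ'‖ ^ n ≤ (1 + S) * ‖μ'‖ ^ n * ((n : ℝ) + 1) ^ d :=
            le_mul_of_one_le_right (by positivity) h6
          linarith
      rcases scal2 (fun n => φ (w n)) μ lam _ r hl hsc with ⟨K, hK0, hK⟩ | ⟨hlμ, c, K, hc, hK0, ⟨n₀, hn⟩, hK⟩
      · -- the scalar sequence is small
        obtain ⟨C, hC⟩ := hrec K lam (r + 1) hK0 le_rfl (Nat.le_succ r) hK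
        rcases ih _ hWlt W (A.restrict hAW) (fun n => ⟨w n - φ (w n) • v₀, hmem n⟩) lam C (r + 1) rfl hl
          (fun n => hC n) with ⟨C₁, hC₁, h⟩ | ⟨μ', hμ', hlμ', c, C₁, hc, hC₁, hlow, hup⟩
        · left
          refine ⟨C₁ + K * ‖v₀‖, by positivity, fun n => ?_⟩
          have h1 : ‖w n - φ (w n) • v₀‖ ≤ C₁ * ((n : ℝ) + 1) ^ (r + 1 + Module.finrank ℂ W) * lam ^ n := h n
          have h2 : ((n : ℝ) + 1) ^ (r + 1 + Module.finrank ℂ W) ≤ ((n : ℝ) + 1) ^ (r + d) :=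
            pow_le_pow_right₀ (hone n) (by omega)
          have h3 : ((n : ℝ) + 1) ^ (r + 1) ≤ ((n : ℝ) + 1) ^ (r + d) :=
            pow_le_pow_right₀ (hone n) (by omega)
          have h4 : C₁ * ((n : ℝ) + 1) ^ (r + 1 + Module.finrank ℂ W) * lam ^ n ≤
              C₁ * ((n : ℝ) + 1) ^ (r + d) * lam ^ n := by gcongr
          have h5 : K * ((n : ℝ) + 1) ^ (r + 1) * lam ^ n * ‖v₀‖ ≤
              K * ((n : ℝ) + 1) ^ (r + d) * lam ^ n * ‖v₀‖ := by gcongr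
          have h6 := mul_le_mul_of_nonneg_right (hK n) (norm_nonneg v₀)
          have h7 := hsplit n
          linarith
        · right
          exact ⟨μ', heig μ' hμ', hlμ', hdom K lam (r + 1) μ' hK0 hl hlμ' hK ⟨c, C₁, hc, hC₁, hlow, hup⟩⟩
      · -- the scalar sequence is large
        have hμ0 : 0 < ‖μ‖ := hl.trans hlμ
        have hK' : ∀ n : ℕ, ‖φ (w n)‖ ≤ K * ((n : ℝ) + 1) ^ r * ‖μ‖ ^ n := by
          intro n
          refine (hK n).trans ?_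
          have h1 : (1 : ℝ) ≤ ((n : ℝ) + 1) ^ r := one_le_pow₀ (hone n)
          have h2 : K * ‖μ‖ ^ n ≤ K * ‖μ‖ ^ n * ((n : ℝ) + 1) ^ r :=
            le_mul_of_one_le_right (by positivity) h1
          linarith
        have hlow' : ∀ n : ℕ, n₀ ≤ n → c / ‖Φ‖ * ‖μ‖ ^ n ≤ ‖w n‖ := by
          intro n hnn
          have h3 := (hn n hnn).trans (hΦφ (w n))
          rw [div_mul_eq_mul_div, div_le_iff₀ hΦ0, mul_comm ‖w n‖]
          exact h3
        -- the errors are `O(‖μ‖ ^ n)`: use `r = 0`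
        have hKz : ∀ n : ℕ, ‖φ (w n)‖ ≤ K * ((n : ℝ) + 1) ^ 0 * ‖μ‖ ^ n := by
          intro n
          rw [pow_zero, mul_one]
          exact hK n
        obtain ⟨C, hC⟩ : ∃ C : ℝ, ∀ n : ℕ,
            ‖(w (n + 1) - φ (w (n + 1)) • v₀) - A (w n - φ (w n) • v₀)‖ ≤
              C * ((n : ℝ) + 1) ^ 0 * ‖μ‖ ^ n := by
          obtain ⟨n₂, hn₂⟩ := slow (K := C₀) r (by norm_num : (0 : ℝ) < 2) hl hlμ
          set S : ℝ := ∑ i ∈ Finset.range n₂, C₀ * ((i : ℝ) + 1) ^ r * lam ^ i / ‖μ‖ ^ i with hS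
          have hS0 : 0 ≤ S := Finset.sum_nonneg fun i _ => by positivity
          have hall : ∀ n : ℕ, C₀ * ((n : ℝ) + 1) ^ r * lam ^ n ≤ (1 + S) * ‖μ‖ ^ n := by
            intro n
            rcases le_or_gt n₂ n with h | h
            · have h1 := hn₂ n h
              have h2 : 0 ≤ S * ‖μ‖ ^ n := by positivity
              linarith
            · have h1 : C₀ * ((n : ℝ) + 1) ^ r * lam ^ n / ‖μ‖ ^ n ≤ S :=
                Finset.single_le_sum (f := fun i : ℕ => C₀ * ((i : ℝ) + 1) ^ r * lam ^ i / ‖μ‖ ^ i)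
                  (fun i _ => by positivity) (Finset.mem_range.2 h)
              rw [div_le_iff₀ (by positivity)] at h1
              have h2 : 0 ≤ ‖μ‖ ^ n := by positivity
              linarith
          refine ⟨(1 + S) + K * ‖μ‖ * ‖v₀‖ + K * ‖A v₀‖, fun n => ?_⟩
          have h4 : (w (n + 1) - φ (w (n + 1)) • v₀) - A (w n - φ (w n) • v₀) =
              (w (n + 1) - A (w n)) - φ (w (n + 1)) • v₀ + φ (w n) • A v₀ := by
            rw [map_sub, map_smul]; abel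
          rw [h4, pow_zero, mul_one]
          have h5 : ‖φ (w (n + 1)) • v₀‖ ≤ (K * ‖μ‖ * ‖v₀‖) * ‖μ‖ ^ n := by
            rw [norm_smul]
            calc ‖φ (w (n + 1))‖ * ‖v₀‖ ≤ (K * ‖μ‖ ^ (n + 1)) * ‖v₀‖ :=
                  mul_le_mul_of_nonneg_right (hK (n + 1)) (norm_nonneg _)
              _ = _ := by rw [pow_succ]; ring
          have h6 : ‖φ (w n) • A v₀‖ ≤ (K * ‖A v₀‖) * ‖μ‖ ^ n := by
            rw [norm_smul]
            calc ‖φ (w n)‖ * ‖A v₀‖ ≤ (K * ‖μ‖ ^ n) * ‖A v₀‖ :=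
                  mul_le_mul_of_nonneg_right (hK n) (norm_nonneg _)
              _ = _ := by ring
          calc ‖(w (n + 1) - A (w n)) - φ (w (n + 1)) • v₀ + φ (w n) • A v₀‖
              ≤ ‖(w (n + 1) - A (w n)) - φ (w (n + 1)) • v₀‖ + ‖φ (w n) • A v₀‖ := norm_add_le _ _
            _ ≤ (‖w (n + 1) - A (w n)‖ + ‖φ (w (n + 1)) • v₀‖) + ‖φ (w n) • A v₀‖ := by
                gcongr; exact norm_sub_le _ _
            _ ≤ ((1 + S) * ‖μ‖ ^ n + (K * ‖μ‖ * ‖v₀‖) * ‖μ‖ ^ n) + (K * ‖A v₀‖) * ‖μ‖ ^ n :=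
                add_le_add (add_le_add ((hw n).trans (hall n)) h5) h6
            _ = _ := by ring
        right
        rcases ih _ hWlt W (A.restrict hAW) (fun n => ⟨w n - φ (w n) • v₀, hmem n⟩) ‖μ‖ C 0 rfl hμ0
          (fun n => hC n) with ⟨C₁, hC₁, h⟩ | ⟨μ', hμ', hlμ', c', C₁, hc', hC₁, hlow, hup⟩
        · refine ⟨μ, hμ, hlμ, c / ‖Φ‖, C₁ + K * ‖v₀‖, by positivity, by positivity, ⟨n₀, hlow'⟩,
            fun n => ?_⟩
          have h1 : ‖w n - φ (w n) • v₀‖ ≤ C₁ * ((n : ℝ) + 1) ^ (0 + Module.finrank ℂ W) * ‖μ‖ ^ n := h n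
          have h2 : ((n : ℝ) + 1) ^ (0 + Module.finrank ℂ W) ≤ ((n : ℝ) + 1) ^ d :=
            pow_le_pow_right₀ (hone n) (by omega)
          have h4 : C₁ * ((n : ℝ) + 1) ^ (0 + Module.finrank ℂ W) * ‖μ‖ ^ n ≤
              C₁ * ((n : ℝ) + 1) ^ d * ‖μ‖ ^ n := by gcongr
          have h3 : (1 : ℝ) ≤ ((n : ℝ) + 1) ^ d := one_le_pow₀ (hone n)
          have h6 := mul_le_mul_of_nonneg_right (hK n) (norm_nonneg v₀)
          have h5 : K * ‖μ‖ ^ n * ‖v₀‖ ≤ K * ‖μ‖ ^ n * ‖v₀‖ * ((n : ℝ) + 1) ^ d :=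
            le_mul_of_one_le_right (by positivity) h3
          have h7 := hsplit n
          linarith
        · exact ⟨μ', heig μ' hμ', hlμ.trans hlμ',
            hdom K ‖μ‖ 0 μ' hK0 hμ0 hlμ' hKz ⟨c', C₁, hc', hC₁, hlow, hup⟩⟩

end Pool.Agent.Helper80.HD
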