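import Mathlib

/-!
# Project HD (MP_6af536_nt): the statement.

Higher arithmetic degrees of subvarieties under a regular self-map of a projective variety.

`K` is a number field inside `ℂ` (`[Algebra K ℂ]`).  A point of `ℙ^N(ℂ)` is given by a nonzero vector
`x : Fin (N+1) → ℂ`.  The irreducible closed subvarieties `V` of dimension `k` of `ℙ^N`, defined over `K`, are the
`K`-closures of the points `x` such that the field `K(x)` generated by the ratios of the coordinates has
transcendence degree `k` over `K`.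
-/

set_option autoImplicit false

open MvPolynomial Filter Topology

noncomputable section

namespace Pool.Agent.Helper80.HD

/-! ## Fields, resultant forms and Chow forms -/

section forms

variable (K : Type) [Field K] [Algebra K ℂ]

/-- The field `K(x)` generated over `K` by the ratios of the coordinates of `x` (the function field of the `K`-closure of
the point `x`). -/
def ratioField {N : ℕ} (x : Fin (N + 1) → ℂ) : IntermediateField K ℂ :=
  IntermediateField.adjoin K {c | ∃ i j, c = x i / x j}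

/-- The polynomial `Q` over `K`, in `r` blocks of `N + 1` variables, vanishes at all `r`-tuples of hyperplanes
`u_i` such that `u_i` contains the point `z_i`. -/
def Vanishes {r N : ℕ} (z : Fin r → Fin (N + 1) → ℂ) (Q : MvPolynomial (Fin r × Fin (N + 1)) K) : Prop :=
  ∀ u : Fin r × Fin (N + 1) → ℂ, (∀ i, ∑ j, u (i, j) * z i j = 0) → aeval u Q = 0

/-- `P` generates the ideal of all these polynomials. -/
def IsRes {r N : ℕ} (z : Fin r → Fin (N + 1) → ℂ) (P : MvPolynomial (Fin r × Fin (N + 1)) K) : Prop :=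
  ∀ Q : MvPolynomial (Fin r × Fin (N + 1)) K, P ∣ Q ↔ Vanishes K z Q

open Classical in
/-- The (mixed) resultant form of the points `z_0, …, z_{r-1}`: a generator of the ideal, `0` if there is none.
(It is unique up to a factor in `K^*`.) -/
def resForm {r N : ℕ} (z : Fin r → Fin (N + 1) → ℂ) : MvPolynomial (Fin r × Fin (N + 1)) K :=
  if h : ∃ P, IsRes K z P then h.choose else 0

/-- The Chow form of the `K`-closure `V` of the point `x`, for `dim V = k`: the generator of the ideal of all polynomials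
over `K` in `k + 1` blocks of variables that vanish at all `(k+1)`-tuples of hyperplanes through `x`. -/
def chowForm (k : ℕ) {N : ℕ} (x : Fin (N + 1) → ℂ) : MvPolynomial (Fin (k + 1) × Fin (N + 1)) K :=
  resForm K fun _ : Fin (k + 1) => x

end forms

/-! ## Regular self-maps -/

/-- A projective set `X ⊂ ℙ^N` over `K` together with a regular self-map `f : X → X` over `K`, given by finitely many
local formulas. -/
structure RMap (K : Type) [Field K] [Algebra K ℂ] (N : ℕ) where
  /-- equations of `X` -/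
  eqs : Set (MvPolynomial (Fin (N + 1)) K)
  eqs_homog : ∀ E ∈ eqs, ∃ d, E.IsHomogeneous d
  /-- number of local formulas -/
  r : ℕ
  /-- the degrees of the formulas -/
  deg : Fin r → ℕ
  /-- `x ↦ (G l 0 (x) : … : G l N (x))` -/
  G : Fin r → Fin (N + 1) → MvPolynomial (Fin (N + 1)) K
  G_homog : ∀ l j, (G l j).IsHomogeneous (deg l)
  /-- at every point of `X` some formula is defined -/
  cover : ∀ x : Fin (N + 1) → ℂ, x ≠ 0 → (∀ E ∈ eqs, aeval x E = 0) → ∃ l j, aeval x (G l j) ≠ 0
  /-- the formulas agree -/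
  agree : ∀ x : Fin (N + 1) → ℂ, x ≠ 0 → (∀ E ∈ eqs, aeval x E = 0) → ∀ l l' i j,
    aeval x (G l i) * aeval x (G l' j) = aeval x (G l j) * aeval x (G l' i)
  /-- `f` maps `X` to `X` -/
  maps : ∀ x : Fin (N + 1) → ℂ, x ≠ 0 → (∀ E ∈ eqs, aeval x E = 0) → ∀ l, ∀ E ∈ eqs,
    aeval (fun j => aeval x (G l j)) E = 0

section maps

variable {K : Type} [Field K] [Algebra K ℂ] {N : ℕ}

/-- `x ∈ X` -/
def RMap.Mem (f : RMap K N) (x : Fin (N + 1) → ℂ) : Prop := x ≠ 0 ∧ ∀ E ∈ f.eqs, aeval x E = 0

/-- `y = f(x)` in `ℙ^N`: all formulas of `f` take at `x` a value proportional to `y`. -/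
def RMap.IsImage (f : RMap K N) (x y : Fin (N + 1) → ℂ) : Prop :=
  y ≠ 0 ∧ ∀ l, ∃ c : ℂ, ∀ j, aeval x (f.G l j) = c * y j

/-- `x 0, x 1, …` is an orbit in `X`. -/
def RMap.IsOrbit (f : RMap K N) (x : ℕ → Fin (N + 1) → ℂ) : Prop :=
  f.Mem (x 0) ∧ ∀ n, f.IsImage (x n) (x (n + 1))

/-- `y_0 ∈ X, y_1 = f(y_0), …, y_m = f(y_{m-1})` -/
def RMap.IsSegment (f : RMap K N) {m : ℕ} (y : Fin (m + 1) → Fin (N + 1) → ℂ) : Prop :=
  f.Mem (y 0) ∧ ∀ i : Fin m, f.IsImage (y i.castSucc) (y i.succ)

/-- multihomogeneous of multidegree `β` -/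
def MultiHomog {R : Type} [CommSemiring R] {m N : ℕ} (β : Fin m → ℕ)
    (Q : MvPolynomial (Fin m × Fin (N + 1)) R) : Prop :=
  ∀ s ∈ Q.support, ∀ i, ∑ j, s (i, j) = β i

/-- A trivialization of the line bundle `⊗_i (f^i)^* O(a_i)` on `X`: at the point `x` it is the multihomogeneous function
`g = A_l / B_l` (of multidegree `a`) of the homogeneous coordinates of `x, f(x), …, f^m(x)`, for every `l` with `A_l, B_l`
not zero at this point, and at every point there is such an `l`. -/
structure Triv (f : RMap K N) (m : ℕ) (a : Fin (m + 1) → ℤ) where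
  s : ℕ
  A : Fin s → MvPolynomial (Fin (m + 1) × Fin (N + 1)) K
  B : Fin s → MvPolynomial (Fin (m + 1) × Fin (N + 1)) K
  α : Fin s → Fin (m + 1) → ℕ
  β : Fin s → Fin (m + 1) → ℕ
  A_homog : ∀ l, MultiHomog (α l) (A l)
  B_homog : ∀ l, MultiHomog (β l) (B l)
  degree : ∀ l i, (α l i : ℤ) - β l i = a i
  cover : ∀ y : Fin (m + 1) → Fin (N + 1) → ℂ, f.IsSegment y →
    ∃ l, aeval (fun p => y p.1 p.2) (A l) ≠ 0 ∧ aeval (fun p => y p.1 p.2) (B l) ≠ 0
  agree : ∀ y : Fin (m + 1) → Fin (N + 1) → ℂ, f.IsSegment y → ∀ l l',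
    aeval (fun p => y p.1 p.2) (A l) * aeval (fun p => y p.1 p.2) (B l') =
      aeval (fun p => y p.1 p.2) (A l') * aeval (fun p => y p.1 p.2) (B l)

/-- The line bundles `(f^i)^* O(1)`, `i ≥ 0`, satisfy a nontrivial relation in `Pic X`, i.e. they generate a
subgroup of finite rank.  (For `X` normal this is always so: `Pic X` is finitely generated.) -/
def RMap.PicFinite (f : RMap K N) : Prop :=
  ∃ (m : ℕ) (a : Fin (m + 1) → ℤ), a (Fin.last m) ≠ 0 ∧ Nonempty (Triv f m a)

end maps

/-! ## The degrees -/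

/-- `[K(x_0) : K(x_n)] (h(V_n) + deg V_n)`, where `V_n = f^n(V)` is the `K`-closure of `x_n`, `h` is the height of the
Chow form (relative to `K`), and the total degree of the Chow form is `(k+1) deg V_n`.  The field degree is
the degree of `f^n : V → V_n` (it is `0` if it is not finite). -/
def arithDeg (K : Type) [Field K] [NumberField K] [Algebra K ℂ] (k : ℕ) {N : ℕ} (x : ℕ → Fin (N + 1) → ℂ)
    (n : ℕ) : ℝ :=
  ((ratioField K (x n)).relfinrank (ratioField K (x 0)) : ℝ) *
    (Finsupp.logHeight (AddMonoidAlgebra.coeff (chowForm K k (x n))) +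
      ((chowForm K k (x n)).totalDegree : ℝ) / (k + 1))

/-- The result. -/
def S_FINAL : Prop := ∀ (K : Type) [Field K] [NumberField K] [Algebra K ℂ] (N : ℕ) (f : RMap K N),
  f.PicFinite → ∀ (k : ℕ) (x : ℕ → Fin (N + 1) → ℂ), f.IsOrbit x →
    Algebra.trdeg K (ratioField K (x 0)) = k →
      ∃ α : ℝ, IsAlgebraic ℚ α ∧ ∀ D : ℕ → ℝ,
        (∃ c₁ c₂ : ℝ, 0 < c₁ ∧ 0 < c₂ ∧ ∀ n, c₁ * arithDeg K k x n ≤ D n ∧ D n ≤ c₂ * arithDeg K k x n) →
          Tendsto (fun n : ℕ => D n ^ (1 / (n : ℝ))) atTop (𝓝 α)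

end Pool.Agent.Helper80.HD
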